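import Pool.Agent.R492.DV.F3
import Pool.Agent.Results.MP_3554b5_lc.UnramifiedNorms

set_option autoImplicit false

namespace Pool.Agent.R492.DV

open FirstOrder FirstOrder.Language NNReal
open Pool.Agent.W882.Nip3 Pool.Agent.Results.MP_3554b5_lc.UnramifiedNorms

theorem eqv_of_same {L : FirstOrder.Language.{0, 0}} {m : ℕ} {M M' : Type} [L.Structure M]
    [L.Structure M'] {Q : Fin m → Set M} {Q' : Fin m → Set M'} (h : Same L Q Q') :
    L.ElementarilyEquivalent M M' := by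
  letI := ul Q
  letI := ul Q'
  have h' : (L.sum (UL m)).ElementarilyEquivalent M M' := h
  rw [elementarilyEquivalent_iff] at h' ⊢
  intro φ
  have h1 := h' (LHom.sumInl.onSentence φ)
  rwa [LHom.realize_onSentence, LHom.realize_onSentence] at h1

/-- The valuation ring `O` has a principal maximal ideal `(ϖ) ≠ 0`, and for some `q ≥ 2` every
nonzero element of `K` is a product of a power of `ϖ`, a unit of `O` and a `q`-th power. -/
def Discrete {K : Type} [Field K] (O : ValuationSubring K) : Prop :=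
  ∃ ϖ : O, ϖ ≠ 0 ∧ IsLocalRing.maximalIdeal O = Ideal.span {ϖ} ∧ ∃ q : ℕ, 2 ≤ q ∧
    ∀ x : K, x ≠ 0 → ∃ (i : ℕ) (y : K) (u : Oˣ), x = (ϖ : K) ^ i * ((u : O) : K) * y ^ q

/-- The residue field of `O` has characteristic different from `ℓ` and an element which is not an
`ℓ`-th power. -/
def NotClosed (ℓ : ℕ) {K : Type} [Field K] (O : ValuationSubring K) : Prop :=
  (ℓ : IsLocalRing.ResidueField O) ≠ 0 ∧ ∃ u : IsLocalRing.ResidueField O, ∀ y, y ^ ℓ ≠ u

theorem discrete_of_dvr {K : Type} [Field K] (O : ValuationSubring K)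
    [IsDiscreteValuationRing O] : Discrete O := by
  obtain ⟨ϖ, hϖ⟩ := IsDiscreteValuationRing.exists_irreducible O
  have hϖ0 : (ϖ : K) ≠ 0 := fun h => hϖ.ne_zero (Subtype.ext h)
  refine ⟨ϖ, hϖ.ne_zero, hϖ.maximalIdeal_eq, 2, le_rfl, fun x hx => ?_⟩
  rcases O.mem_or_inv_mem x with h | h
  · obtain ⟨n, u, hu⟩ := IsDiscreteValuationRing.eq_unit_mul_pow_irreducible
      (x := (⟨x, h⟩ : O)) (fun h0 => hx (congrArg Subtype.val h0)) hϖ
    refine ⟨n, 1, u, ?_⟩
    have h1 := congrArg Subtype.val hu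
    simp only [MulMemClass.coe_mul, SubmonoidClass.coe_pow] at h1
    rw [h1, one_pow, mul_one, mul_comm]
  · obtain ⟨n, u, hu⟩ := IsDiscreteValuationRing.eq_unit_mul_pow_irreducible
      (x := (⟨x⁻¹, h⟩ : O)) (fun h0 => inv_ne_zero hx (congrArg Subtype.val h0)) hϖ
    refine ⟨n, ((ϖ : K) ^ n)⁻¹, u⁻¹, ?_⟩
    have h1 : x⁻¹ = ((u : O) : K) * (ϖ : K) ^ n := congrArg Subtype.val hu
    have h2 : ((u : O) : K) * (((u⁻¹ : Oˣ) : O) : K) = 1 := by
      rw [← MulMemClass.coe_mul, Units.mul_inv]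
      rfl
    have h3 : ((u : O) : K) ≠ 0 := left_ne_zero_of_mul_eq_one h2
    have h4 : (((u⁻¹ : Oˣ) : O) : K) = ((u : O) : K)⁻¹ := (eq_inv_of_mul_eq_one_right h2)
    have h5 : x = (((u : O) : K) * (ϖ : K) ^ n)⁻¹ := by rw [← h1, inv_inv]
    rw [h5, h4]
    have h6 : (ϖ : K) ^ n ≠ 0 := pow_ne_zero _ hϖ0
    field_simp

theorem discSet_of {K : Type} [Field K] {O : ValuationSubring K} {ℓ : ℕ} (hO : Discrete O)
    (hℓ : NotClosed ℓ O) : ∃ q, 2 ≤ q ∧ DiscSet ℓ q (O : Set K) := by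
  obtain ⟨ϖ, hϖ0, hmax, q, hq, hgen⟩ := hO
  obtain ⟨hl, u, hu⟩ := hℓ
  have hϖK : (ϖ : K) ≠ 0 := fun h => hϖ0 (Subtype.ext h)
  have hunit : ∀ x : O, IsUnit x → ∃ y ∈ (O : Set K), (x : K) * y = 1 := by
    rintro x ⟨w, rfl⟩
    refine ⟨((w⁻¹ : Oˣ) : O), ((w⁻¹ : Oˣ) : O).2, ?_⟩
    rw [← MulMemClass.coe_mul, Units.mul_inv]
    rfl
  refine ⟨q, hq, O.one_mem, fun x hx y hy => O.add_mem _ _ hx hy, fun x hx => O.neg_mem _ hx,
    fun x hx y hy => O.mul_mem _ _ hx hy, ?_, ?_, ?_, ?_⟩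
  · intro x y hxy
    rcases O.mem_or_inv_mem x with h | h
    · exact Or.inl h
    · right
      have : y = x⁻¹ := eq_inv_of_mul_eq_one_right hxy
      rw [this]
      exact h
  · refine ⟨ϖ, ϖ.2, hϖK, ?_, ?_, ?_⟩
    · intro y hy h1
      have h2 : IsUnit ϖ := IsUnit.of_mul_eq_one ⟨y, hy⟩ (Subtype.ext h1)
      have h3 : ϖ ∈ IsLocalRing.maximalIdeal O := by
        rw [hmax]
        exact Ideal.mem_span_singleton_self ϖ
      exact (IsLocalRing.mem_maximalIdeal ϖ).1 h3 h2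
    · intro x hx
      by_cases h1 : IsUnit (⟨x, hx⟩ : O)
      · exact Or.inl (hunit _ h1)
      · right
        have h2 : (⟨x, hx⟩ : O) ∈ IsLocalRing.maximalIdeal O := h1
        rw [hmax, Ideal.mem_span_singleton] at h2
        obtain ⟨y, hy⟩ := h2
        exact ⟨y, y.2, congrArg Subtype.val hy⟩
    · intro x hx
      obtain ⟨i, y, w, hxy⟩ := hgen x hx
      obtain ⟨w', hw', hww⟩ := hunit w w.isUnit
      refine ⟨⟨i % q, Nat.mod_lt _ (by omega)⟩, (ϖ : K) ^ (i / q) * y, w, (w : O).2, w', hw', hww,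
        ?_⟩
      rw [hxy]
      simp only
      conv_lhs => rw [← Nat.mod_add_div i q, pow_add, pow_mul']
      rw [mul_pow]
      ring
  · obtain ⟨u₀, rfl⟩ := IsLocalRing.residue_surjective u
    refine ⟨u₀, u₀.2, fun y hy => ?_⟩
    have h1 : IsUnit ((⟨y, hy⟩ : O) ^ ℓ - u₀) := by
      by_contra h2
      have h3 : ((⟨y, hy⟩ : O) ^ ℓ - u₀) ∈ IsLocalRing.maximalIdeal O := h2
      have h4 := (IsLocalRing.residue_eq_zero_iff _).2 h3
      rw [map_sub, map_pow, sub_eq_zero] at h4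
      exact hu _ h4
    obtain ⟨z, hz, h2⟩ := hunit _ h1
    exact ⟨z, hz, h2⟩
  · have h1 : IsUnit (ℓ : O) := by
      by_contra h2
      have h3 : (ℓ : O) ∈ IsLocalRing.maximalIdeal O := h2
      have h4 := (IsLocalRing.residue_eq_zero_iff _).2 h3
      rw [map_natCast] at h4
      exact hl h4
    obtain ⟨z, hz, h2⟩ := hunit _ h1
    exact ⟨z, hz, by simpa using h2⟩

/-- Fewer than `N` sets with `DiscSet` in a field with the bound of `UnramifiedNorms`. -/
theorem not_injective (hF2 : F2Stm) {K' : Type} [Field K'] {ℓ : ℕ} (hℓ : ℓ.Prime) {N : ℕ}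
    (hN : ∀ P : Fin N → ValuedPlace K', (Pairwise fun i j => (P i).Incomparable (P j)) →
        ∃ i, (P i).TameUpTo ℓ)
    (Q : Fin N → Set K') (q : Fin N → ℕ) (hq : ∀ i, 2 ≤ q i) (hQ : ∀ i, DiscSet ℓ (q i) (Q i)) :
    ¬ Function.Injective Q := by
  intro hinj
  choose O κ fκ π v hπ hsm ha hL using fun i => hF2 K' ℓ (q i) hℓ (Q i) (hQ i)
  let P : Fin N → ValuedPlace K' := fun i =>
    { O := O i
      κ := κ i
      field := fκ i
      π := π i
      surjective := hπ i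
      v := v i }
  obtain ⟨i, hi⟩ := hN P (by
    intro i j hij
    obtain ⟨x, hx0, hx1, hx2⟩ := f3' (hq i) (hq j) (hQ i) (hQ j) (fun h => hij (hinj h))
    exact ⟨x, hx0, (hsm i x).2 hx1, (hsm j x⁻¹).2 hx2⟩)
  rcases (hi ℓ hℓ.one_le le_rfl).1 with h1 | h1
  · obtain ⟨a, h2⟩ := ha i
    obtain ⟨c, hc⟩ := h1 a
    exact h2 c hc
  · exact h1 (hL i)

theorem main (hKu : KStm) (hF1 : F1Stm) (hF2 : F2Stm) (K : Type) [Field K]
    [FirstOrder.Ring.CompatibleRing K]
    (hK : NIPField K ∨ (∃ n, NIPnField n K) ∨ NTP2Field K) (ℓ : ℕ) (hℓ : ℓ.Prime) :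
    (∀ O : ValuationSubring K, Discrete O → NotClosed ℓ O →
      ∃ (p : ℕ) (ψ : FirstOrder.Language.ring.Formula (Fin 1 ⊕ Fin p)) (c : Fin p → K),
        ∀ x : K, x ∈ O ↔ ψ.Realize (Sum.elim (fun _ => x) c)) ∧
    ∃ N : ℕ, ∀ (K' : Type) [Field K'] [FirstOrder.Ring.CompatibleRing K'],
      FirstOrder.Language.ring.ElementarilyEquivalent K K' →
      {O : ValuationSubring K' | Discrete O ∧ NotClosed ℓ O}.encard < N := by
  obtain ⟨N, hN⟩ := (result K hK).1 ℓ
  refine ⟨fun O hO hOℓ => ?_, N, fun K' _ _ hKK' => ?_⟩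
  · obtain ⟨q, hq, hD⟩ := discSet_of hO hOℓ
    refine hKu FirstOrder.Language.ring K (O : Set K) N ?_
    intro M' _ _ Q hQ hinj
    rcases Nat.eq_zero_or_pos N with rfl | hNpos
    · obtain ⟨i, -⟩ := (hN K (by rw [elementarilyEquivalent_iff]; intro φ; rfl)).1
        (fun i => i.elim0) (fun i => i.elim0)
      exact i.elim0
    · have he := eqv_of_same (hQ ⟨0, hNpos⟩)
      haveI : FirstOrder.Language.Theory.field.Model M' := by
        have h1 : FirstOrder.Language.Theory.field.Model K := inferInstance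
        exact he.theory_model_iff.1 h1
      letI := FirstOrder.Field.fieldOfModelField M'
      letI := FirstOrder.Field.compatibleRingOfModelField M'
      exact not_injective hF2 hℓ (hN M' he).1 Q (fun _ => q) (fun _ => hq)
        (fun i => hF1 K ℓ q (O : Set K) hD M' (Q i) (hQ i)) hinj
  · by_contra hcon
    rw [not_lt] at hcon
    obtain ⟨t, ht, htN⟩ := Set.exists_subset_encard_eq hcon
    have htf : t.Finite := Set.finite_of_encard_eq_coe htN
    have hcard : htf.toFinset.card = N := by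
      have h1 := htf.encard_eq_coe_toFinset_card
      rw [htN] at h1
      exact_mod_cast h1.symm
    let e : Fin N → ValuationSubring K' := fun i => (htf.toFinset.equivFinOfCardEq hcard).symm i
    have heinj : Function.Injective e := fun i j hij =>
      (htf.toFinset.equivFinOfCardEq hcard).symm.injective (Subtype.ext hij)
    have hemem : ∀ i, Discrete (e i) ∧ NotClosed ℓ (e i) := fun i =>
      ht (htf.mem_toFinset.1 ((htf.toFinset.equivFinOfCardEq hcard).symm i).2)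
    choose q hq hD using fun i => discSet_of (hemem i).1 (hemem i).2
    refine not_injective hF2 hℓ (hN K' hKK').1 (fun i => (e i : Set K')) q hq hD ?_
    intro i j hij
    exact heinj (SetLike.coe_injective hij)

end Pool.Agent.R492.DV
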