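import Pool.Agent.R492.DV.E3
import Pool.Agent.R492.DV.Fin

set_option autoImplicit false

namespace Pool.Agent.R492.DV

open FirstOrder FirstOrder.Language NNReal Polynomial
open Pool.Agent.W882.Nip3 Pool.Agent.Results.MP_3554b5_lc.UnramifiedNorms

/-- The residue field of `O` has a separable extension of degree `d`. -/
def HasExt (d : ℕ) {K : Type} [Field K] (O : ValuationSubring K) : Prop :=
  ∃ (L : Type) (_ : Field L) (_ : Algebra (IsLocalRing.ResidueField O) L),
    Algebra.IsSeparable (IsLocalRing.ResidueField O) L ∧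
      Module.finrank (IsLocalRing.ResidueField O) L = d

section pol

variable {K : Type} [Field K] {O : ValuationSubring K}

/-- the coefficients of a monic polynomial over `O` -/
def mo {d : ℕ} (a : Fin d → O) (k : ℕ) : O :=
  if h : k < d then a ⟨k, h⟩ else if k = d then 1 else 0

theorem coe_mo {d : ℕ} (a : Fin d → O) (k : ℕ) :
    ((mo a k : O) : K) = mc (fun i => (a i : K)) k := by
  unfold mo mc
  split_ifs <;> rfl

/-- the reduction -/
noncomputable def pol {d : ℕ} (a : Fin d → O) : (IsLocalRing.ResidueField O)[X] :=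
  ∑ j ∈ Finset.range (d + 1), C (IsLocalRing.residue O (mo a j)) * X ^ j

theorem coeff_pol {d : ℕ} (a : Fin d → O) (k : ℕ) :
    (pol a).coeff k = IsLocalRing.residue O (mo a k) := by
  unfold pol
  simp only [finsetSum_coeff, coeff_C_mul, coeff_X_pow, mul_ite, mul_one, mul_zero]
  rw [Finset.sum_ite_eq]
  split_ifs with h
  · rfl
  · rw [Finset.mem_range, not_lt] at h
    have h1 : mo a k = 0 := by
      unfold mo
      rw [dif_neg (by omega), if_neg (by omega)]
    rw [h1, map_zero]

theorem natDegree_pol {d : ℕ} (a : Fin d → O) : (pol a).natDegree = d := by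
  apply natDegree_eq_of_le_of_coeff_ne_zero
  · rw [natDegree_le_iff_coeff_eq_zero]
    intro k hk
    have h1 : mo a k = 0 := by
      unfold mo
      rw [dif_neg (by omega), if_neg (by omega)]
    rw [coeff_pol, h1, map_zero]
  · have h1 : mo a d = 1 := by
      unfold mo
      rw [dif_neg (by omega), if_pos rfl]
    rw [coeff_pol, h1, map_one]
    exact one_ne_zero

theorem monic_pol {d : ℕ} (a : Fin d → O) : (pol a).Monic := by
  have h1 : mo a d = 1 := by
    unfold mo
    rw [dif_neg (by omega), if_pos rfl]
  rw [Monic, leadingCoeff, natDegree_pol, coeff_pol, h1, map_one]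

theorem exists_pol {d : ℕ} (f : (IsLocalRing.ResidueField O)[X]) (hf : f.Monic)
    (hd : f.natDegree = d) : ∃ a : Fin d → O, f = pol a := by
  choose g hg using fun x => IsLocalRing.residue_surjective (R := O) x
  refine ⟨fun i => g (f.coeff i), ?_⟩
  ext k
  rw [coeff_pol]
  unfold mo
  split_ifs with h1 h2
  · exact (hg _).symm
  · rw [map_one, h2, ← hd]
    exact hf
  · rw [map_zero]
    exact coeff_eq_zero_of_natDegree_lt (by omega)

theorem exists_mul_eq_one {x : O} (hx : IsLocalRing.residue O x ≠ 0) :
    ∃ z : K, z ∈ (O : Set K) ∧ (x : K) * z = 1 := by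
  have h1 : IsUnit x := by
    by_contra h2
    exact hx ((IsLocalRing.residue_eq_zero_iff _).2 h2)
  obtain ⟨w, rfl⟩ := h1
  refine ⟨((w⁻¹ : Oˣ) : O), ((w⁻¹ : Oˣ) : O).2, ?_⟩
  rw [← MulMemClass.coe_mul, Units.mul_inv]
  rfl

end pol

theorem extSet_of {K : Type} [Field K] {O : ValuationSubring K} {d : ℕ} (hd : 2 ≤ d)
    (hO : Discrete O) (hE : HasExt d O) : ∃ q, 2 ≤ q ∧ ExtSet d q (O : Set K) := by
  obtain ⟨ϖ, hϖ0, hmax, q, hq, hgen⟩ := hO
  obtain ⟨L, _, _, hsep, hfin⟩ := hE
  have hϖK : (ϖ : K) ≠ 0 := fun h => hϖ0 (Subtype.ext h)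
  have hunit : ∀ x : O, IsUnit x → ∃ y ∈ (O : Set K), (x : K) * y = 1 := by
    rintro x ⟨w, rfl⟩
    refine ⟨((w⁻¹ : Oˣ) : O), ((w⁻¹ : Oˣ) : O).2, ?_⟩
    rw [← MulMemClass.coe_mul, Units.mul_inv]
    rfl
  refine ⟨q, hq, O.one_mem, fun x hx y hy => O.add_mem _ _ hx hy, fun x hx => O.neg_mem _ hx,
    fun x hx y hy => O.mul_mem _ _ hx hy, ?_, ?_, ?_⟩
  · intro x y hxy
    rcases O.mem_or_inv_mem x with h | h
    · exact Or.inl h
    · right
      have : y = x⁻¹ := eq_inv_of_mul_eq_one_right hxy
      rw [this]
      exact h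
  · refine ⟨ϖ, ϖ.2, hϖK, ?_, ?_, ?_⟩
    · intro y hy h1
      have h2 : IsUnit ϖ := IsUnit.of_mul_eq_one ⟨y, hy⟩ (Subtype.ext h1)
      have h3 : ϖ ∈ IsLocalRing.maximalIdeal O := by
        rw [hmax]
        exact Ideal.mem_span_singleton_self ϖ
      exact (IsLocalRing.mem_maximalIdeal ϖ).1 h3 h2
    · intro x hx
      by_cases h1 : IsUnit (⟨x, hx⟩ : O)
      · exact Or.inl (hunit _ h1)
      · right
        have h2 : (⟨x, hx⟩ : O) ∈ IsLocalRing.maximalIdeal O := h1
        rw [hmax, Ideal.mem_span_singleton] at h2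
        obtain ⟨y, hy⟩ := h2
        exact ⟨y, y.2, congrArg Subtype.val hy⟩
    · intro x hx
      obtain ⟨i, y, w, hxy⟩ := hgen x hx
      obtain ⟨w', hw', hww⟩ := hunit w w.isUnit
      refine ⟨⟨i % q, Nat.mod_lt _ (by omega)⟩, (ϖ : K) ^ (i / q) * y, w, (w : O).2, w', hw', hww,
        ?_⟩
      rw [hxy]
      simp only
      conv_lhs => rw [← Nat.mod_add_div i q, pow_add, pow_mul']
      rw [mul_pow]
      ring
  · have : FiniteDimensional (IsLocalRing.ResidueField O) L :=
      FiniteDimensional.of_finrank_pos (by omega)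
    obtain ⟨α, hα⟩ := Field.exists_primitive_element (IsLocalRing.ResidueField O) L
    have hint : IsIntegral (IsLocalRing.ResidueField O) α := Algebra.IsIntegral.isIntegral α
    have hdeg : (minpoly (IsLocalRing.ResidueField O) α).natDegree = d := by
      rw [(Field.primitive_element_iff_minpoly_natDegree_eq _ α).1 hα, hfin]
    obtain ⟨a, ha⟩ := exists_pol _ (minpoly.monic hint) hdeg
    have hirr := minpoly.irreducible hint
    have hs : (minpoly (IsLocalRing.ResidueField O) α).Separable := hsep.isSeparable' α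
    rw [ha] at hirr hs
    refine ⟨fun i => (a i : K), fun i => (a i).2, ?_, ?_⟩
    · have h1 : derivative (pol a) ≠ 0 := by
        intro h2
        have h3 := hs
        rw [separable_def, h2] at h3
        have h4 := isCoprime_zero_right.1 h3
        exact hirr.not_isUnit h4
      obtain ⟨k, hk⟩ : ∃ k, (derivative (pol a)).coeff k ≠ 0 := by
        by_contra hcon
        push Not at hcon
        exact h1 (Polynomial.ext fun k => by rw [hcon k, coeff_zero])
      rw [coeff_derivative, coeff_pol] at hk
      have hkd : k < d := by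
        by_contra hcon
        have h3 : mo a (k + 1) = 0 := by
          unfold mo
          rw [dif_neg (by omega), if_neg (by omega)]
        rw [h3, map_zero, zero_mul] at hk
        exact hk rfl
      obtain ⟨z, hz, hz1⟩ := exists_mul_eq_one (O := O) (x := ((k + 1 : ℕ) : O) * mo a (k + 1)) (by
        rw [map_mul, map_natCast]
        intro h5
        apply hk
        rw [mul_comm]
        push_cast at h5
        exact h5)
      refine ⟨⟨k, hkd⟩, z, hz, ?_⟩
      rw [← coe_mo]
      rw [← hz1]
      push_cast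
      rfl
    · intro e he b c hb hc
      let b' : Fin (e : ℕ) → O := fun i => ⟨b i, hb i⟩
      let c' : Fin (d - (e : ℕ)) → O := fun i => ⟨c i, hc i⟩
      have hne : pol a ≠ pol b' * pol c' := by
        intro h1
        rcases hirr.isUnit_or_isUnit h1 with h2 | h2
        · have := natDegree_eq_zero_of_isUnit h2
          rw [natDegree_pol] at this
          omega
        · have := natDegree_eq_zero_of_isUnit h2
          rw [natDegree_pol] at this
          have := e.2
          omega
      obtain ⟨k, hk⟩ : ∃ k, (pol a).coeff k ≠ (pol b' * pol c').coeff k := by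
        by_contra hcon
        push Not at hcon
        exact hne (Polynomial.ext hcon)
      have hm : (pol b' * pol c').Monic := (monic_pol b').mul (monic_pol c')
      have hmd : (pol b' * pol c').natDegree = d := by
        rw [(monic_pol b').natDegree_mul (monic_pol c'), natDegree_pol, natDegree_pol]
        have := e.2
        omega
      have hkd : k < d := by
        by_contra hcon
        apply hk
        rcases (not_lt.1 hcon).eq_or_lt with h3 | h3
        · have h4 : (pol a).coeff k = 1 := by
            have := monic_pol a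
            rw [Monic, leadingCoeff, natDegree_pol] at this
            rw [← h3]
            exact this
          have h5 : (pol b' * pol c').coeff k = 1 := by
            rw [Monic, leadingCoeff, hmd] at hm
            rw [← h3]
            exact hm
          rw [h4, h5]
        · rw [coeff_eq_zero_of_natDegree_lt (by rw [natDegree_pol]; exact h3),
            coeff_eq_zero_of_natDegree_lt (by rw [hmd]; exact h3)]
      rw [coeff_pol, coeff_mul, Finset.Nat.sum_antidiagonal_eq_sum_range_succ
        (fun i j => (pol b').coeff i * (pol c').coeff j)] at hk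
      obtain ⟨z, hz, hz1⟩ := exists_mul_eq_one (O := O)
        (x := mo a k - ∑ j ∈ Finset.range (k + 1), mo b' j * mo c' (k - j)) (by
        intro h6
        rw [map_sub, map_sum, sub_eq_zero] at h6
        apply hk
        rw [h6]
        refine Finset.sum_congr rfl fun j _ => ?_
        rw [coeff_pol, coeff_pol, map_mul])
      refine ⟨⟨k, hkd⟩, z, hz, ?_⟩
      rw [← hz1]
      congr 1
      rw [AddSubgroupClass.coe_sub, coe_mo, AddSubmonoidClass.coe_finsetSum]
      congr 1
      refine Finset.sum_congr rfl fun j _ => ?_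
      rw [MulMemClass.coe_mul, coe_mo, coe_mo]

theorem exists_hasExt {K : Type} [Field K] {O : ValuationSubring K}
    (h : ¬ IsSepClosed (IsLocalRing.ResidueField O)) : ∃ d, 2 ≤ d ∧ HasExt d O := by
  by_contra hcon
  push Not at hcon
  refine h (IsSepClosed.of_exists_root _ fun p hp hirr hsep => ?_)
  by_contra hroot
  push Not at hroot
  have : Fact (Irreducible p) := ⟨hirr⟩
  have hfin : Module.finrank (IsLocalRing.ResidueField O) (AdjoinRoot p) = p.natDegree :=
    (AdjoinRoot.powerBasis hirr.ne_zero).finrank.trans (AdjoinRoot.powerBasis_dim _)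
  have h2 : 2 ≤ p.natDegree := by
    by_contra hlt
    have h3 : 0 < p.natDegree := hirr.natDegree_pos
    obtain ⟨x, hx⟩ := exists_root_of_degree_eq_one
      ((degree_eq_iff_natDegree_eq hirr.ne_zero).2 (by
        show p.natDegree = 1
        omega))
    exact hroot x hx
  refine hcon p.natDegree h2 ⟨AdjoinRoot p, inferInstance, inferInstance, ?_, hfin⟩
  have h4 : IntermediateField.adjoin (IsLocalRing.ResidueField O) {AdjoinRoot.root p} = ⊤ := by
    rw [← top_le_iff]
    intro x _
    induction x using AdjoinRoot.induction_on with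
    | ih f =>
      rw [← AdjoinRoot.aeval_eq]
      exact IntermediateField.algebra_adjoin_le_adjoin _ _
        (aeval_mem_adjoin_singleton _ _)
  have h5 : IsSeparable (IsLocalRing.ResidueField O) (AdjoinRoot.root p) := by
    have h6 : minpoly (IsLocalRing.ResidueField O) (AdjoinRoot.root p) ∣ p := by
      apply minpoly.dvd
      rw [AdjoinRoot.aeval_eq, AdjoinRoot.mk_self]
    exact hsep.of_dvd h6
  have h7 := (IntermediateField.isSeparable_adjoin_simple_iff_isSeparable
    (IsLocalRing.ResidueField O) (AdjoinRoot p)).2 h5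
  rw [h4] at h7
  exact Algebra.IsSeparable.of_equiv_equiv (RingEquiv.refl _)
    (IntermediateField.topEquiv (F := IsLocalRing.ResidueField O) (E := AdjoinRoot p)).toRingEquiv
    (by ext; rfl)

theorem not_injective2 (hE2 : E2Stm) {K' : Type} [Field K'] {d : ℕ} (hd : 2 ≤ d) {N : ℕ}
    (hN : ∀ P : Fin N → ValuedPlace K', (Pairwise fun i j => (P i).Incomparable (P j)) →
        ∃ i, (P i).TameUpTo d)
    (Q : Fin N → Set K') (q : Fin N → ℕ) (hq : ∀ i, 2 ≤ q i) (hQ : ∀ i, ExtSet d (q i) (Q i)) :
    ¬ Function.Injective Q := by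
  intro hinj
  choose O κ fκ π v hπ hsm ha hL using fun i => hE2 K' d (q i) hd (Q i) (hQ i)
  let P : Fin N → ValuedPlace K' := fun i =>
    { O := O i
      κ := κ i
      field := fκ i
      π := π i
      surjective := hπ i
      v := v i }
  obtain ⟨i, hi⟩ := hN P (by
    intro i j hij
    obtain ⟨x, hx0, hx1, hx2⟩ := e3' (hq i) (hq j) (hQ i) (hQ j) (fun h => hij (hinj h))
    exact ⟨x, hx0, (hsm i x).2 hx1, (hsm j x⁻¹).2 hx2⟩)
  rcases (hi d (by omega) le_rfl).1 with h1 | h1
  · obtain ⟨a, h2⟩ := ha i
    obtain ⟨c, hc⟩ := h1 a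
    exact h2 c hc
  · exact h1 (hL i)

theorem main2 (hKu : KStm) (hE1 : E1Stm) (hE2 : E2Stm) (K : Type) [Field K]
    [FirstOrder.Ring.CompatibleRing K]
    (hK : NIPField K ∨ (∃ n, NIPnField n K) ∨ NTP2Field K) :
    (∀ O : ValuationSubring K, Discrete O → ¬ IsSepClosed (IsLocalRing.ResidueField O) →
      ∃ (p : ℕ) (ψ : FirstOrder.Language.ring.Formula (Fin 1 ⊕ Fin p)) (c : Fin p → K),
        ∀ x : K, x ∈ O ↔ ψ.Realize (Sum.elim (fun _ => x) c)) ∧
    ∀ d : ℕ, 2 ≤ d → ∃ N : ℕ, ∀ (K' : Type) [Field K'] [FirstOrder.Ring.CompatibleRing K'],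
      FirstOrder.Language.ring.ElementarilyEquivalent K K' →
      {O : ValuationSubring K' | Discrete O ∧ HasExt d O}.encard < N := by
  refine ⟨fun O hO hOs => ?_, fun d hd => ?_⟩
  · obtain ⟨d, hd, hOd⟩ := exists_hasExt hOs
    obtain ⟨N, hN⟩ := (result K hK).1 d
    obtain ⟨q, hq, hD⟩ := extSet_of hd hO hOd
    refine hKu FirstOrder.Language.ring K (O : Set K) N ?_
    intro M' _ _ Q hQ hinj
    rcases Nat.eq_zero_or_pos N with rfl | hNpos
    · obtain ⟨i, -⟩ := (hN K (by rw [elementarilyEquivalent_iff]; intro φ; rfl)).1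
        (fun i => i.elim0) (fun i => i.elim0)
      exact i.elim0
    · have he := eqv_of_same (hQ ⟨0, hNpos⟩)
      have : FirstOrder.Language.Theory.field.Model M' := by
        have h1 : FirstOrder.Language.Theory.field.Model K := inferInstance
        exact he.theory_model_iff.1 h1
      let _ := FirstOrder.Field.fieldOfModelField M'
      let _ := FirstOrder.Field.compatibleRingOfModelField M'
      exact not_injective2 hE2 hd (hN M' he).1 Q (fun _ => q) (fun _ => hq)
        (fun i => hE1 K d q (O : Set K) hD M' (Q i) (hQ i)) hinj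
  · obtain ⟨N, hN⟩ := (result K hK).1 d
    refine ⟨N, fun K' _ _ hKK' => ?_⟩
    by_contra hcon
    rw [not_lt] at hcon
    obtain ⟨t, ht, htN⟩ := Set.exists_subset_encard_eq hcon
    have htf : t.Finite := Set.finite_of_encard_eq_coe htN
    have hcard : htf.toFinset.card = N := by
      have h1 := htf.encard_eq_coe_toFinset_card
      rw [htN] at h1
      exact_mod_cast h1.symm
    let e : Fin N → ValuationSubring K' := fun i => (htf.toFinset.equivFinOfCardEq hcard).symm i
    have heinj : Function.Injective e := fun i j hij =>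
      (htf.toFinset.equivFinOfCardEq hcard).symm.injective (Subtype.ext hij)
    have hemem : ∀ i, Discrete (e i) ∧ HasExt d (e i) := fun i =>
      ht (htf.mem_toFinset.1 ((htf.toFinset.equivFinOfCardEq hcard).symm i).2)
    choose q hq hD using fun i => extSet_of hd (hemem i).1 (hemem i).2
    refine not_injective2 hE2 hd (hN K' hKK').1 (fun i => (e i : Set K')) q hq hD ?_
    intro i j hij
    exact heinj (SetLike.coe_injective hij)

end Pool.Agent.R492.DV
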