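import Pool.Agent.R492.DV.Stm

set_option autoImplicit false

/-! Compactness for formulas and restriction to the free variables. -/

namespace Pool.Agent.R492.DV.Cpt

open FirstOrder FirstOrder.Language Set

theorem cpt (L : FirstOrder.Language.{0, 0}) (α : Type) (Γ : Set (L.Formula α))
    (h : ∀ Γ₀ : Finset (L.Formula α), (Γ₀ : Set (L.Formula α)) ⊆ Γ →
      ∃ (M : Type) (_ : L.Structure M) (_ : Nonempty M) (v : α → M), ∀ φ ∈ Γ₀, φ.Realize v) :
    ∃ (M : Type) (_ : L.Structure M) (_ : Nonempty M) (v : α → M), ∀ φ ∈ Γ, φ.Realize v := by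
  classical
  have hs : Theory.IsSatisfiable (L := L[[α]]) (Formula.equivSentence '' Γ) := by
    rw [Theory.isSatisfiable_iff_isFinitelySatisfiable]
    intro T₀ hT₀
    obtain ⟨M, _, _, v, hv⟩ := h (T₀.image Formula.equivSentence.symm) (by
      intro φ hφ
      rw [Finset.coe_image] at hφ
      obtain ⟨ψ, hψ, rfl⟩ := hφ
      obtain ⟨χ, hχ, rfl⟩ := hT₀ hψ
      simpa using hχ)
    letI := constantsOn.structure v
    haveI : M ⊨ (T₀ : (L[[α]]).Theory) := by
      rw [Theory.model_iff]
      intro ψ hψ
      have h1 := hv (Formula.equivSentence.symm ψ) (Finset.mem_image_of_mem _ hψ)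
      rwa [Formula.realize_equivSentence_symm] at h1
    exact Theory.Model.isSatisfiable M
  obtain ⟨M⟩ := hs
  letI : L.Structure M := (L.lhomWithConstants α).reduct M
  haveI : (L.lhomWithConstants α).IsExpansionOn M := LHom.isExpansionOn_reduct _ _
  refine ⟨M, inferInstance, inferInstance, fun a => (L.con a : M), fun φ hφ => ?_⟩
  have h1 := M.is_model.realize_of_mem _ (mem_image_of_mem Formula.equivSentence hφ)
  rwa [Formula.realize_equivSentence] at h1

theorem fv (L : FirstOrder.Language.{0, 0}) {α : Type} (φ : L.Formula α) :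
    ∃ (n : ℕ) (i : Fin n → α) (φ' : L.Formula (Fin n)), Function.Injective i ∧
      ∀ (M : Type) [L.Structure M] (v : α → M), φ.Realize v ↔ φ'.Realize (v ∘ i) := by
  classical
  let e := Fintype.equivFin (φ.freeVarFinset : Finset α)
  refine ⟨_, fun k => (e.symm k : α), BoundedFormula.restrictFreeVar φ e, ?_, ?_⟩
  · intro a b hab
    exact e.symm.injective (Subtype.ext hab)
  · intro M _ v
    exact (BoundedFormula.realize_restrictFreeVar v (by intro a; simp)).symm

theorem sum_reduct (L R : FirstOrder.Language.{0, 0}) (M : Type) (S : (L.sum R).Structure M) :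
    @Language.sumStructure L R M ((LHom.sumInl : L →ᴸ L.sum R).reduct M)
      ((LHom.sumInr : R →ᴸ L.sum R).reduct M) = S := by
  apply Structure.ext
  · funext n f x
    rcases f with f | f <;> rfl
  · funext n f x
    rcases f with f | f <;> rfl

end Pool.Agent.R492.DV.Cpt
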