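import Pool.Agent.R492.DV.Stm

set_option autoImplicit false

/-! Piece F1 of the project DV: the property `DiscSet` is first order. -/

namespace Pool.Agent.R492.DV

open FirstOrder FirstOrder.Language FirstOrder.Ring

namespace F1

/-- The language of rings with one unary predicate. -/
abbrev LL : FirstOrder.Language.{0, 0} := Language.ring.sum (UL 1)

/-- Ring terms in `n` bound variables. -/
abbrev RT (n : ℕ) : Type := Language.ring.Term (Empty ⊕ Fin n)

/-- Formulas in `n` bound variables. -/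
abbrev BF (n : ℕ) : Type := LL.BoundedFormula Empty n

def eqF {n : ℕ} (t₁ t₂ : RT n) : BF n :=
  (LHom.sumInl.onTerm t₁).bdEqual (LHom.sumInl.onTerm t₂)

def inP {n : ℕ} (t : RT n) : BF n :=
  Relations.boundedFormula₁ (L := LL) (Sum.inr (URel.P 0)) (LHom.sumInl.onTerm t)

def var {n : ℕ} (i : Fin n) : RT n := Term.var (Sum.inr i)

def powT {n : ℕ} (t : RT n) : ℕ → RT n
  | 0 => 1
  | (k + 1) => powT t k * t

def castT {n : ℕ} : ℕ → RT n
  | 0 => 0
  | (k + 1) => castT k + 1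

section Realize

variable {K : Type} [Field K] [CompatibleRing K]

theorem realize_eqF (Q : Fin 1 → Set K) {n : ℕ} (t₁ t₂ : RT n) (v : Empty → K) (xs : Fin n → K) :
    (letI := ul Q; (eqF t₁ t₂).Realize v xs) ↔
      t₁.realize (Sum.elim v xs) = t₂.realize (Sum.elim v xs) := by
  let _ := ul Q
  show (eqF t₁ t₂).Realize v xs ↔ _
  unfold eqF
  rw [BoundedFormula.realize_bdEqual, LHom.realize_onTerm, LHom.realize_onTerm]

theorem realize_inP (Q : Fin 1 → Set K) {n : ℕ} (t : RT n) (v : Empty → K) (xs : Fin n → K) :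
    (letI := ul Q; (inP t).Realize v xs) ↔ t.realize (Sum.elim v xs) ∈ Q 0 := by
  let _ := ul Q
  show (inP t).Realize v xs ↔ _
  unfold inP
  rw [BoundedFormula.realize_rel₁]
  show _ ∈ Q 0 ↔ _
  simp [LHom.realize_onTerm]

@[simp] theorem realize_var' {n : ℕ} (i : Fin n) (v : Empty → K) (xs : Fin n → K) :
    (var i).realize (Sum.elim v xs) = xs i := rfl

@[simp] theorem realize_powT {n : ℕ} (t : RT n) (k : ℕ) (v : Empty ⊕ Fin n → K) :
    (powT t k).realize v = t.realize v ^ k := by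
  induction k with
  | zero => simp [powT]
  | succ k ih => simp [powT, ih, pow_succ]

@[simp] theorem realize_castT {n : ℕ} (k : ℕ) (v : Empty ⊕ Fin n → K) :
    (castT k : RT n).realize v = (k : K) := by
  induction k with
  | zero => simp [castT]
  | succ k ih => simp [castT, ih]

end Realize

def sOne : BF 0 := inP 1
def sAdd : BF 0 := ∀' ∀' ((inP (var 0)).imp ((inP (var 1)).imp (inP (n := 2) (var 0 + var 1))))
def sNeg : BF 0 := ∀' ((inP (var 0)).imp (inP (n := 1) (-(var 0))))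
def sMul : BF 0 := ∀' ∀' ((inP (var 0)).imp ((inP (var 1)).imp (inP (n := 2) (var 0 * var 1))))
def sTotal : BF 0 := ∀' ∀' ((eqF (n := 2) (var 0 * var 1) 1).imp (inP (var 0) ⊔ inP (var 1)))
noncomputable def sUnif (q : ℕ) : BF 0 :=
  ∃' (inP (n := 1) (var 0) ⊓ ((eqF (n := 1) (var 0) 0).not ⊓
    ((∀' ((inP (n := 2) (var 1)).imp (eqF (n := 2) (var 0 * var 1) 1).not)) ⊓
    ((∀' ((inP (n := 2) (var 1)).imp
      ((∃' (inP (n := 3) (var 2) ⊓ eqF (n := 3) (var 1 * var 2) 1)) ⊔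
       (∃' (inP (n := 3) (var 2) ⊓ eqF (n := 3) (var 1) (var 0 * var 2)))))) ⊓
    (∀' ((eqF (n := 2) (var 1) 0).not.imp
      (BoundedFormula.iSup fun i : Fin q =>
        ∃' ∃' (inP (n := 4) (var 3) ⊓ (∃' (inP (n := 5) (var 4) ⊓
          (eqF (n := 5) (var 3 * var 4) 1 ⊓
            eqF (n := 5) (var 1) (powT (var 0) (i : ℕ) * var 3 * powT (var 2) q))))))))))))
def sRoot (ℓ : ℕ) : BF 0 :=
  ∃' (inP (n := 1) (var 0) ⊓ (∀' ((inP (n := 2) (var 1)).imp
    (∃' (inP (n := 3) (var 2) ⊓ eqF (n := 3) ((powT (var 1) ℓ + -(var 0)) * var 2) 1)))))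
def sInv (ℓ : ℕ) : BF 0 := ∃' (inP (n := 1) (var 0) ⊓ eqF (n := 1) (castT ℓ * var 0) 1)

/-- The sentence expressing `DiscSet`. -/
noncomputable def sent (ℓ q : ℕ) : BF 0 :=
  sOne ⊓ (sAdd ⊓ (sNeg ⊓ (sMul ⊓ (sTotal ⊓ (sUnif q ⊓ (sRoot ℓ ⊓ sInv ℓ))))))

section Realize2

variable {K : Type} [Field K] [CompatibleRing K]

theorem realize_sent (Q : Fin 1 → Set K) (ℓ q : ℕ) (v : Empty → K) (xs : Fin 0 → K) :
    (letI := ul Q; (sent ℓ q).Realize v xs) ↔ DiscSet ℓ q (Q 0) := by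
  let _ := ul Q
  show (sent ℓ q).Realize v xs ↔ _
  have hE : ∀ {n : ℕ} (t₁ t₂ : RT n) (v : Empty → K) (xs : Fin n → K),
      (eqF t₁ t₂).Realize v xs ↔
      t₁.realize (Sum.elim v xs) = t₂.realize (Sum.elim v xs) := realize_eqF Q
  have hP : ∀ {n : ℕ} (t : RT n) (v : Empty → K) (xs : Fin n → K),
      (inP t).Realize v xs ↔ t.realize (Sum.elim v xs) ∈ Q 0 := realize_inP Q
  have h1 : (sOne).Realize v xs ↔ (1 : K) ∈ Q 0 := by
    simp [sOne, hP]
  have h2 : (sAdd).Realize v xs ↔ ∀ x ∈ Q 0, ∀ y ∈ Q 0, x + y ∈ Q 0 := by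
    simp only [sAdd, BoundedFormula.realize_all, BoundedFormula.realize_imp, hP, realize_add,
      realize_var']
    exact ⟨fun h x hx y hy => h x y hx hy, fun h x y hx hy => h x hx y hy⟩
  have h3 : (sNeg).Realize v xs ↔ ∀ x ∈ Q 0, -x ∈ Q 0 := by
    simp only [sNeg, BoundedFormula.realize_all, BoundedFormula.realize_imp, hP, realize_neg,
      realize_var']
    exact ⟨fun h x hx => h x hx, fun h x hx => h x hx⟩
  have h4 : (sMul).Realize v xs ↔ ∀ x ∈ Q 0, ∀ y ∈ Q 0, x * y ∈ Q 0 := by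
    simp only [sMul, BoundedFormula.realize_all, BoundedFormula.realize_imp, hP, realize_mul,
      realize_var']
    exact ⟨fun h x hx y hy => h x y hx hy, fun h x y hx hy => h x hx y hy⟩
  have h5 : (sTotal).Realize v xs ↔ ∀ x y : K, x * y = 1 → x ∈ Q 0 ∨ y ∈ Q 0 := by
    simp only [sTotal, BoundedFormula.realize_all, BoundedFormula.realize_imp,
      BoundedFormula.realize_sup, hP, hE, realize_mul, realize_var', realize_one]
    exact ⟨fun h x y => h x y, fun h x y => h x y⟩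
  have h6 : (sUnif q).Realize v xs ↔ ∃ π ∈ Q 0, π ≠ 0 ∧ (∀ y ∈ Q 0, π * y ≠ 1) ∧
    (∀ x ∈ Q 0, (∃ y ∈ Q 0, x * y = 1) ∨ ∃ y ∈ Q 0, x = π * y) ∧
    ∀ x : K, x ≠ 0 → ∃ (i : Fin q) (y : K), ∃ u ∈ Q 0, ∃ w ∈ Q 0,
      u * w = 1 ∧ x = π ^ (i : ℕ) * u * y ^ q := by
    simp only [sUnif, BoundedFormula.realize_all, BoundedFormula.realize_imp,
      BoundedFormula.realize_ex, BoundedFormula.realize_inf, BoundedFormula.realize_not,
      BoundedFormula.realize_iSup, realize_powT,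
      BoundedFormula.realize_sup, hP, hE, realize_mul, realize_var', realize_one, realize_zero]
    exact Iff.rfl
  have h7 : (sRoot ℓ).Realize v xs ↔
      ∃ u ∈ Q 0, ∀ y ∈ Q 0, ∃ z ∈ Q 0, (y ^ ℓ - u) * z = 1 := by
    simp only [sRoot, BoundedFormula.realize_all, BoundedFormula.realize_imp,
      BoundedFormula.realize_ex, BoundedFormula.realize_inf, realize_powT, realize_add,
      hP, hE, realize_mul, realize_var', realize_one, realize_neg, ← sub_eq_add_neg]
    exact Iff.rfl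
  have h8 : (sInv ℓ).Realize v xs ↔ ∃ z ∈ Q 0, (ℓ : K) * z = 1 := by
    simp only [sInv, BoundedFormula.realize_ex, BoundedFormula.realize_inf, realize_castT,
      hP, hE, realize_mul, realize_var', realize_one]
    exact Iff.rfl
  simp only [sent, BoundedFormula.realize_inf, h1, h2, h3, h4, h5, h6, h7, h8]
  exact ⟨fun h => ⟨h.1, h.2.1, h.2.2.1, h.2.2.2.1, h.2.2.2.2.1, h.2.2.2.2.2.1, h.2.2.2.2.2.2.1,
    h.2.2.2.2.2.2.2⟩, fun h => ⟨h.one, h.add, h.neg, h.mul, h.total, h.unif, h.root, h.inv⟩⟩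

end Realize2

end F1

/-- Piece F1: the property `DiscSet` is first order. -/
theorem f1 : F1Stm := by
  intro K _ _ ℓ q P hP K' _ _ Q hS
  have h := (@elementarilyEquivalent_iff _ K K' (@sumStructure _ _ K _ (ul fun _ : Fin 1 => P))
    (@sumStructure _ _ K' _ (ul fun _ : Fin 1 => Q))).1 hS (F1.sent ℓ q)
  have h1 := F1.realize_sent (fun _ : Fin 1 => P) ℓ q default default
  have h2 := F1.realize_sent (fun _ : Fin 1 => Q) ℓ q default default
  exact h2.1 (h.1 (h1.2 hP))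

end Pool.Agent.R492.DV
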