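import Pool.Agent.R492.DV.Stm2
import Pool.Agent.R492.DV.F1

set_option autoImplicit false

/-! Piece E1 of the project DV: the property `ExtSet` is first order. -/

namespace Pool.Agent.R492.DV

open FirstOrder FirstOrder.Language FirstOrder.Ring

namespace E1

open F1

/-- a block of universal quantifiers -/
def allN {n : ℕ} : (m : ℕ) → BF (n + m) → BF n
  | 0, φ => φ
  | (m + 1), φ => allN m (BoundedFormula.all φ)

/-- a block of existential quantifiers -/
def exN {n : ℕ} : (m : ℕ) → BF (n + m) → BF n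
  | 0, φ => φ
  | (m + 1), φ => exN m (BoundedFormula.ex φ)

theorem append_zero {K : Type} {n : ℕ} (xs : Fin n → K) (ys : Fin 0 → K) :
    (Fin.append xs ys : Fin (n + 0) → K) = xs := by
  funext i
  exact Fin.append_left xs ys i

theorem realize_allN {K : Type} [LL.Structure K] (v : Empty → K) (m : ℕ) :
    ∀ {n : ℕ} (φ : BF (n + m)) (xs : Fin n → K), (allN m φ).Realize v xs ↔
      ∀ ys : Fin m → K, φ.Realize v (Fin.append xs ys) := by
  induction m with
  | zero =>
    intro n φ xs
    constructor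
    · intro h ys
      rw [append_zero]
      exact h
    · intro h
      have h1 := h Fin.elim0
      rw [append_zero] at h1
      exact h1
  | succ m ih =>
    intro n φ xs
    have h1 := ih (BoundedFormula.all φ) xs
    refine h1.trans ?_
    constructor
    · intro h ys
      have h2 := h (Fin.init ys)
      rw [BoundedFormula.realize_all] at h2
      have h3 := h2 (ys (Fin.last m))
      rw [← Fin.append_snoc, Fin.snoc_init_self] at h3
      exact h3
    · intro h ys
      rw [BoundedFormula.realize_all]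
      intro x
      have h2 := h (Fin.snoc ys x)
      rw [Fin.append_snoc] at h2
      exact h2

theorem realize_exN {K : Type} [LL.Structure K] (v : Empty → K) (m : ℕ) :
    ∀ {n : ℕ} (φ : BF (n + m)) (xs : Fin n → K), (exN m φ).Realize v xs ↔
      ∃ ys : Fin m → K, φ.Realize v (Fin.append xs ys) := by
  induction m with
  | zero =>
    intro n φ xs
    constructor
    · intro h
      refine ⟨Fin.elim0, ?_⟩
      rw [append_zero]
      exact h
    · rintro ⟨ys, h⟩
      rw [append_zero] at h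
      exact h
  | succ m ih =>
    intro n φ xs
    have h1 := ih (BoundedFormula.ex φ) xs
    refine h1.trans ?_
    constructor
    · rintro ⟨ys, h⟩
      rw [BoundedFormula.realize_ex] at h
      obtain ⟨x, h2⟩ := h
      refine ⟨Fin.snoc ys x, ?_⟩
      rw [Fin.append_snoc]
      exact h2
    · rintro ⟨ys, h⟩
      refine ⟨Fin.init ys, ?_⟩
      rw [BoundedFormula.realize_ex]
      refine ⟨ys (Fin.last m), ?_⟩
      rw [← Fin.append_snoc, Fin.snoc_init_self]
      exact h

/-- all the terms are in the set -/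
noncomputable def allP {n m : ℕ} (t : Fin m → RT n) : BF n :=
  BoundedFormula.iInf fun i : Fin m => inP (t i)

/-- one of the terms is a unit -/
noncomputable def unitOf {n d : ℕ} (t : Fin d → RT (n + 1)) : BF n :=
  BoundedFormula.iSup fun k : Fin d =>
    ∃' (inP (n := n + 1) (F1.var (Fin.last n)) ⊓ eqF (n := n + 1) (t k * F1.var (Fin.last n)) 1)

/-- coefficients of the monic polynomial -/
def mcT {n d : ℕ} (a : Fin d → RT n) (k : ℕ) : RT n :=
  if h : k < d then a ⟨k, h⟩ else if k = d then 1 else 0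

/-- finite sums -/
def sumT {n : ℕ} (f : ℕ → RT n) : ℕ → RT n
  | 0 => 0
  | (m + 1) => sumT f m + f m

/-- conditional formula -/
noncomputable def condF {n : ℕ} (p : Prop) [Decidable p] (φ : BF n) : BF n := if p then φ else ⊤

section

variable {K : Type} [Field K] [CompatibleRing K]

theorem realize_mcT {n d : ℕ} (a : Fin d → RT n) (k : ℕ) (w : Empty ⊕ Fin n → K) :
    (mcT a k).realize w = mc (fun i => (a i).realize w) k := by
  unfold mcT mc
  split_ifs <;> simp

theorem realize_sumT {n : ℕ} (f : ℕ → RT n) (m : ℕ) (w : Empty ⊕ Fin n → K) :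
    (sumT f m).realize w = ∑ j ∈ Finset.range m, (f j).realize w := by
  induction m with
  | zero => simp [sumT]
  | succ m ih => rw [Finset.sum_range_succ, ← ih]; simp [sumT]

theorem realize_allP (Q : Fin 1 → Set K) {n m : ℕ} (t : Fin m → RT n) (v : Empty → K)
    (xs : Fin n → K) : (letI := ul Q; (allP t).Realize v xs) ↔
      ∀ i, (t i).realize (Sum.elim v xs) ∈ Q 0 := by
  let _ := ul Q
  show (allP t).Realize v xs ↔ _
  unfold allP
  rw [BoundedFormula.realize_iInf]
  exact forall_congr' fun i => realize_inP Q _ _ _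

theorem realize_unitOf (Q : Fin 1 → Set K) {n d : ℕ} (t : Fin d → RT (n + 1)) (v : Empty → K)
    (xs : Fin n → K) : (letI := ul Q; (unitOf t).Realize v xs) ↔
      ∃ (k : Fin d) (z : K), z ∈ Q 0 ∧ (t k).realize (Sum.elim v (Fin.snoc xs z)) * z = 1 := by
  let _ := ul Q
  show (unitOf t).Realize v xs ↔ _
  unfold unitOf
  rw [BoundedFormula.realize_iSup]
  apply exists_congr
  intro k
  rw [BoundedFormula.realize_ex]
  apply exists_congr
  intro z
  rw [BoundedFormula.realize_inf]
  have h1 := realize_inP Q (n := n + 1) (F1.var (Fin.last n)) v (Fin.snoc xs z)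
  have h2 := realize_eqF Q (n := n + 1) (t k * F1.var (Fin.last n)) 1 v (Fin.snoc xs z)
  refine (and_congr h1 h2).trans ?_
  rw [realize_mul, realize_var', realize_one, Fin.snoc_last]

end

/-- The last clause of `ExtSet`. -/
noncomputable def sExt (d : ℕ) : BF 0 :=
  exN d (allP (fun i : Fin d => F1.var (Fin.natAdd 0 i)) ⊓
    (unitOf (fun k : Fin d => castT ((k : ℕ) + 1) *
        mcT (fun i : Fin d => F1.var (Fin.castSucc (Fin.natAdd 0 i))) ((k : ℕ) + 1)) ⊓
      BoundedFormula.iInf fun e : Fin d => condF (0 < (e : ℕ))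
        (allN (e : ℕ) (allN (d - (e : ℕ))
          ((allP (fun i : Fin (e : ℕ) =>
              F1.var (Fin.castAdd (d - (e : ℕ)) (Fin.natAdd (0 + d) i)))).imp
            ((allP (fun i : Fin (d - (e : ℕ)) => F1.var (Fin.natAdd (0 + d + (e : ℕ)) i))).imp
              (unitOf (fun k : Fin d =>
                mcT (fun i : Fin d => F1.var (Fin.castSucc (Fin.castAdd (d - (e : ℕ))
                  (Fin.castAdd (e : ℕ) (Fin.natAdd 0 i))))) (k : ℕ) +
                -(sumT (fun j =>
                  mcT (fun i : Fin (e : ℕ) => F1.var (Fin.castSucc (Fin.castAdd (d - (e : ℕ))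
                    (Fin.natAdd (0 + d) i)))) j *
                  mcT (fun i : Fin (d - (e : ℕ)) => F1.var (Fin.castSucc
                    (Fin.natAdd (0 + d + (e : ℕ)) i))) ((k : ℕ) - j)) ((k : ℕ) + 1))))))))))

section

variable {K : Type} [Field K] [CompatibleRing K]

omit [Field K] [CompatibleRing K] in
theorem realize_condF [LL.Structure K] {n : ℕ} (p : Prop) [Decidable p] (φ : BF n) (v : Empty → K)
    (xs : Fin n → K) : (condF p φ).Realize v xs ↔ (p → φ.Realize v xs) := by
  unfold condF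
  split_ifs with h
  · exact ⟨fun h1 _ => h1, fun h1 => h1 h⟩
  · exact ⟨fun _ h1 => (h h1).elim, fun _ => BoundedFormula.realize_top.2 trivial⟩

theorem realize_sExt (Q : Fin 1 → Set K) (d : ℕ) (v : Empty → K) (xs : Fin 0 → K) :
    (letI := ul Q; (sExt d).Realize v xs) ↔
      ∃ a : Fin d → K, (∀ i, a i ∈ Q 0) ∧
        (∃ (k : Fin d) (z : K), z ∈ Q 0 ∧ (((k : ℕ) + 1 : ℕ) : K) * mc a ((k : ℕ) + 1) * z = 1) ∧
        ∀ e : Fin d, 0 < (e : ℕ) → ∀ (b : Fin (e : ℕ) → K) (c : Fin (d - (e : ℕ)) → K),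
          (∀ i, b i ∈ Q 0) → (∀ i, c i ∈ Q 0) →
          ∃ (k : Fin d) (z : K), z ∈ Q 0 ∧
            (mc a (k : ℕ) - ∑ j ∈ Finset.range ((k : ℕ) + 1), mc b j * mc c ((k : ℕ) - j)) * z
              = 1 := by
  let _ := ul Q
  show (sExt d).Realize v xs ↔ _
  have hA : ∀ {n m : ℕ} (t : Fin m → RT n) (v : Empty → K) (xs : Fin n → K),
      (allP t).Realize v xs ↔ ∀ i, (t i).realize (Sum.elim v xs) ∈ Q 0 := realize_allP Q
  have hU : ∀ {n d : ℕ} (t : Fin d → RT (n + 1)) (v : Empty → K) (xs : Fin n → K),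
      (unitOf t).Realize v xs ↔ ∃ (k : Fin d) (z : K), z ∈ Q 0 ∧
        (t k).realize (Sum.elim v (Fin.snoc xs z)) * z = 1 := realize_unitOf Q
  unfold sExt
  rw [realize_exN]
  apply exists_congr
  intro a
  rw [BoundedFormula.realize_inf, BoundedFormula.realize_inf, hA, hU,
    BoundedFormula.realize_iInf]
  simp only [realize_condF, realize_allN, BoundedFormula.realize_imp, hA, hU, realize_mul,
    realize_castT, realize_mcT, realize_add, realize_neg, realize_sumT, realize_var',
    Fin.append_right, Fin.append_left, Fin.snoc_castSucc, ← sub_eq_add_neg]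

/-- The sentence expressing `ExtSet`. -/
noncomputable def sent (d q : ℕ) : BF 0 :=
  sOne ⊓ (sAdd ⊓ (sNeg ⊓ (sMul ⊓ (sTotal ⊓ (sUnif q ⊓ sExt d)))))

theorem realize_sent (Q : Fin 1 → Set K) (d q : ℕ) (v : Empty → K) (xs : Fin 0 → K) :
    (letI := ul Q; (sent d q).Realize v xs) ↔ ExtSet d q (Q 0) := by
  let _ := ul Q
  show (sent d q).Realize v xs ↔ _
  have hE : ∀ {n : ℕ} (t₁ t₂ : RT n) (v : Empty → K) (xs : Fin n → K),
      (eqF t₁ t₂).Realize v xs ↔
      t₁.realize (Sum.elim v xs) = t₂.realize (Sum.elim v xs) := realize_eqF Q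
  have hP : ∀ {n : ℕ} (t : RT n) (v : Empty → K) (xs : Fin n → K),
      (inP t).Realize v xs ↔ t.realize (Sum.elim v xs) ∈ Q 0 := realize_inP Q
  have h1 : (sOne).Realize v xs ↔ (1 : K) ∈ Q 0 := by
    simp [sOne, hP]
  have h2 : (sAdd).Realize v xs ↔ ∀ x ∈ Q 0, ∀ y ∈ Q 0, x + y ∈ Q 0 := by
    simp only [sAdd, BoundedFormula.realize_all, BoundedFormula.realize_imp, hP, realize_add,
      realize_var']
    exact ⟨fun h x hx y hy => h x y hx hy, fun h x y hx hy => h x hx y hy⟩
  have h3 : (sNeg).Realize v xs ↔ ∀ x ∈ Q 0, -x ∈ Q 0 := by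
    simp only [sNeg, BoundedFormula.realize_all, BoundedFormula.realize_imp, hP, realize_neg,
      realize_var']
    exact ⟨fun h x hx => h x hx, fun h x hx => h x hx⟩
  have h4 : (sMul).Realize v xs ↔ ∀ x ∈ Q 0, ∀ y ∈ Q 0, x * y ∈ Q 0 := by
    simp only [sMul, BoundedFormula.realize_all, BoundedFormula.realize_imp, hP, realize_mul,
      realize_var']
    exact ⟨fun h x hx y hy => h x y hx hy, fun h x y hx hy => h x hx y hy⟩
  have h5 : (sTotal).Realize v xs ↔ ∀ x y : K, x * y = 1 → x ∈ Q 0 ∨ y ∈ Q 0 := by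
    simp only [sTotal, BoundedFormula.realize_all, BoundedFormula.realize_imp,
      BoundedFormula.realize_sup, hP, hE, realize_mul, realize_var', realize_one]
    exact ⟨fun h x y => h x y, fun h x y => h x y⟩
  have h6 : (sUnif q).Realize v xs ↔ ∃ π ∈ Q 0, π ≠ 0 ∧ (∀ y ∈ Q 0, π * y ≠ 1) ∧
    (∀ x ∈ Q 0, (∃ y ∈ Q 0, x * y = 1) ∨ ∃ y ∈ Q 0, x = π * y) ∧
    ∀ x : K, x ≠ 0 → ∃ (i : Fin q) (y : K), ∃ u ∈ Q 0, ∃ w ∈ Q 0,
      u * w = 1 ∧ x = π ^ (i : ℕ) * u * y ^ q := by
    simp only [sUnif, BoundedFormula.realize_all, BoundedFormula.realize_imp,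
      BoundedFormula.realize_ex, BoundedFormula.realize_inf, BoundedFormula.realize_not,
      BoundedFormula.realize_iSup, realize_powT,
      BoundedFormula.realize_sup, hP, hE, realize_mul, realize_var', realize_one, realize_zero]
    exact Iff.rfl
  have h7 := realize_sExt Q d v xs
  simp only [sent, BoundedFormula.realize_inf, h1, h2, h3, h4, h5, h6]
  constructor
  · intro h
    exact ⟨h.1, h.2.1, h.2.2.1, h.2.2.2.1, h.2.2.2.2.1, h.2.2.2.2.2.1, h7.1 h.2.2.2.2.2.2⟩
  · intro h
    exact ⟨h.one, h.add, h.neg, h.mul, h.total, h.unif, h7.2 h.ext⟩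

end

end E1

/-- Piece E1: the property `ExtSet` is first order. -/
theorem e1 : E1Stm := by
  intro K _ _ d q P hP K' _ _ Q hS
  have h := (@elementarilyEquivalent_iff _ K K' (@sumStructure _ _ K _ (ul fun _ : Fin 1 => P))
    (@sumStructure _ _ K' _ (ul fun _ : Fin 1 => Q))).1 hS (E1.sent d q)
  have h1 := E1.realize_sent (fun _ : Fin 1 => P) d q default default
  have h2 := E1.realize_sent (fun _ : Fin 1 => Q) d q default default
  exact h2.1 (h.1 (h1.2 hP))

end Pool.Agent.R492.DV
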