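import Pool.Agent.R492.DV.Stm

set_option autoImplicit false

/-! Upgrade of the project DV: arbitrary separable extensions of the residue field. -/

namespace Pool.Agent.R492.DV

open FirstOrder FirstOrder.Language NNReal

/-- The coefficient of `X ^ k` in the monic polynomial of degree `d` with the lower coefficients
`a`. -/
def mc {K : Type} [Field K] {d : ℕ} (a : Fin d → K) (k : ℕ) : K :=
  if h : k < d then a ⟨k, h⟩ else if k = d then 1 else 0

/-- `Q` is a valuation ring of the field `K` with principal maximal ideal `(π)`, `K^*` is generated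
by `π`, the units of `Q` and the `q`-th powers, and the residue field has a separable extension of
degree `d`, generated by a root of the reduction of the monic polynomial with coefficients `a`: it
has no factorization (some coefficient of `f - g h` is a unit), and its derivative is not zero. -/
structure ExtSet {K : Type} [Field K] (d q : ℕ) (Q : Set K) : Prop where
  one : (1 : K) ∈ Q
  add : ∀ x ∈ Q, ∀ y ∈ Q, x + y ∈ Q
  neg : ∀ x ∈ Q, -x ∈ Q
  mul : ∀ x ∈ Q, ∀ y ∈ Q, x * y ∈ Q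
  total : ∀ x y : K, x * y = 1 → x ∈ Q ∨ y ∈ Q
  unif : ∃ π ∈ Q, π ≠ 0 ∧ (∀ y ∈ Q, π * y ≠ 1) ∧
    (∀ x ∈ Q, (∃ y ∈ Q, x * y = 1) ∨ ∃ y ∈ Q, x = π * y) ∧
    ∀ x : K, x ≠ 0 → ∃ (i : Fin q) (y : K), ∃ u ∈ Q, ∃ w ∈ Q,
      u * w = 1 ∧ x = π ^ (i : ℕ) * u * y ^ q
  ext : ∃ a : Fin d → K, (∀ i, a i ∈ Q) ∧
    (∃ (k : Fin d) (z : K), z ∈ Q ∧ (((k : ℕ) + 1 : ℕ) : K) * mc a ((k : ℕ) + 1) * z = 1) ∧
    ∀ e : Fin d, 0 < (e : ℕ) → ∀ (b : Fin (e : ℕ) → K) (c : Fin (d - (e : ℕ)) → K),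
      (∀ i, b i ∈ Q) → (∀ i, c i ∈ Q) →
      ∃ (k : Fin d) (z : K), z ∈ Q ∧
        (mc a (k : ℕ) - ∑ j ∈ Finset.range ((k : ℕ) + 1), mc b j * mc c ((k : ℕ) - j)) * z = 1

/-- Piece E1: the property `ExtSet` is first order. -/
def E1Stm : Prop :=
  ∀ (K : Type) [Field K] [FirstOrder.Ring.CompatibleRing K] (d q : ℕ) (P : Set K),
    ExtSet d q P →
    ∀ (K' : Type) [Field K'] [FirstOrder.Ring.CompatibleRing K'] (Q : Set K'),
      Same FirstOrder.Language.ring (fun _ : Fin 1 => P) (fun _ : Fin 1 => Q) → ExtSet d q Q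

/-- Piece E2: the place given by the coarsening with real (discrete) valuation. -/
def E2Stm : Prop :=
  ∀ (K : Type) [Field K] (d q : ℕ), 2 ≤ d → ∀ Q : Set K, ExtSet d q Q →
    ∃ (O : ValuationSubring K) (κ : Type) (_ : Field κ) (π : O →+* κ) (v : Valuation κ ℝ≥0),
      Function.Surjective π ∧
      (∀ x : K, (∃ h : x ∈ O, v (π ⟨x, h⟩) < 1) ↔ x ∈ Q ∧ ∀ y ∈ Q, x * y ≠ 1) ∧
      (∃ a : κ, ∀ c : κ, v a ≠ v c ^ d) ∧
      ∃ (L : Type) (_ : Field L) (_ : Algebra (IsLocalRing.ResidueField v.valuationSubring) L),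
        Algebra.IsSeparable (IsLocalRing.ResidueField v.valuationSubring) L ∧
        Module.finrank (IsLocalRing.ResidueField v.valuationSubring) L = d

end Pool.Agent.R492.DV
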