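import Pool.Agent.R492.DV.F2
import Pool.Agent.R492.DV.Stm2

set_option autoImplicit false

namespace Pool.Agent.R492.DV

open NNReal Polynomial

/-- The extension generated by a root of an irreducible separable polynomial. -/
theorem exists_ext_poly (k : Type) [Field k] (f : k[X]) (hirr : Irreducible f) (hmon : f.Monic)
    (hsep : f.Separable) : ∃ (L : Type) (_ : Field L) (_ : Algebra k L),
      Algebra.IsSeparable k L ∧ Module.finrank k L = f.natDegree := by
  obtain ⟨α, hα⟩ := IsAlgClosed.exists_aeval_eq_zero (AlgebraicClosure k) f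
    (degree_pos_of_irreducible hirr).ne'
  have hmin : f = minpoly k α := minpoly.eq_of_irreducible_of_monic hirr hα hmon
  have hint : IsIntegral k α := ⟨_, hmon, by rw [← aeval_def]; exact hα⟩
  refine ⟨IntermediateField.adjoin k {α}, inferInstance, inferInstance, ?_, ?_⟩
  · rw [IntermediateField.isSeparable_adjoin_simple_iff_isSeparable]
    rw [IsSeparable, ← hmin]
    exact hsep
  · rw [IntermediateField.adjoin.finrank hint, ← hmin]

section

variable {K : Type} [Field K] {Q : Set K} {p : K}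

/-- A map from `Q` to a field which behaves like a ring homomorphism. -/
structure RH {k : Type} [Field k] (Q : Set K) (R : K → k) : Prop where
  add : ∀ x ∈ Q, ∀ y ∈ Q, R (x + y) = R x + R y
  mul : ∀ x ∈ Q, ∀ y ∈ Q, R (x * y) = R x * R y
  one : R 1 = 1
  zero : R 0 = 0
  surj : ∀ c : k, ∃ x ∈ Q, R x = c

variable {k : Type} [Field k] {R : K → k}

theorem RH.neg (h : UD Q p) (hR : RH Q R) {x : K} (hx : x ∈ Q) : R (-x) = -R x := by
  have := hR.add x hx (-x) (h.neg x hx)
  rw [add_neg_cancel, hR.zero] at this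
  linear_combination -this

theorem RH.natCast (h : UD Q p) (hR : RH Q R) (n : ℕ) : (n : K) ∈ Q ∧ R n = n := by
  induction n with
  | zero => exact ⟨by simpa using h.zero, by simpa using hR.zero⟩
  | succ n ih =>
    refine ⟨?_, ?_⟩
    · rw [Nat.cast_succ]; exact h.add _ ih.1 _ h.one
    · rw [Nat.cast_succ, hR.add _ ih.1 _ h.one, ih.2, hR.one, Nat.cast_succ]

theorem RH.sum (h : UD Q p) (hR : RH Q R) {ι : Type} (s : Finset ι) (F : ι → K)
    (hF : ∀ i ∈ s, F i ∈ Q) : ∑ i ∈ s, F i ∈ Q ∧ R (∑ i ∈ s, F i) = ∑ i ∈ s, R (F i) := by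
  classical
  induction s using Finset.induction_on with
  | empty => exact ⟨by simpa using h.zero, by simpa using hR.zero⟩
  | insert a s ha ih =>
    have ih' := ih fun i hi => hF i (Finset.mem_insert_of_mem hi)
    have h1 := hF a (Finset.mem_insert_self a s)
    rw [Finset.sum_insert ha, Finset.sum_insert ha]
    exact ⟨h.add _ h1 _ ih'.1, by rw [hR.add _ h1 _ ih'.1, ih'.2]⟩

theorem mc_mem (h : UD Q p) {d : ℕ} {a : Fin d → K} (ha : ∀ i, a i ∈ Q) (j : ℕ) : mc a j ∈ Q := by
  unfold mc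
  split_ifs
  · exact ha _
  · exact h.one
  · exact h.zero

theorem R_mc (hR : RH Q R) {d : ℕ} {a : Fin d → K} {g : k[X]} (hg : g.Monic)
    (hd : g.natDegree = d) (hag : ∀ i : Fin d, R (a i) = g.coeff i) (j : ℕ) :
    R (mc a j) = g.coeff j := by
  unfold mc
  split_ifs with h1 h2
  · exact hag _
  · rw [hR.one, h2, ← hd]
    exact hg.coeff_natDegree.symm
  · rw [hR.zero, coeff_eq_zero_of_natDegree_lt (by omega)]

/-- The algebraic part. -/
theorem ext_of_RH (h : UD Q p) (hR : RH Q R) {d : ℕ} (hd : 2 ≤ d) {a : Fin d → K}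
    (ha : ∀ i, a i ∈ Q)
    (hder : ∃ (k : Fin d) (z : K), z ∈ Q ∧ (((k : ℕ) + 1 : ℕ) : K) * mc a ((k : ℕ) + 1) * z = 1)
    (hfac : ∀ e : Fin d, 0 < (e : ℕ) → ∀ (b : Fin (e : ℕ) → K) (c : Fin (d - (e : ℕ)) → K),
      (∀ i, b i ∈ Q) → (∀ i, c i ∈ Q) →
      ∃ (k : Fin d) (z : K), z ∈ Q ∧
        (mc a (k : ℕ) - ∑ j ∈ Finset.range ((k : ℕ) + 1), mc b j * mc c ((k : ℕ) - j)) * z = 1) :
    ∃ (L : Type) (_ : Field L) (_ : Algebra k L),
      Algebra.IsSeparable k L ∧ Module.finrank k L = d := by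
  classical
  set f : k[X] := X ^ d + ∑ i : Fin d, C (R (a i)) * X ^ (i : ℕ) with hf
  have hlow : (∑ i : Fin d, C (R (a i)) * X ^ (i : ℕ)).degree < ((d : ℕ) : WithBot ℕ) := by
    apply lt_of_le_of_lt (degree_sum_le _ _)
    rw [Finset.sup_lt_iff (by exact_mod_cast WithBot.bot_lt_coe d)]
    intro i _
    refine lt_of_le_of_lt (degree_C_mul_X_pow_le _ _) ?_
    exact_mod_cast i.2
  have hmon : f.Monic := monic_X_pow_add hlow
  have hdeg : f.natDegree = d := by
    apply natDegree_eq_of_degree_eq_some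
    rw [hf, degree_add_eq_left_of_degree_lt (by rwa [degree_X_pow]), degree_X_pow]
  have hcoef : ∀ i : Fin d, R (a i) = f.coeff i := by
    intro i
    rw [hf, coeff_add, coeff_X_pow, if_neg (by omega), zero_add, finsetSum_coeff]
    simp only [coeff_C_mul, coeff_X_pow]
    rw [Finset.sum_eq_single i]
    · simp
    · intro b _ hb
      have : (i : ℕ) ≠ (b : ℕ) := fun hh => hb (Fin.ext hh.symm)
      simp [this]
    · simp
  have hmc := R_mc hR hmon hdeg hcoef
  have hunit : ∀ x ∈ Q, ∀ z ∈ Q, x * z = 1 → R x ≠ 0 := by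
    intro x hx z hz hxz h0
    have := hR.mul x hx z hz
    rw [hxz, hR.one, h0, zero_mul] at this
    exact one_ne_zero this
  have hirr : Irreducible f := by
    rw [hmon.irreducible_iff_natDegree]
    refine ⟨fun h1 => ?_, ?_⟩
    · rw [h1, natDegree_one] at hdeg
      omega
    · intro g g' hg hg' hgg
      by_contra hcon
      push Not at hcon
      have h1 : g.natDegree + g'.natDegree = d := by
        rw [← hdeg, ← hgg, hg.natDegree_mul hg']
      have he : g.natDegree < d := by omega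
      have h2 : g'.natDegree = d - g.natDegree := by omega
      choose b hb hbg using fun i : Fin g.natDegree => hR.surj (g.coeff i)
      choose c hc hcg using fun i : Fin (d - g.natDegree) => hR.surj (g'.coeff i)
      obtain ⟨j, z, hz, hjz⟩ := hfac ⟨g.natDegree, he⟩ (Nat.pos_of_ne_zero hcon.1) b c hb hc
      have hmb := R_mc hR hg rfl hbg
      have hmc' := R_mc hR hg' h2 hcg
      have hS := RH.sum h hR (Finset.range ((j : ℕ) + 1))
        (fun i => mc b i * mc c ((j : ℕ) - i))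
        (fun i _ => h.mul _ (mc_mem h hb _) _ (mc_mem h hc _))
      apply hunit _ (h.add _ (mc_mem h ha (j : ℕ)) _ (h.neg _ hS.1)) z hz
        (by rw [← sub_eq_add_neg]; exact hjz)
      rw [hR.add _ (mc_mem h ha (j : ℕ)) _ (h.neg _ hS.1), RH.neg h hR hS.1, hS.2, hmc, ← hgg,
        coeff_mul, Finset.Nat.sum_antidiagonal_eq_sum_range_succ_mk, ← sub_eq_add_neg, sub_eq_zero]
      refine Finset.sum_congr rfl fun i _ => ?_
      rw [hR.mul _ (mc_mem h hb _) _ (mc_mem h hc _), hmb, hmc']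
  have hsep : f.Separable := by
    rw [separable_iff_derivative_ne_zero hirr]
    intro h0
    obtain ⟨j, z, hz, hjz⟩ := hder
    have hn := RH.natCast h hR ((j : ℕ) + 1)
    apply hunit _ (h.mul _ hn.1 _ (mc_mem h ha ((j : ℕ) + 1))) z hz hjz
    rw [hR.mul _ hn.1 _ (mc_mem h ha _), hn.2, hmc]
    have := congrArg (fun g => coeff g (j : ℕ)) h0
    simp only [coeff_derivative, coeff_zero] at this
    push_cast
    rw [mul_comm]
    exact this
  obtain ⟨L, i1, i2, h1, h2⟩ := exists_ext_poly k f hirr hmon hsep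
  exact ⟨L, i1, i2, h1, h2.trans hdeg⟩

end

theorem e2 : E2Stm := by
  classical
  intro K _ d q hd Q hQ
  obtain ⟨p, hpQ, hp0, hpn, hpd, -⟩ := hQ.unif
  have h : UD Q p := ⟨hQ.one, hQ.add, hQ.neg, hQ.mul, hQ.total, hpQ, hp0, hpn, hpd⟩
  have hsurj := IsLocalRing.residue_surjective (R := cO h)
  have hlt : ∀ x : K, x ∈ cO h → (val Q p x < 1 ↔ x ∈ Q ∧ ∀ y ∈ Q, x * y ≠ 1) := by
    intro x hx
    constructor
    · intro h1
      have h2 : val Q p x ≤ (1 / 2 : ℝ≥0) ^ (1 : ℤ) := by
        rcases val_cases h x with h0 | ⟨n, hn⟩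
        · rw [h0]
          exact zero_le
        · rw [hn] at h1 ⊢
          rw [half_le_iff]
          by_contra hcon
          have : (1 / 2 : ℝ≥0) ^ (0 : ℤ) ≤ (1 / 2 : ℝ≥0) ^ n := half_le_iff.2 (by omega)
          rw [zpow_zero] at this
          exact absurd h1 (not_lt.2 this)
      rw [val_le_iff h hx] at h2
      have h3 : x = p * (p ^ (-(1 : ℤ)) * x) := by
        rw [← mul_assoc, zpow_neg_one, mul_inv_cancel₀ hp0, one_mul]
      refine ⟨by rw [h3]; exact h.mul _ hpQ _ h2, fun y hy hxy => ?_⟩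
      apply hpn (p ^ (-(1 : ℤ)) * x * y) (h.mul _ h2 _ hy)
      rw [← mul_assoc, ← h3, hxy]
    · rintro ⟨h1, h2⟩
      rcases hpd x h1 with ⟨y, hy, hxy⟩ | ⟨y, hy, rfl⟩
      · exact absurd hxy (h2 y hy)
      · have h3 : val Q p (p * y) ≤ (1 / 2 : ℝ≥0) ^ (1 : ℤ) := by
          rw [val_le_iff h hx, ← mul_assoc, zpow_neg_one, inv_mul_cancel₀ hp0, one_mul]
          exact hy
        refine lt_of_le_of_lt h3 ?_
        rw [zpow_one]
        exact NNReal.half_lt_self one_ne_zero
  have hle : ∀ x : K, x ∈ cO h → val Q p x ≤ 1 → x ∈ Q := by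
    intro x hx h1
    have := (val_le_iff h hx 0).1 (by simpa using h1)
    simpa using this
  have hge : ∀ x : K, x ∈ Q → val Q p x ≤ 1 := by
    intro x hx
    have := (val_le_iff h (cO_of_mem h hx) 0).2 (by simpa using hx)
    simpa using this
  refine ⟨cO h, IsLocalRing.ResidueField (cO h), inferInstance, IsLocalRing.residue (cO h), vk h,
    hsurj, ?_, ?_, ?_⟩
  · intro x
    constructor
    · rintro ⟨hx, h1⟩
      rw [vk_residue] at h1
      exact (hlt x hx).1 h1
    · intro h1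
      have hx := cO_of_mem h h1.1
      refine ⟨hx, ?_⟩
      rw [vk_residue]
      exact (hlt x hx).2 h1
  · refine ⟨IsLocalRing.residue (cO h) ⟨p, cO_of_mem h hpQ⟩, fun c hc => ?_⟩
    obtain ⟨x, rfl⟩ := hsurj c
    rw [vk_residue, vk_residue] at hc
    have hp1 : val Q p p = (1 / 2 : ℝ≥0) ^ (1 : ℤ) :=
      val_of_lv h ⟨1, h.one, 1, h.one, by simp, by simp⟩
    rcases val_cases h (x : K) with h0 | ⟨n, hn⟩
    · rw [h0, zero_pow (by omega)] at hc
      rw [show ((⟨p, cO_of_mem h hpQ⟩ : cO h) : K) = p from rfl, hp1, zpow_one] at hc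
      norm_num at hc
    · rw [hn, show ((⟨p, cO_of_mem h hpQ⟩ : cO h) : K) = p from rfl, hp1, ← zpow_natCast,
        ← zpow_mul] at hc
      have h1 : (1 : ℤ) = n * d := le_antisymm (half_le_iff.1 (le_of_eq hc.symm))
        (half_le_iff.1 (le_of_eq hc))
      have h2 : (d : ℤ) ∣ 1 := ⟨n, by rw [mul_comm]; exact h1⟩
      have h3 : d ∣ 1 := by exact_mod_cast h2
      have := Nat.dvd_one.1 h3
      omega
  · obtain ⟨a, ha, hder, hfac⟩ := hQ.ext
    set V := (vk h).valuationSubring with hV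
    have hmemV : ∀ x : cO h, IsLocalRing.residue (cO h) x ∈ V ↔ val Q p x ≤ 1 := by
      intro x
      rw [hV, Valuation.mem_valuationSubring_iff, vk_residue]
    have hmemQ : ∀ (x : K) (hx : x ∈ Q),
        IsLocalRing.residue (cO h) ⟨x, cO_of_mem h hx⟩ ∈ V := fun x hx =>
      (hmemV _).2 (hge x hx)
    set R : K → IsLocalRing.ResidueField V := fun x =>
      if hx : x ∈ Q then IsLocalRing.residue V ⟨IsLocalRing.residue (cO h) ⟨x, cO_of_mem h hx⟩,
        hmemQ x hx⟩ else 0 with hRdef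
    have hRx : ∀ (x : K) (hx : x ∈ Q), R x =
        IsLocalRing.residue V ⟨IsLocalRing.residue (cO h) ⟨x, cO_of_mem h hx⟩, hmemQ x hx⟩ := by
      intro x hx
      simp only [hRdef]
      rw [dif_pos hx]
    have hR : RH Q R := by
      refine ⟨?_, ?_, ?_, ?_, ?_⟩
      · intro x hx y hy
        rw [hRx x hx, hRx y hy, hRx _ (h.add x hx y hy), ← map_add]
        congr 1
      · intro x hx y hy
        rw [hRx x hx, hRx y hy, hRx _ (h.mul x hx y hy), ← map_mul]
        congr 1
      · rw [hRx 1 h.one, ← map_one (IsLocalRing.residue V)]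
        congr 1
      · rw [hRx 0 h.zero, ← map_zero (IsLocalRing.residue V)]
        congr 1
      · intro c
        obtain ⟨c, rfl⟩ := IsLocalRing.residue_surjective c
        obtain ⟨c, hc⟩ := c
        obtain ⟨x, rfl⟩ := hsurj c
        have hxQ : (x : K) ∈ Q := hle x x.2 ((hmemV x).1 hc)
        exact ⟨x, hxQ, hRx _ hxQ⟩
    exact ext_of_RH h hR hd ha hder hfac

end Pool.Agent.R492.DV
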