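import Pool.Agent.R492.DV.Stm

set_option autoImplicit false

namespace Pool.Agent.R492.DV

open NNReal

section

variable {K : Type} [Field K] {ℓ q : ℕ} {Q : Set K}

/-- The data of a uniformizer of `Q`. -/
structure UD (Q : Set K) (p : K) : Prop where
  one : (1 : K) ∈ Q
  add : ∀ x ∈ Q, ∀ y ∈ Q, x + y ∈ Q
  neg : ∀ x ∈ Q, -x ∈ Q
  mul : ∀ x ∈ Q, ∀ y ∈ Q, x * y ∈ Q
  total : ∀ x y : K, x * y = 1 → x ∈ Q ∨ y ∈ Q
  mem : p ∈ Q
  ne : p ≠ 0
  nonunit : ∀ y ∈ Q, p * y ≠ 1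
  dvd : ∀ x ∈ Q, (∃ y ∈ Q, x * y = 1) ∨ ∃ y ∈ Q, x = p * y

variable {p : K}

theorem UD.zero (h : UD Q p) : (0 : K) ∈ Q := by
  have := h.add 1 h.one (-1) (h.neg 1 h.one)
  simpa using this

theorem UD.pow (h : UD Q p) (n : ℕ) : p ^ n ∈ Q := by
  induction n with
  | zero => simpa using h.one
  | succ n ih => rw [pow_succ]; exact h.mul _ ih _ h.mem

theorem UD.pows (h : UD Q p) {x : K} (hx : x ∈ Q) (n : ℕ) : x ^ n ∈ Q := by
  induction n with
  | zero => simpa using h.one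
  | succ n ih => rw [pow_succ]; exact h.mul _ ih _ hx

/-- `x` has level `n`. -/
def Lv (Q : Set K) (p : K) (n : ℤ) (x : K) : Prop := ∃ u ∈ Q, ∃ w ∈ Q, u * w = 1 ∧ x = p ^ n * u

/-- `p ^ j * u ∈ Q` with `u` a unit forces `0 ≤ j`. -/
theorem UD.nonneg (h : UD Q p) {j : ℤ} {u w : K} (hw : w ∈ Q) (huw : u * w = 1)
    (hj : p ^ j * u ∈ Q) : 0 ≤ j := by
  by_contra hlt
  push Not at hlt
  obtain ⟨k, hk⟩ : ∃ k : ℕ, -j = k + 1 := ⟨(-j - 1).toNat, by omega⟩
  have h1 : p ^ (-j) = p ^ k * p := by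
    rw [hk]
    exact_mod_cast pow_succ p k
  apply h.nonunit (p ^ k * (p ^ j * u * w)) (h.mul _ (h.pow k) _ (h.mul _ hj _ hw))
  calc p * (p ^ k * (p ^ j * u * w)) = (p ^ k * p) * p ^ j * (u * w) := by ring
    _ = p ^ (-j) * p ^ j := by rw [← h1, huw, mul_one]
    _ = 1 := by rw [← zpow_add₀ h.ne]; simp

theorem UD.lv_unique (h : UD Q p) {x : K} {n m : ℤ} (hn : Lv Q p n x) (hm : Lv Q p m x) :
    n = m := by
  obtain ⟨u, hu, w, hw, huw, hx⟩ := hn
  obtain ⟨u', hu', w', hw', huw', hx'⟩ := hm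
  have e1 : p ^ (n - m) * u = u' := by
    have h2 : p ^ m * (p ^ (n - m) * u) = p ^ m * u' := by
      rw [← mul_assoc, ← zpow_add₀ h.ne, ← hx', hx]
      congr 2
      ring
    exact mul_left_cancel₀ (zpow_ne_zero _ h.ne) h2
  have e2 : p ^ (m - n) * u' = u := by
    rw [← e1, ← mul_assoc, ← zpow_add₀ h.ne]
    simp
  have h1 := h.nonneg (j := n - m) hw huw (by rw [e1]; exact hu')
  have h2 := h.nonneg (j := m - n) hw' huw' (by rw [e2]; exact hu)
  omega

theorem UD.lv_of_dvd_pow (h : UD Q p) (N : ℕ) : ∀ y ∈ Q, ∀ z ∈ Q, y * z = p ^ N →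
    ∃ n : ℤ, Lv Q p n y := by
  induction N with
  | zero =>
    intro y hy z hz e
    exact ⟨0, y, hy, z, hz, by simpa using e, by simp⟩
  | succ N ih =>
    intro y hy z hz e
    rcases h.dvd y hy with ⟨w, hw, hyw⟩ | ⟨y', hy', rfl⟩
    · exact ⟨0, y, hy, w, hw, hyw, by simp⟩
    · have e' : y' * z = p ^ N := by
        apply mul_left_cancel₀ h.ne
        rw [← mul_assoc, e, pow_succ, mul_comm]
      obtain ⟨n, u, hu, w, hw, huw, hx⟩ := ih y' hy' z hz e'
      refine ⟨n + 1, u, hu, w, hw, huw, ?_⟩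
      rw [hx, zpow_add₀ h.ne, zpow_one]
      ring

/-- The coarsening. -/
def cO (h : UD Q p) : ValuationSubring K where
  carrier := {x | ∃ n : ℕ, p ^ n * x ∈ Q}
  zero_mem' := ⟨0, by simpa using h.zero⟩
  one_mem' := ⟨0, by simpa using h.one⟩
  add_mem' := by
    rintro x y ⟨n, hn⟩ ⟨m, hm⟩
    refine ⟨n + m, ?_⟩
    have : p ^ (n + m) * (x + y) = p ^ m * (p ^ n * x) + p ^ n * (p ^ m * y) := by ring
    rw [this]
    exact h.add _ (h.mul _ (h.pow m) _ hn) _ (h.mul _ (h.pow n) _ hm)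
  mul_mem' := by
    rintro x y ⟨n, hn⟩ ⟨m, hm⟩
    refine ⟨n + m, ?_⟩
    have : p ^ (n + m) * (x * y) = (p ^ n * x) * (p ^ m * y) := by ring
    rw [this]
    exact h.mul _ hn _ hm
  neg_mem' := by
    rintro x ⟨n, hn⟩
    refine ⟨n, ?_⟩
    have : p ^ n * (-x) = -(p ^ n * x) := by ring
    rw [this]
    exact h.neg _ hn
  mem_or_inv_mem' := by
    intro x
    by_cases hx : x = 0
    · left
      exact ⟨0, by simpa [hx] using h.zero⟩
    · rcases h.total x x⁻¹ (mul_inv_cancel₀ hx) with h1 | h1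
      · left
        exact ⟨0, by simpa using h1⟩
      · right
        exact ⟨0, by simpa using h1⟩

theorem mem_cO (h : UD Q p) {x : K} : x ∈ cO h ↔ ∃ n : ℕ, p ^ n * x ∈ Q := Iff.rfl

theorem cO_of_mem (h : UD Q p) {x : K} (hx : x ∈ Q) : x ∈ cO h := ⟨0, by simpa using hx⟩

theorem cO_zpow (h : UD Q p) (j : ℤ) : p ^ j ∈ cO h := by
  rcases le_or_gt 0 j with hj | hj
  · obtain ⟨k, rfl⟩ := Int.eq_ofNat_of_zero_le hj
    exact cO_of_mem h (by exact_mod_cast h.pow k)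
  · refine ⟨(-j).toNat, ?_⟩
    have : p ^ ((-j).toNat) * p ^ j = 1 := by
      rw [← zpow_natCast, ← zpow_add₀ h.ne]
      have : (((-j).toNat : ℕ) : ℤ) + j = 0 := by omega
      rw [this, zpow_zero]
    rw [this]
    exact h.one

theorem lv_iff (h : UD Q p) {x : K} (hx : x ∈ cO h) : (∃ n, Lv Q p n x) ↔ x ≠ 0 ∧ x⁻¹ ∈ cO h := by
  constructor
  · rintro ⟨n, u, hu, w, hw, huw, rfl⟩
    have hu0 : u ≠ 0 := left_ne_zero_of_mul_eq_one huw
    refine ⟨mul_ne_zero (zpow_ne_zero _ h.ne) hu0, ?_⟩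
    rw [mul_inv, ← zpow_neg, inv_eq_of_mul_eq_one_right huw]
    exact (cO h).mul_mem _ _ (cO_zpow h _) (cO_of_mem h hw)
  · rintro ⟨h0, m, hm⟩
    obtain ⟨n, hn⟩ := hx
    obtain ⟨k, u, hu, w, hw, huw, e⟩ := h.lv_of_dvd_pow (n + m) _ hn _ hm (by
      rw [pow_add]
      field_simp)
    refine ⟨k - n, u, hu, w, hw, huw, ?_⟩
    have : x = p ^ (-(n : ℤ)) * (p ^ n * x) := by
      rw [← mul_assoc, ← zpow_natCast, ← zpow_add₀ h.ne]
      simp
    rw [this, e, ← mul_assoc, ← zpow_add₀ h.ne]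
    congr 2
    ring

open Classical in
/-- The value. -/
noncomputable def val (Q : Set K) (p : K) (x : K) : ℝ≥0 :=
  if h : ∃ n, Lv Q p n x then (1 / 2 : ℝ≥0) ^ h.choose else 0

theorem val_of_lv (h : UD Q p) {x : K} {n : ℤ} (hn : Lv Q p n x) :
    val Q p x = (1 / 2 : ℝ≥0) ^ n := by
  have h1 : ∃ n, Lv Q p n x := ⟨n, hn⟩
  rw [val, dif_pos h1, h.lv_unique h1.choose_spec hn]

theorem val_of_not {x : K} (hn : ¬ ∃ n, Lv Q p n x) : val Q p x = 0 := by
  rw [val, dif_neg hn]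

theorem half_le_iff {n m : ℤ} : (1 / 2 : ℝ≥0) ^ n ≤ (1 / 2 : ℝ≥0) ^ m ↔ m ≤ n := by
  apply zpow_le_zpow_iff_right_of_lt_one₀ (by positivity)
  exact NNReal.half_lt_self one_ne_zero

theorem val_le_iff (h : UD Q p) {x : K} (hx : x ∈ cO h) (n : ℤ) :
    val Q p x ≤ (1 / 2 : ℝ≥0) ^ n ↔ p ^ (-n) * x ∈ Q := by
  by_cases hl : ∃ k, Lv Q p k x
  · obtain ⟨k, hk⟩ := hl
    rw [val_of_lv h hk, half_le_iff]
    obtain ⟨u, hu, w, hw, huw, rfl⟩ := hk
    rw [← mul_assoc, ← zpow_add₀ h.ne]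
    constructor
    · intro hkn
      obtain ⟨j, hj⟩ := Int.eq_ofNat_of_zero_le (show 0 ≤ -n + k by omega)
      rw [hj]
      exact h.mul _ (by exact_mod_cast h.pow j) _ hu
    · intro hm
      have := h.nonneg hw huw hm
      omega
  · rw [val_of_not hl]
    refine ⟨fun _ => ?_, fun _ => zero_le⟩
    rw [lv_iff h hx] at hl
    by_cases hx0 : x = 0
    · rw [hx0, mul_zero]
      exact h.zero
    · have hxi : x⁻¹ ∉ cO h := fun h1 => hl ⟨hx0, h1⟩
      rcases h.total (p ^ (-n) * x) (p ^ n * x⁻¹) (by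
        rw [mul_mul_mul_comm, ← zpow_add₀ h.ne, mul_inv_cancel₀ hx0]
        simp) with h1 | h1
      · exact h1
      · exfalso
        apply hxi
        have : x⁻¹ = p ^ (-n) * (p ^ n * x⁻¹) := by
          rw [← mul_assoc, ← zpow_add₀ h.ne]
          simp
        rw [this]
        exact (cO h).mul_mem _ _ (cO_zpow h _) (cO_of_mem h h1)

theorem val_mul (h : UD Q p) {x y : K} (hx : x ∈ cO h) (hy : y ∈ cO h) :
    val Q p (x * y) = val Q p x * val Q p y := by
  by_cases h1 : ∃ n, Lv Q p n (x * y)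
  · have h1' := (lv_iff h ((cO h).mul_mem _ _ hx hy)).1 h1
    have hx0 : x ≠ 0 := left_ne_zero_of_mul h1'.1
    have hy0 : y ≠ 0 := right_ne_zero_of_mul h1'.1
    have hxl : ∃ n, Lv Q p n x := by
      rw [lv_iff h hx]
      refine ⟨hx0, ?_⟩
      have : x⁻¹ = y * (x * y)⁻¹ := by field_simp
      rw [this]
      exact (cO h).mul_mem _ _ hy h1'.2
    have hyl : ∃ n, Lv Q p n y := by
      rw [lv_iff h hy]
      refine ⟨hy0, ?_⟩
      have : y⁻¹ = x * (x * y)⁻¹ := by field_simp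
      rw [this]
      exact (cO h).mul_mem _ _ hx h1'.2
    obtain ⟨n, hn⟩ := hxl
    obtain ⟨m, hm⟩ := hyl
    have hnm : Lv Q p (n + m) (x * y) := by
      obtain ⟨u, hu, w, hw, huw, rfl⟩ := hn
      obtain ⟨u', hu', w', hw', huw', rfl⟩ := hm
      refine ⟨u * u', h.mul _ hu _ hu', w * w', h.mul _ hw _ hw', ?_, ?_⟩
      · rw [mul_mul_mul_comm, huw, huw', mul_one]
      · rw [zpow_add₀ h.ne]
        ring
    rw [val_of_lv h hn, val_of_lv h hm, val_of_lv h hnm, zpow_add₀ (by norm_num)]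
  · rw [val_of_not h1]
    by_cases hxl : ∃ n, Lv Q p n x
    · by_cases hyl : ∃ n, Lv Q p n y
      · exfalso
        apply h1
        rw [lv_iff h hx] at hxl
        rw [lv_iff h hy] at hyl
        rw [lv_iff h ((cO h).mul_mem _ _ hx hy)]
        refine ⟨mul_ne_zero hxl.1 hyl.1, ?_⟩
        rw [mul_inv]
        exact (cO h).mul_mem _ _ hxl.2 hyl.2
      · rw [val_of_not hyl, mul_zero]
    · rw [val_of_not hxl, zero_mul]

theorem val_cases (h : UD Q p) (x : K) : val Q p x = 0 ∨ ∃ n : ℤ, val Q p x = (1 / 2 : ℝ≥0) ^ n := by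
  by_cases h1 : ∃ n, Lv Q p n x
  · right
    obtain ⟨n, hn⟩ := h1
    exact ⟨n, val_of_lv h hn⟩
  · left
    exact val_of_not h1

theorem val_add_le (h : UD Q p) {x y : K} (hx : x ∈ cO h) (hy : y ∈ cO h) {n : ℤ}
    (h1 : val Q p x ≤ (1 / 2 : ℝ≥0) ^ n) (h2 : val Q p y ≤ (1 / 2 : ℝ≥0) ^ n) :
    val Q p (x + y) ≤ (1 / 2 : ℝ≥0) ^ n := by
  rw [val_le_iff h hx] at h1
  rw [val_le_iff h hy] at h2
  rw [val_le_iff h ((cO h).add_mem _ _ hx hy), mul_add]
  exact h.add _ h1 _ h2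

theorem val_add (h : UD Q p) {x y : K} (hx : x ∈ cO h) (hy : y ∈ cO h) :
    val Q p (x + y) ≤ max (val Q p x) (val Q p y) := by
  rcases val_cases h (x + y) with h0 | ⟨k, hk⟩
  · rw [h0]
    exact zero_le
  · by_contra hlt
    push Not at hlt
    rw [max_lt_iff, hk] at hlt
    have key : ∀ z : K, val Q p z < (1 / 2 : ℝ≥0) ^ k → val Q p z ≤ (1 / 2 : ℝ≥0) ^ (k + 1) := by
      intro z hz
      rcases val_cases h z with h0 | ⟨m, hm⟩
      · rw [h0]
        exact zero_le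
      · rw [hm] at hz ⊢
        rw [half_le_iff]
        by_contra hcon
        have : (1 / 2 : ℝ≥0) ^ k ≤ (1 / 2 : ℝ≥0) ^ m := half_le_iff.2 (by omega)
        exact absurd hz (not_lt.2 this)
    have := val_add_le h hx hy (key x hlt.1) (key y hlt.2)
    rw [hk, half_le_iff] at this
    omega

/-- The valuation on the coarsening. -/
noncomputable def vO (h : UD Q p) : Valuation (cO h) ℝ≥0 where
  toFun x := val Q p x
  map_zero' := by
    apply val_of_not
    rw [lv_iff h (0 : cO h).2]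
    rintro ⟨h1, -⟩
    exact h1 rfl
  map_one' := by
    have : Lv Q p 0 ((1 : cO h) : K) := ⟨1, h.one, 1, h.one, by simp, by simp⟩
    rw [val_of_lv h this, zpow_zero]
  map_mul' x y := val_mul h x.2 y.2
  map_add_le_max' x y := val_add h x.2 y.2

theorem vO_apply (h : UD Q p) (x : cO h) : vO h x = val Q p x := rfl

theorem max_le_supp (h : UD Q p) : IsLocalRing.maximalIdeal (cO h) ≤ (vO h).supp := by
  intro x hx
  rw [Valuation.mem_supp_iff, vO_apply]
  apply val_of_not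
  rw [lv_iff h x.2]
  rintro ⟨h1, h2⟩
  rw [IsLocalRing.mem_maximalIdeal] at hx
  apply hx
  rw [isUnit_iff_exists_inv]
  exact ⟨⟨x⁻¹, h2⟩, Subtype.ext (mul_inv_cancel₀ h1)⟩

/-- The valuation of the residue field of the coarsening. -/
noncomputable def vk (h : UD Q p) : Valuation (IsLocalRing.ResidueField (cO h)) ℝ≥0 :=
  (vO h).onQuot (max_le_supp h)

theorem vk_residue (h : UD Q p) (x : cO h) :
    vk h (IsLocalRing.residue (cO h) x) = val Q p x := rfl

end

theorem exists_ext (k : Type) [Field k] {ℓ : ℕ} (hℓ : ℓ.Prime) (u : k) (hroot : ∀ b : k, b ^ ℓ ≠ u)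
    (hℓ0 : (ℓ : k) ≠ 0) : ∃ (L : Type) (_ : Field L) (_ : Algebra k L),
      Algebra.IsSeparable k L ∧ Module.finrank k L = ℓ := by
  have hirr : Irreducible (Polynomial.X ^ ℓ - Polynomial.C u) :=
    X_pow_sub_C_irreducible_of_prime hℓ hroot
  have hub0 : u ≠ 0 := by
    intro h0
    apply hroot 0
    rw [h0, zero_pow hℓ.ne_zero]
  obtain ⟨α, hα⟩ := IsAlgClosed.exists_aeval_eq_zero
    (AlgebraicClosure k) (Polynomial.X ^ ℓ - Polynomial.C u)
    (by
      rw [Polynomial.degree_X_pow_sub_C hℓ.pos]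
      exact_mod_cast hℓ.ne_zero)
  have hmin : Polynomial.X ^ ℓ - Polynomial.C u = minpoly k α :=
    minpoly.eq_of_irreducible_of_monic hirr hα (Polynomial.monic_X_pow_sub_C u hℓ.ne_zero)
  have hint : IsIntegral k α :=
    ⟨_, Polynomial.monic_X_pow_sub_C u hℓ.ne_zero, by
      rw [← Polynomial.aeval_def]
      exact hα⟩
  refine ⟨IntermediateField.adjoin k {α}, inferInstance, inferInstance, ?_, ?_⟩
  · rw [IntermediateField.isSeparable_adjoin_simple_iff_isSeparable]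
    rw [IsSeparable, ← hmin]
    exact Polynomial.separable_X_pow_sub_C u hℓ0 hub0
  · rw [IntermediateField.adjoin.finrank hint, ← hmin]
    exact Polynomial.natDegree_X_pow_sub_C

theorem f2 : F2Stm := by
  intro K _ ℓ q hℓ Q hQ
  obtain ⟨p, hpQ, hp0, hpn, hpd, -⟩ := hQ.unif
  have h : UD Q p := ⟨hQ.one, hQ.add, hQ.neg, hQ.mul, hQ.total, hpQ, hp0, hpn, hpd⟩
  have hsurj := IsLocalRing.residue_surjective (R := cO h)
  have hlt : ∀ x : K, x ∈ cO h → (val Q p x < 1 ↔ x ∈ Q ∧ ∀ y ∈ Q, x * y ≠ 1) := by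
    intro x hx
    constructor
    · intro h1
      have h2 : val Q p x ≤ (1 / 2 : ℝ≥0) ^ (1 : ℤ) := by
        rcases val_cases h x with h0 | ⟨n, hn⟩
        · rw [h0]
          exact zero_le
        · rw [hn] at h1 ⊢
          rw [half_le_iff]
          by_contra hcon
          have : (1 / 2 : ℝ≥0) ^ (0 : ℤ) ≤ (1 / 2 : ℝ≥0) ^ n := half_le_iff.2 (by omega)
          rw [zpow_zero] at this
          exact absurd h1 (not_lt.2 this)
      rw [val_le_iff h hx] at h2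
      have h3 : x = p * (p ^ (-(1 : ℤ)) * x) := by
        rw [← mul_assoc, zpow_neg_one, mul_inv_cancel₀ hp0, one_mul]
      refine ⟨by rw [h3]; exact h.mul _ hpQ _ h2, fun y hy hxy => ?_⟩
      apply hpn (p ^ (-(1 : ℤ)) * x * y) (h.mul _ h2 _ hy)
      rw [← mul_assoc, ← h3, hxy]
    · rintro ⟨h1, h2⟩
      rcases hpd x h1 with ⟨y, hy, hxy⟩ | ⟨y, hy, rfl⟩
      · exact absurd hxy (h2 y hy)
      · have h3 : val Q p (p * y) ≤ (1 / 2 : ℝ≥0) ^ (1 : ℤ) := by
          rw [val_le_iff h hx, ← mul_assoc, zpow_neg_one, inv_mul_cancel₀ hp0, one_mul]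
          exact hy
        refine lt_of_le_of_lt h3 ?_
        rw [zpow_one]
        exact NNReal.half_lt_self one_ne_zero
  have hle : ∀ x : K, x ∈ cO h → val Q p x ≤ 1 → x ∈ Q := by
    intro x hx h1
    have := (val_le_iff h hx 0).1 (by simpa using h1)
    simpa using this
  have hge : ∀ x : K, x ∈ Q → val Q p x ≤ 1 := by
    intro x hx
    have := (val_le_iff h (cO_of_mem h hx) 0).2 (by simpa using hx)
    simpa using this
  refine ⟨cO h, IsLocalRing.ResidueField (cO h), inferInstance, IsLocalRing.residue (cO h), vk h,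
    hsurj, ?_, ?_, ?_⟩
  · intro x
    constructor
    · rintro ⟨hx, h1⟩
      rw [vk_residue] at h1
      exact (hlt x hx).1 h1
    · intro h1
      have hx := cO_of_mem h h1.1
      refine ⟨hx, ?_⟩
      rw [vk_residue]
      exact (hlt x hx).2 h1
  · refine ⟨IsLocalRing.residue (cO h) ⟨p, cO_of_mem h hpQ⟩, fun c hc => ?_⟩
    obtain ⟨x, rfl⟩ := hsurj c
    rw [vk_residue, vk_residue] at hc
    have hp1 : val Q p p = (1 / 2 : ℝ≥0) ^ (1 : ℤ) :=
      val_of_lv h ⟨1, h.one, 1, h.one, by simp, by simp⟩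
    rcases val_cases h (x : K) with h0 | ⟨n, hn⟩
    · rw [h0, zero_pow hℓ.ne_zero] at hc
      rw [show ((⟨p, cO_of_mem h hpQ⟩ : cO h) : K) = p from rfl, hp1, zpow_one] at hc
      norm_num at hc
    · rw [hn, show ((⟨p, cO_of_mem h hpQ⟩ : cO h) : K) = p from rfl, hp1, ← zpow_natCast,
        ← zpow_mul] at hc
      have h1 : (1 : ℤ) = n * ℓ := le_antisymm (half_le_iff.1 (le_of_eq hc.symm))
        (half_le_iff.1 (le_of_eq hc))
      have h2 : (ℓ : ℤ) ∣ 1 := ⟨n, by rw [mul_comm]; exact h1⟩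
      have h3 : ℓ ∣ 1 := by exact_mod_cast h2
      exact hℓ.one_lt.ne' (Nat.dvd_one.1 h3)
  · obtain ⟨u, huQ, hu⟩ := hQ.root
    obtain ⟨z, hzQ, hz⟩ := hQ.inv
    set V := (vk h).valuationSubring with hV
    have hmemV : ∀ x : cO h, IsLocalRing.residue (cO h) x ∈ V ↔ val Q p x ≤ 1 := by
      intro x
      rw [hV, Valuation.mem_valuationSubring_iff, vk_residue]
    let uu : V := ⟨IsLocalRing.residue (cO h) ⟨u, cO_of_mem h huQ⟩, (hmemV _).2 (hge u huQ)⟩
    let ub : IsLocalRing.ResidueField V := IsLocalRing.residue V uu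
    have hmaxV : ∀ x : V, IsLocalRing.residue V x = 0 ↔ vk h x < 1 := by
      intro x
      rw [IsLocalRing.residue_eq_zero_iff, ValuationSubring.valuation_lt_one_iff]
      exact ((vk h).isEquiv_valuation_valuationSubring.lt_one_iff_lt_one).symm
    have hroot : ∀ b : IsLocalRing.ResidueField V, b ^ ℓ ≠ ub := by
      intro b hb
      obtain ⟨c, rfl⟩ := IsLocalRing.residue_surjective b
      obtain ⟨c, hc⟩ := c
      obtain ⟨x, rfl⟩ := hsurj c
      have hxQ : (x : K) ∈ Q := hle x x.2 ((hmemV x).1 hc)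
      rw [← sub_eq_zero, ← map_pow, ← map_sub, hmaxV] at hb
      have e1 : ((⟨IsLocalRing.residue (cO h) x, hc⟩ ^ ℓ - uu : V) : IsLocalRing.ResidueField (cO h)) =
          IsLocalRing.residue (cO h) (x ^ ℓ - ⟨u, cO_of_mem h huQ⟩) := by
        rw [map_sub, map_pow]
        rfl
      rw [e1, vk_residue] at hb
      have e2 := ((hlt _ (x ^ ℓ - ⟨u, cO_of_mem h huQ⟩ : cO h).2).1 hb).2
      obtain ⟨z', hz', hzz⟩ := hu x hxQ
      exact e2 z' hz' hzz
    have hℓ0 : (ℓ : IsLocalRing.ResidueField V) ≠ 0 := by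
      intro h0
      let zz : V := ⟨IsLocalRing.residue (cO h) ⟨z, cO_of_mem h hzQ⟩, (hmemV _).2 (hge z hzQ)⟩
      have e1 : (ℓ : V) * zz = 1 := by
        apply Subtype.ext
        have e2 : (ℓ : cO h) * ⟨z, cO_of_mem h hzQ⟩ = 1 := by
          apply Subtype.ext
          push_cast
          exact hz
        have := congrArg (IsLocalRing.residue (cO h)) e2
        rw [map_mul, map_natCast, map_one] at this
        push_cast
        exact this
      have := congrArg (IsLocalRing.residue V) e1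
      rw [map_mul, map_natCast, h0, zero_mul, map_one] at this
      exact zero_ne_one this
    exact exists_ext _ hℓ ub hroot hℓ0

end Pool.Agent.R492.DV
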