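import Pool.Agent.R492.DV.Stm

set_option autoImplicit false

namespace Pool.Agent.R492.DV

variable {K : Type} [Field K] {ℓ q q' : ℕ} {Q : Set K}

theorem DiscSet.zero_mem (h : DiscSet ℓ q Q) : (0 : K) ∈ Q := by
  have h1 := h.add 1 h.one (-1) (h.neg 1 h.one)
  rwa [add_neg_cancel] at h1

theorem DiscSet.inv_mem (h : DiscSet ℓ q Q) {x : K} (hx : x ∉ Q) : x⁻¹ ∈ Q := by
  have hx0 : x ≠ 0 := by
    rintro rfl
    exact hx h.zero_mem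
  rcases h.total x x⁻¹ (mul_inv_cancel₀ hx0) with h1 | h1
  · exact absurd h1 hx
  · exact h1

theorem DiscSet.pow_mem (h : DiscSet ℓ q Q) {x : K} (hx : x ∈ Q) (n : ℕ) : x ^ n ∈ Q := by
  induction n with
  | zero => rw [pow_zero]; exact h.one
  | succ n ih => rw [pow_succ]; exact h.mul _ ih _ hx

/-- If one ring contains the other one, they are equal. -/
theorem not_ssubset {Q₁ Q₂ : Set K} (h1 : DiscSet ℓ q Q₁) (h2 : DiscSet ℓ q' Q₂) (hq : 2 ≤ q)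
    (hs : Q₁ ⊆ Q₂) : Q₂ ⊆ Q₁ := by
  intro x hx2
  by_contra hx1
  obtain ⟨π₁, hπ1, hπ10, hπ1n, hdiv1, hgen⟩ := h1.unif
  obtain ⟨π₂, hπ2, hπ20, hπ2n, hdiv2, -⟩ := h2.unif
  have hx0 : x ≠ 0 := by
    rintro rfl
    exact hx1 h1.zero_mem
  have hxi := h1.inv_mem hx1
  -- π₁ is a unit of Q₂
  obtain ⟨y, hy, hxy⟩ : ∃ y ∈ Q₁, x⁻¹ = π₁ * y := by
    rcases hdiv1 x⁻¹ hxi with ⟨y, hy, h3⟩ | h3
    · exfalso
      apply hx1
      have h4 : y = x := by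
        have := congrArg (fun t => x * t) h3
        simp only [mul_one] at this
        rw [← mul_assoc, mul_inv_cancel₀ hx0, one_mul] at this
        exact this
      rwa [← h4]
    · exact h3
  have hunit : π₁ * (y * x) = 1 := by
    rw [← mul_assoc, ← hxy, inv_mul_cancel₀ hx0]
  have hyx : y * x ∈ Q₂ := h2.mul _ (hs hy) _ hx2
  -- write π₂
  obtain ⟨i, z, u, hu, w, hw, huw, hz⟩ := hgen π₂ hπ20
  -- t is the inverse of π₁ ^ i * u in Q₂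
  obtain ⟨t, ht, htu⟩ : ∃ t ∈ Q₂, (π₁ ^ (i : ℕ) * u) * t = 1 := by
    refine ⟨(y * x) ^ (i : ℕ) * w, h2.mul _ (h2.pow_mem hyx _) _ (hs hw), ?_⟩
    calc π₁ ^ (i : ℕ) * u * ((y * x) ^ (i : ℕ) * w)
        = (π₁ * (y * x)) ^ (i : ℕ) * (u * w) := by rw [mul_pow]; ring
      _ = 1 := by rw [hunit, huw, one_pow, one_mul]
  have hz0 : z ≠ 0 := by
    rintro rfl
    rw [zero_pow (by omega), mul_zero] at hz
    exact hπ20 hz
  have hb : π₁ ^ (i : ℕ) * u ∈ Q₂ := h2.mul _ (h2.pow_mem (hs hπ1) _) _ (hs hu)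
  have hzQ : z ∈ Q₂ := by
    by_contra hzn
    have hzi := h2.inv_mem hzn
    refine hπ2n (t * z⁻¹ ^ q) (h2.mul _ ht _ (h2.pow_mem hzi _)) ?_
    rw [hz]
    calc π₁ ^ (i : ℕ) * u * z ^ q * (t * z⁻¹ ^ q) = ((π₁ ^ (i : ℕ) * u) * t) * (z * z⁻¹) ^ q := by
          rw [mul_pow]; ring
      _ = 1 := by rw [htu, mul_inv_cancel₀ hz0, one_pow, one_mul]
  rcases hdiv2 z hzQ with ⟨s, hs', hzs⟩ | ⟨s, hs', hzs⟩
  · refine hπ2n (t * s ^ q) (h2.mul _ ht _ (h2.pow_mem hs' _)) ?_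
    rw [hz]
    calc π₁ ^ (i : ℕ) * u * z ^ q * (t * s ^ q) = ((π₁ ^ (i : ℕ) * u) * t) * (z * s) ^ q := by
          rw [mul_pow]; ring
      _ = 1 := by rw [htu, hzs, one_pow, one_mul]
  · obtain ⟨r, rfl⟩ : ∃ r, q = r + 2 := ⟨q - 2, by omega⟩
    refine hπ2n (π₁ ^ (i : ℕ) * u * (π₂ ^ r * s ^ (r + 2)))
      (h2.mul _ hb _ (h2.mul _ (h2.pow_mem hπ2 _) _ (h2.pow_mem hs' _))) ?_
    have h5 : π₂ * (π₂ * (π₁ ^ (i : ℕ) * u * (π₂ ^ r * s ^ (r + 2)))) = π₂ * 1 := by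
      rw [mul_one]
      conv_rhs => rw [hz, hzs]
      rw [mul_pow]
      ring
    exact mul_left_cancel₀ hπ20 h5

theorem incomparable {Q₁ : Set K} (h1 : DiscSet ℓ q Q₁) {a b : K}
    (ha1 : a ∈ Q₁) (hb1 : b ∉ Q₁) :
    b⁻¹ * a ∈ Q₁ ∧ ∀ y ∈ Q₁, b⁻¹ * a * y ≠ 1 := by
  have hb0 : b ≠ 0 := by
    rintro rfl
    exact hb1 h1.zero_mem
  refine ⟨h1.mul _ (h1.inv_mem hb1) _ ha1, fun y hy hay => hb1 ?_⟩
  have h3 : a * y = b := by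
    have := congrArg (fun t => b * t) hay
    simp only [mul_one] at this
    rw [mul_assoc, ← mul_assoc, mul_inv_cancel₀ hb0, one_mul] at this
    exact this
  rw [← h3]
  exact h1.mul _ ha1 _ hy

theorem f3' (hq : 2 ≤ q) (hq' : 2 ≤ q') {Q₁ Q₂ : Set K} (h1 : DiscSet ℓ q Q₁)
    (h2 : DiscSet ℓ q' Q₂) (hne : Q₁ ≠ Q₂) : ∃ x : K, x ≠ 0 ∧ (x ∈ Q₁ ∧ ∀ y ∈ Q₁, x * y ≠ 1) ∧
      (x⁻¹ ∈ Q₂ ∧ ∀ y ∈ Q₂, x⁻¹ * y ≠ 1) := by
  obtain ⟨a, ha1, ha2⟩ : ∃ a ∈ Q₁, a ∉ Q₂ := by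
    by_contra hcon
    push Not at hcon
    exact hne (Set.Subset.antisymm hcon (not_ssubset h1 h2 hq hcon))
  obtain ⟨b, hb2, hb1⟩ : ∃ b ∈ Q₂, b ∉ Q₁ := by
    by_contra hcon
    push Not at hcon
    exact hne (Set.Subset.antisymm (not_ssubset h2 h1 hq' hcon) hcon)
  have ha0 : a ≠ 0 := by
    rintro rfl
    exact ha2 h2.zero_mem
  have hb0 : b ≠ 0 := by
    rintro rfl
    exact hb1 h1.zero_mem
  refine ⟨b⁻¹ * a, mul_ne_zero (inv_ne_zero hb0) ha0, incomparable h1 ha1 hb1, ?_⟩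
  have h3 := incomparable h2 hb2 ha2
  have h4 : (b⁻¹ * a)⁻¹ = a⁻¹ * b := by rw [mul_inv, inv_inv, mul_comm]
  rw [h4]
  exact h3

theorem f3 : F3Stm := fun _ _ _ _ hq _ _ h1 h2 hne => f3' hq hq h1 h2 hne

end Pool.Agent.R492.DV
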