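import Pool.Agent.R492.DV.Cpt

set_option autoImplicit false

namespace Pool.Agent.R492.DV

open FirstOrder FirstOrder.Language Set

namespace GPf

section
variable {L : FirstOrder.Language.{0, 0}} {A B ι : Type} [L.Structure A] [L.Structure B]
  {s : ι → B} {t : ι → A}

theorem ext_all (hst : ∀ (n : ℕ) (φ : L.Formula (Fin n)) (i : Fin n → ι),
    φ.Realize (s ∘ i) ↔ φ.Realize (t ∘ i)) (γ : Type) (φ : L.Formula γ) (j : γ → ι) :
    φ.Realize (s ∘ j) ↔ φ.Realize (t ∘ j) := by
  obtain ⟨n, i, φ', -, h⟩ := Cpt.fv L φ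
  rw [h B, h A]
  exact hst n φ' (j ∘ i)

theorem eq_of (hst : ∀ (n : ℕ) (φ : L.Formula (Fin n)) (i : Fin n → ι),
    φ.Realize (s ∘ i) ↔ φ.Realize (t ∘ i)) {i i' : ι} (h : t i = t i') : s i = s i' := by
  have h1 := (hst 2 (Term.equal (Term.var 0) (Term.var 1)) ![i, i']).2 (by simpa using h)
  simpa using h1

theorem key [Nonempty B] (hst : ∀ (n : ℕ) (φ : L.Formula (Fin n)) (i : Fin n → ι),
    φ.Realize (s ∘ i) ↔ φ.Realize (t ∘ i)) (ψ : L.Formula A) (hψ : ψ.Realize id) :
    ∃ w : A → B, (∀ i, w (t i) = s i) ∧ ψ.Realize w := by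
  classical
  obtain ⟨n, i, ψ', hi, h⟩ := Cpt.fv L ψ
  let γ := {k : Fin n // ∃ x, t x = i k}
  choose j hj using fun k : γ => k.2
  let θ : L.Formula (γ ⊕ Fin n) := (ψ'.relabel Sum.inr) ⊓
    Formula.iInf (fun k : γ => Term.equal (Term.var (Sum.inr k.1)) (Term.var (Sum.inl k)))
  have h1 : (θ.iExs (Fin n)).Realize (t ∘ j) := by
    rw [Formula.realize_iExs]
    refine ⟨i, ?_⟩
    simp only [θ]
    rw [Formula.realize_inf, Formula.realize_relabel, Formula.realize_iInf]
    constructor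
    · rw [Sum.elim_comp_inr]
      exact (h A id).1 hψ
    · intro k
      rw [Formula.realize_equal]
      simp only [Term.realize_var, Sum.elim_inr, Sum.elim_inl, Function.comp_apply]
      exact (hj k).symm
  have h2 := (ext_all hst _ _ j).2 h1
  rw [Formula.realize_iExs] at h2
  obtain ⟨z, hz⟩ := h2
  simp only [θ] at hz
  rw [Formula.realize_inf, Formula.realize_relabel, Formula.realize_iInf, Sum.elim_comp_inr] at hz
  obtain ⟨hz1, hz2⟩ := hz
  have hz3 : ∀ k : γ, z k.1 = s (j k) := by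
    intro k
    have h3 := hz2 k
    rw [Formula.realize_equal] at h3
    simpa only [Term.realize_var, Sum.elim_inr, Sum.elim_inl, Function.comp_apply] using h3
  let w : A → B := fun a => if ha : ∃ x, t x = a then s ha.choose else
    if hb : ∃ k, i k = a then z hb.choose else Classical.arbitrary B
  have hw1 : ∀ x, w (t x) = s x := by
    intro x
    have hx : ∃ x', t x' = t x := ⟨x, rfl⟩
    simp only [w]
    rw [dif_pos hx]
    exact eq_of hst hx.choose_spec
  refine ⟨w, hw1, ?_⟩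
  rw [h B]
  have hw2 : w ∘ i = z := by
    funext k
    by_cases hk : ∃ x, t x = i k
    · rw [hz3 ⟨k, hk⟩, ← hw1, hj ⟨k, hk⟩]
      rfl
    · have hb : ∃ k', i k' = i k := ⟨k, rfl⟩
      simp only [w, Function.comp_apply]
      rw [dif_neg hk, dif_pos hb]
      rw [hi hb.choose_spec]
  rw [hw2]
  exact hz1

end

end GPf

open GPf in
theorem g : GStm := by
  intro L R B _ r _ A _ ι s t hst
  classical
  letI := r
  let Γ : Set ((L.sum R).Formula (B ⊕ A)) := {φ |
    (∃ χ : (L.sum R).Formula B, χ.Realize id ∧ φ = χ.relabel Sum.inl) ∨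
    (∃ ψ : L.Formula A, ψ.Realize id ∧
      φ = ((LHom.sumInl : L →ᴸ L.sum R).onFormula ψ).relabel Sum.inr) ∨
    ∃ i, φ = Term.equal (Term.var (Sum.inr (t i))) (Term.var (Sum.inl (s i)))}
  have hfin : ∀ Γ₀ : Finset ((L.sum R).Formula (B ⊕ A)), (Γ₀ : Set _) ⊆ Γ →
      ∃ ψ : L.Formula A, ψ.Realize id ∧ ∀ w : A → B, (∀ i, w (t i) = s i) → ψ.Realize w →
        ∀ φ ∈ Γ₀, φ.Realize (Sum.elim id w) := by
    intro Γ₀
    induction Γ₀ using Finset.induction_on with
    | empty =>
      intro _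
      exact ⟨⊤, by simp, by simp⟩
    | insert φ Γ₁ hφ ih =>
      intro hsub
      rw [Finset.coe_insert, insert_subset_iff] at hsub
      obtain ⟨ψ, hψ1, hψ2⟩ := ih hsub.2
      rcases hsub.1 with ⟨χ, hχ, rfl⟩ | ⟨ψ', hψ', rfl⟩ | ⟨i, rfl⟩
      · refine ⟨ψ, hψ1, fun w hw1 hw2 φ hφ => ?_⟩
        rcases Finset.mem_insert.1 hφ with rfl | hφ
        · rw [Formula.realize_relabel, Sum.elim_comp_inl]
          exact hχ
        · exact hψ2 w hw1 hw2 φ hφ
      · refine ⟨ψ ⊓ ψ', by rw [Formula.realize_inf]; exact ⟨hψ1, hψ'⟩, fun w hw1 hw2 φ hφ => ?_⟩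
        rw [Formula.realize_inf] at hw2
        rcases Finset.mem_insert.1 hφ with rfl | hφ
        · rw [Formula.realize_relabel, Sum.elim_comp_inr, LHom.realize_onFormula]
          exact hw2.2
        · exact hψ2 w hw1 hw2.1 φ hφ
      · refine ⟨ψ, hψ1, fun w hw1 hw2 φ hφ => ?_⟩
        rcases Finset.mem_insert.1 hφ with rfl | hφ
        · rw [Formula.realize_equal]
          simp only [Term.realize_var, Sum.elim_inr, Sum.elim_inl, id]
          exact hw1 i
        · exact hψ2 w hw1 hw2 φ hφ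
  obtain ⟨M, S, hM, v, hv⟩ := Cpt.cpt (L.sum R) (B ⊕ A) Γ (by
    intro Γ₀ hΓ₀
    obtain ⟨ψ, hψ1, hψ2⟩ := hfin Γ₀ hΓ₀
    obtain ⟨w, hw1, hw2⟩ := key hst ψ hψ1
    exact ⟨B, inferInstance, inferInstance, Sum.elim id w, hψ2 w hw1 hw2⟩)
  have hS := Cpt.sum_reduct L R M S
  letI SL : L.Structure M := (LHom.sumInl : L →ᴸ L.sum R).reduct M
  let SR : R.Structure M := (LHom.sumInr : R →ᴸ L.sum R).reduct M
  refine ⟨M, SL, SR, fun b => v (Sum.inl b), fun a => v (Sum.inr a), ?_, ?_, ?_⟩
  · have h1 : ∀ (n : ℕ) (φ : (L.sum R).Formula (Fin n)) (x : Fin n → B), φ.Realize x →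
        @Formula.Realize _ _ S _ φ ((fun b => v (Sum.inl b)) ∘ x) := by
      intro n φ x hx
      have h2 := hv ((φ.relabel x).relabel Sum.inl) (Or.inl ⟨_, by
        rw [Formula.realize_relabel]; exact hx, rfl⟩)
      rw [Formula.realize_relabel, Formula.realize_relabel] at h2
      exact h2
    intro n φ x
    show @Formula.Realize _ _ (@Language.sumStructure L R M SL SR) _ φ _ ↔ φ.Realize x
    rw [show @Language.sumStructure L R M SL SR = S from hS]
    constructor
    · intro h2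
      by_contra h3
      exact h1 n φ.not x h3 h2
    · exact h1 n φ x
  · have h1 : ∀ (n : ℕ) (φ : L.Formula (Fin n)) (x : Fin n → A), φ.Realize x →
        φ.Realize ((fun a => v (Sum.inr a)) ∘ x) := by
      intro n φ x hx
      have h2 := hv (((LHom.sumInl : L →ᴸ L.sum R).onFormula (φ.relabel x)).relabel Sum.inr)
        (Or.inr (Or.inl ⟨_, by rw [Formula.realize_relabel]; exact hx, rfl⟩))
      rw [Formula.realize_relabel] at h2
      haveI : (LHom.sumInl : L →ᴸ L.sum R).IsExpansionOn M := LHom.isExpansionOn_reduct _ _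
      rw [LHom.realize_onFormula, Formula.realize_relabel] at h2
      exact h2
    intro n φ x
    constructor
    · intro h2
      by_contra h3
      exact h1 n φ.not x h3 h2
    · exact h1 n φ x
  · intro i
    have h2 := hv _ (Or.inr (Or.inr ⟨i, rfl⟩))
    rw [Formula.realize_equal] at h2
    simpa only [Term.realize_var] using h2

end Pool.Agent.R492.DV
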