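import Pool.Agent.R492.DV.Cpt

set_option autoImplicit false

namespace Pool.Agent.R492.DV

open FirstOrder FirstOrder.Language Set

namespace JPf

/-- relation symbol -/
def sr (L R : FirstOrder.Language.{0, 0}) {k : ℕ} (rel : R.Relations k) :
    (L.sum R).Relations k := Sum.inr rel

/-- elementary chains: the limit is an elementary extension -/
theorem ec {L R : FirstOrder.Language.{0, 0}} [R.IsRelational] (X : ℕ → Type)
    [∀ n, L.Structure (X n)] [∀ n, R.Structure (X n)] (D : Type) [L.Structure D] [R.Structure D]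
    (f : ∀ m n, m ≤ n → X m → X n) (o : ∀ n, X n ↪[L] D)
    (ho : ∀ m n h x, o n (f m n h x) = o m x) (hex : ∀ z, ∃ n x, o n x = z)
    (S : Set ℕ) (hS : ∀ n, ∃ m ∈ S, n ≤ m)
    (hf : ∀ m n h, m ∈ S → n ∈ S → ∀ (k : ℕ) (φ : (L.sum R).Formula (Fin k)) (x : Fin k → X m),
      φ.Realize (f m n h ∘ x) ↔ φ.Realize x)
    (hr : ∀ (k : ℕ) (rel : R.Relations k) (x : Fin k → D), Structure.RelMap rel x ↔
      ∃ n ∈ S, ∃ y : Fin k → X n, o n ∘ y = x ∧ Structure.RelMap rel y) :
    ∀ n ∈ S, ∀ (k : ℕ) (φ : (L.sum R).Formula (Fin k)) (x : Fin k → X n),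
      φ.Realize (o n ∘ x) ↔ φ.Realize x := by
  have hrel : ∀ m n h, m ∈ S → n ∈ S → ∀ (k : ℕ) (rel : R.Relations k) (x : Fin k → X m),
      Structure.RelMap rel (f m n h ∘ x) ↔ Structure.RelMap rel x := by
    intro m n h hm hn k rel x
    have h1 := hf m n h hm hn k
      (Relations.formula (sr L R rel) (fun i => Term.var i)) x
    rw [Formula.realize_rel, Formula.realize_rel] at h1
    exact h1
  have hrel2 : ∀ n ∈ S, ∀ (k : ℕ) (rel : R.Relations k) (x : Fin k → X n),
      Structure.RelMap rel (o n ∘ x) ↔ Structure.RelMap rel x := by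
    intro n hn k rel x
    rw [hr]
    constructor
    · rintro ⟨n', hn', y, hy, hry⟩
      rcases le_total n' n with h | h
      · have h2 : f n' n h ∘ y = x := by
          funext i
          apply (o n).injective
          rw [Function.comp_apply, ho]
          exact congrFun hy i
        rw [← h2, hrel n' n h hn' hn]
        exact hry
      · have h2 : f n n' h ∘ x = y := by
          funext i
          apply (o n').injective
          rw [Function.comp_apply, ho]
          exact (congrFun hy i).symm
        rw [← hrel n n' h hn hn', h2]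
        exact hry
    · intro h
      exact ⟨n, hn, x, rfl, h⟩
  let oe : ∀ n ∈ S, X n ↪[L.sum R] D := fun n hn =>
    { toFun := o n
      inj' := (o n).injective
      map_fun' := by
        intro k F x
        rcases F with F | F
        · exact (o n).map_fun F x
        · exact isEmptyElim F
      map_rel' := by
        intro k r x
        rcases r with r | r
        · exact (o n).map_rel r x
        · exact hrel2 n hn k r x }
  have hoe : ∀ n hn, (⇑(oe n hn) : X n → D) = o n := fun n hn => rfl
  have main : ∀ {α : Type} {l : ℕ} (φ : (L.sum R).BoundedFormula α l) (n : ℕ) (_ : n ∈ S)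
      (v : α → X n) (xs : Fin l → X n),
      φ.Realize (o n ∘ v) (o n ∘ xs) ↔ φ.Realize v xs := by
    intro α l φ
    induction φ with
    | falsum => intro n hn v xs; rfl
    | equal t₁ t₂ =>
      intro n hn v xs
      rw [← hoe n hn]
      show t₁.realize _ = t₂.realize _ ↔ t₁.realize _ = t₂.realize _
      rw [← Sum.comp_elim, HomClass.realize_term, HomClass.realize_term,
        (oe n hn).injective.eq_iff]
    | rel r ts =>
      intro n hn v xs
      rw [← hoe n hn]
      show Structure.RelMap r (fun i => (ts i).realize _) ↔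
        Structure.RelMap r (fun i => (ts i).realize _)
      rw [← Sum.comp_elim]
      have h1 : (fun i => (ts i).realize (oe n hn ∘ Sum.elim v xs)) =
          oe n hn ∘ fun i => (ts i).realize (Sum.elim v xs) := by
        funext i
        rw [HomClass.realize_term]
        rfl
      rw [h1]
      exact (oe n hn).map_rel r _
    | imp φ ψ ih1 ih2 =>
      intro n hn v xs
      rw [BoundedFormula.realize_imp, BoundedFormula.realize_imp, ih1 n hn, ih2 n hn]
    | all φ ih =>
      intro n hn v xs
      constructor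
      · intro h
        rw [BoundedFormula.realize_all] at h ⊢
        intro a
        have h1 := h (o n a)
        rw [← Fin.comp_snoc, ih n hn] at h1
        exact h1
      · intro h
        rw [BoundedFormula.realize_all]
        intro a
        obtain ⟨m, x, rfl⟩ := hex a
        obtain ⟨p, hp, hle⟩ := hS (max n m)
        have hnp : n ≤ p := le_trans (le_max_left _ _) hle
        have hmp : m ≤ p := le_trans (le_max_right _ _) hle
        let fe : X n ↪ₑ[L.sum R] X p := ⟨f n p hnp, fun k φ x => hf n p hnp hn hp k φ x⟩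
        have h1 := (fe.map_boundedFormula φ.all v xs).2 h
        rw [BoundedFormula.realize_all] at h1
        have h2 := (ih p hp _ _).2 (h1 (f m p hmp x))
        rw [Fin.comp_snoc, ho] at h2
        have e1 : o p ∘ fe ∘ v = o n ∘ v := by
          funext i; exact ho n p hnp (v i)
        have e2 : o p ∘ fe ∘ xs = o n ∘ xs := by
          funext i; exact ho n p hnp (xs i)
        rw [← Function.comp_assoc] at e1 e2
        rw [← Function.comp_assoc, ← Function.comp_assoc, e1, e2] at h2
        exact h2
  intro n hn k φ x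
  have h1 := main φ n hn x default
  have e : (o n ∘ (default : Fin 0 → X n)) = default := Subsingleton.elim _ _
  rw [e] at h1
  exact h1

/-- a step of the chain -/
structure St (L R : FirstOrder.Language.{0, 0}) where
  A : Type
  B : Type
  LA : L.Structure A
  LB : L.Structure B
  RA : R.Structure A
  RB : R.Structure B
  nA : Nonempty A
  nB : Nonempty B
  u : A → B
  hu : @ElemMap L A B LA LB u

/-- an extension of a step -/
structure Ext {L R : FirstOrder.Language.{0, 0}} (s : St L R) where
  C : Type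
  LC : L.Structure C
  RC : R.Structure C
  nC : Nonempty C
  h : s.B → C
  hh : @ElemMap L s.B C s.LB LC h
  h2 : @ElemMap2 L R s.A C s.LA LC s.RA RC (h ∘ s.u)

theorem ext_ne (hG : GStm) {L R : FirstOrder.Language.{0, 0}} (s : St L R) : Nonempty (Ext s) := by
  letI := s.LA
  letI := s.LB
  haveI := s.nA
  haveI := s.nB
  obtain ⟨C, LC, RC, j, h, h1, h2, h3⟩ := hG L R s.A s.RA s.B s.A id s.u (by
    intro n φ i
    exact (s.hu n φ i).symm)
  have e : h ∘ s.u = j := by
    funext i; exact h3 i
  exact ⟨⟨C, LC, RC, ⟨h (Classical.arbitrary _)⟩, h, h2, by rw [e]; exact h1⟩⟩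

/-- the next step -/
noncomputable def nx (hG : GStm) {L R : FirstOrder.Language.{0, 0}} (s : St L R) : St L R :=
  ⟨s.B, (ext_ne hG s).some.C, s.LB, (ext_ne hG s).some.LC, s.RB, (ext_ne hG s).some.RC, s.nB,
    (ext_ne hG s).some.nC, (ext_ne hG s).some.h, (ext_ne hG s).some.hh⟩

/-- the chain -/
noncomputable def sq (hG : GStm) {L R : FirstOrder.Language.{0, 0}} (s : St L R) (n : ℕ) :
    St L R := Nat.rec s (fun _ t => nx hG t) n

section
variable (hG : GStm) {L R : FirstOrder.Language.{0, 0}} (s : St L R)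

/-- the members of the chain -/
def X (n : ℕ) : Type := (sq hG s n).A

noncomputable instance (n : ℕ) : L.Structure (X hG s n) := (sq hG s n).LA

noncomputable instance rs (n : ℕ) : R.Structure (X hG s n) := (sq hG s n).RA

/-- the maps of the chain -/
noncomputable def U (n : ℕ) : X hG s n ↪ₑ[L] X hG s (n + 1) := ⟨(sq hG s n).u, (sq hG s n).hu⟩

theorem U2 (n : ℕ) : ElemMap2 L R (rs hG s n) (rs hG s (n + 2)) (U hG s (n + 1) ∘ U hG s n) :=
  (ext_ne hG (sq hG s n)).some.h2

/-- all maps of the chain -/
noncomputable def F (m n : ℕ) (h : m ≤ n) : X hG s m ↪[L] X hG s n :=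
  DirectedSystem.natLERec (fun n => (U hG s n).toEmbedding) m n h

theorem F_succ (m n : ℕ) (h : m ≤ n) (x : X hG s m) :
    F hG s m (n + 1) (Nat.le_succ_of_le h) x = U hG s n (F hG s m n h x) := by
  unfold F
  rw [DirectedSystem.coe_natLERec, DirectedSystem.coe_natLERec]
  beta_reduce
  rw [Nat.leRecOn_succ h]
  rfl

theorem F_self (m : ℕ) (x : X hG s m) : F hG s m m le_rfl x = x := by
  unfold F
  rw [DirectedSystem.coe_natLERec]
  beta_reduce
  rw [Nat.leRecOn_self]

theorem em_comp {M N P : Type} [L.Structure M] [L.Structure N] [L.Structure P]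
    {r : R.Structure M} {r' : R.Structure N} {r'' : R.Structure P} {f : M → N} {g : N → P}
    (hf : ElemMap2 L R r r' f) (hg : ElemMap2 L R r' r'' g) : ElemMap2 L R r r'' (g ∘ f) := by
  intro n φ x
  exact (hg n φ (f ∘ x)).trans (hf n φ x)

theorem F_even (m d : ℕ) : ElemMap2 L R (rs hG s m) (rs hG s (m + 2 * d))
    (F hG s m (m + 2 * d) (Nat.le_add_right _ _)) := by
  induction d with
  | zero =>
    intro n φ x
    have e : (F hG s m (m + 2 * 0) (Nat.le_add_right _ _)) ∘ x = x := by
      funext i; exact F_self hG s m (x i)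
    rw [e]
  | succ d ih =>
    have h1 := em_comp ih (U2 hG s (m + 2 * d))
    have e : (U hG s (m + 2 * d + 1) ∘ U hG s (m + 2 * d)) ∘
        (F hG s m (m + 2 * d) (Nat.le_add_right _ _)) =
        (F hG s m (m + 2 * (d + 1)) (Nat.le_add_right _ _)) := by
      funext x
      have h2 := F_succ hG s m (m + 2 * d) (Nat.le_add_right _ _) x
      have h3 := F_succ hG s m (m + 2 * d + 1) (Nat.le_succ_of_le (Nat.le_add_right _ _)) x
      show U hG s (m + 2 * d + 1) (U hG s (m + 2 * d) _) = _
      rw [← h2, ← h3]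
      rfl
    rw [e] at h1
    exact h1

instance : DirectedSystem (X hG s) fun i j h => F hG s i j h :=
  DirectedSystem.natLERec.directedSystem (fun n => (U hG s n).toEmbedding)

/-- the limit -/
def D : Type := Language.DirectLimit (X hG s) (F hG s)

noncomputable instance : L.Structure (D hG s) :=
  inferInstanceAs (L.Structure (Language.DirectLimit (X hG s) (F hG s)))

/-- the maps to the limit -/
noncomputable def O (n : ℕ) : X hG s n ↪[L] D hG s := Language.DirectLimit.of L ℕ (X hG s) (F hG s) n

theorem O_F (m n : ℕ) (h : m ≤ n) (x : X hG s m) : O hG s n (F hG s m n h x) = O hG s m x :=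
  Language.DirectLimit.of_f

theorem O_ex (z : D hG s) : ∃ n x, O hG s n x = z := Language.DirectLimit.exists_of z

/-- relations on the limit -/
noncomputable def rD [R.IsRelational] (c : ℕ) : R.Structure (D hG s) where
  funMap := fun F => isEmptyElim F
  RelMap := fun {k} rel x => ∃ n ∈ {n : ℕ | n % 2 = c}, ∃ y : Fin k → X hG s n,
    O hG s n ∘ y = x ∧ Structure.RelMap rel y

theorem E [R.IsRelational] (c : ℕ) (hc : c < 2) (n : ℕ) (hn : n % 2 = c) :
    ElemMap2 L R (rs hG s n) (rD hG s c) (O hG s n) := by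
  letI := rD hG s c
  refine ec (X hG s) (D hG s) (fun m n h => F hG s m n h) (O hG s) (O_F hG s) (O_ex hG s)
    {n : ℕ | n % 2 = c} ?_ ?_ ?_ n hn
  · intro n
    refine ⟨2 * n + c, ?_, by omega⟩
    show (2 * n + c) % 2 = c
    omega
  · intro m n h hm hn k φ x
    have hm' : m % 2 = c := hm
    have hn' : n % 2 = c := hn
    obtain ⟨d, rfl⟩ : ∃ d, n = m + 2 * d := ⟨(n - m) / 2, by omega⟩
    exact F_even hG s m d k φ x
  · intro k rel x
    exact Iff.rfl

end

end JPf

open JPf in
theorem j (hG : GStm) : JStm := by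
  intro L R _ N LN r _ k s t hst
  obtain ⟨B', LB, RB, j0, h0, h1, h2, h3⟩ := hG L R N r N (Fin k) t s (by
    intro n φ i
    have h := hst (φ.relabel i)
    rw [Formula.realize_relabel, Formula.realize_relabel] at h
    exact h.symm)
  let s0 : St L R := ⟨N, B', LN, LB, r, RB, inferInstance, ⟨j0 (Classical.arbitrary N)⟩, h0, h2⟩
  have E0 : ElemMap2 L R (M := N) r (rD hG s0 0) (O hG s0 0) := E hG s0 0 (by norm_num) 0 rfl
  have E1 : ElemMap2 L R (M := B') RB (rD hG s0 1) (O hG s0 1) := E hG s0 1 (by norm_num) 1 rfl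
  have E2 : ElemMap2 L R (M := N) r (rD hG s0 1) (O hG s0 1 ∘ j0) := by
    intro n φ x
    exact (E1 n φ (j0 ∘ x)).trans (h1 n φ x)
  refine ⟨D hG s0, inferInstance, rD hG s0 0, rD hG s0 1, O hG s0 0, O hG s0 1 ∘ j0, E0, E2, ?_⟩
  funext i
  have h4 : O hG s0 1 (F hG s0 0 1 (Nat.zero_le _) (s i)) = O hG s0 0 (s i) := O_F hG s0 0 1 _ _
  have h5 : F hG s0 0 1 (Nat.zero_le _) (s i) = U hG s0 0 (F hG s0 0 0 le_rfl (s i)) :=
    F_succ hG s0 0 0 le_rfl (s i)
  have h6 : F hG s0 0 1 (Nat.zero_le _) (s i) = h0 (s i) :=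
    h5.trans (congrArg (U hG s0 0) (F_self hG s0 0 (s i)))
  have h7 : O hG s0 0 (s i) = O hG s0 1 (h0 (s i)) := h4.symm.trans (congrArg (O hG s0 1) h6)
  exact h7.trans (congrArg (O hG s0 1) (h3 i))

end Pool.Agent.R492.DV
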