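import Pool.Agent.R492.DV.Cpt

set_option autoImplicit false

namespace Pool.Agent.R492.DV

open FirstOrder FirstOrder.Language Set

namespace K1Pf

/-- the relation symbol -/
def pu (m : ℕ) (i : Fin m) : (UL m).Relations 1 := URel.P i

/-- the relation symbol -/
def ps (L : FirstOrder.Language.{0, 0}) {m : ℕ} (i : Fin m) : (L.sum (UL m)).Relations 1 :=
  Sum.inr (pu m i)

/-- the atomic formula -/
def pf (L : FirstOrder.Language.{0, 0}) {m : ℕ} {α : Type} (i₀ : Fin m) (x : α) :
    (L.sum (UL m)).Formula α :=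
  Relations.formula₁ (ps L i₀) (Term.var x)

theorem realize_pf (L : FirstOrder.Language.{0, 0}) {m : ℕ} {α : Type} (i₀ : Fin m) (x : α)
    {M : Type} [(L.sum (UL m)).Structure M] (v : α → M) :
    (pf L i₀ x).Realize v ↔ Structure.RelMap (ps L i₀) ![v x] := by
  unfold pf
  rw [Formula.realize_rel₁]
  rfl

theorem fin_agree {L : FirstOrder.Language.{0, 0}} {M : Type} [L.Structure M] (X : Set M)
    (hX : ¬ ∃ (p : ℕ) (ψ : L.Formula (Fin 1 ⊕ Fin p)) (c : Fin p → M),
      ∀ x, x ∈ X ↔ ψ.Realize (Sum.elim (fun _ => x) c)) {k : ℕ} (a : Fin k → M)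
    (Φ : Finset (L.Formula (Fin 1 ⊕ Fin k))) :
    ∃ x y, x ∈ X ∧ y ∉ X ∧ ∀ φ ∈ Φ, φ.Realize (Sum.elim (fun _ => x) a) ↔
      φ.Realize (Sum.elim (fun _ => y) a) := by
  classical
  by_contra hno
  apply hX
  let S := {σ : Φ → Prop // ∃ x ∈ X, ∀ φ : Φ, σ φ ↔ φ.1.Realize (Sum.elim (fun _ => x) a)}
  let ψ : L.Formula (Fin 1 ⊕ Fin k) := Formula.iSup (fun σ : S =>
    Formula.iInf (fun φ : Φ => if σ.1 φ then φ.1 else φ.1.not))
  have hψ : ∀ y, ψ.Realize (Sum.elim (fun _ => y) a) ↔
      ∃ σ : S, ∀ φ : Φ, σ.1 φ ↔ φ.1.Realize (Sum.elim (fun _ => y) a) := by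
    intro y
    simp only [ψ]
    rw [Formula.realize_iSup]
    refine exists_congr fun σ => ?_
    rw [Formula.realize_iInf]
    refine forall_congr' fun φ => ?_
    by_cases h : σ.1 φ
    · rw [if_pos h]
      exact ⟨fun h1 => ⟨fun _ => h1, fun _ => h⟩, fun h1 => h1.1 h⟩
    · rw [if_neg h, Formula.realize_not]
      exact ⟨fun h1 => ⟨fun h2 => absurd h2 h, fun h2 => absurd h2 h1⟩, fun h1 h2 => h (h1.2 h2)⟩
  refine ⟨k, ψ, a, fun y => ?_⟩
  rw [hψ]
  constructor
  · intro hy
    exact ⟨⟨fun φ => φ.1.Realize (Sum.elim (fun _ => y) a), y, hy, fun φ => Iff.rfl⟩,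
      fun φ => Iff.rfl⟩
  · rintro ⟨⟨σ, x, hx, hσ⟩, hy⟩
    by_contra hyX
    apply hno
    refine ⟨x, y, hx, hyX, fun φ hφ => ?_⟩
    rw [← hσ ⟨φ, hφ⟩]
    exact hy ⟨φ, hφ⟩

end K1Pf

open K1Pf in
theorem k1 : K1Stm := by
  intro L m M _ _ Q i₀ hdef k a
  classical
  letI := ul Q
  let β : Bool → Fin 1 ⊕ Fin k → M ⊕ Bool := fun b =>
    Sum.elim (fun _ => Sum.inr b) (fun i => Sum.inl (a i))
  let ef : L.Formula (Fin 1 ⊕ Fin k) → (L.sum (UL m)).Formula (M ⊕ Bool) := fun φ =>
    (((LHom.sumInl : L →ᴸ L.sum (UL m)).onFormula φ).relabel (β true)).iff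
      (((LHom.sumInl : L →ᴸ L.sum (UL m)).onFormula φ).relabel (β false))
  let Γ : Set ((L.sum (UL m)).Formula (M ⊕ Bool)) := {φ |
    (∃ χ : (L.sum (UL m)).Formula M, χ.Realize id ∧ φ = χ.relabel Sum.inl) ∨
    (φ = pf L i₀ (Sum.inr true)) ∨ (φ = (pf L i₀ (Sum.inr false)).not) ∨ ∃ φ₀, φ = ef φ₀}
  have hfin : ∀ Γ₀ : Finset ((L.sum (UL m)).Formula (M ⊕ Bool)), (Γ₀ : Set _) ⊆ Γ →
      ∃ Φ : Finset (L.Formula (Fin 1 ⊕ Fin k)), ∀ x y, x ∈ Q i₀ → y ∉ Q i₀ →
        (∀ φ ∈ Φ, φ.Realize (Sum.elim (fun _ => x) a) ↔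
          φ.Realize (Sum.elim (fun _ => y) a)) →
        ∀ φ ∈ Γ₀, φ.Realize (Sum.elim id (fun b => if b = true then x else y)) := by
    intro Γ₀
    induction Γ₀ using Finset.induction_on with
    | empty =>
      intro _
      exact ⟨∅, by simp⟩
    | insert φ Γ₁ hφ ih =>
      intro hsub
      rw [Finset.coe_insert, insert_subset_iff] at hsub
      obtain ⟨Φ, hΦ⟩ := ih hsub.2
      rcases hsub.1 with ⟨χ, hχ, rfl⟩ | rfl | rfl | ⟨φ₀, rfl⟩
      · refine ⟨Φ, fun x y hx hy hxy φ hφ => ?_⟩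
        rcases Finset.mem_insert.1 hφ with rfl | hφ
        · rw [Formula.realize_relabel, Sum.elim_comp_inl]
          exact hχ
        · exact hΦ x y hx hy hxy φ hφ
      · refine ⟨Φ, fun x y hx hy hxy φ hφ => ?_⟩
        rcases Finset.mem_insert.1 hφ with rfl | hφ
        · rw [realize_pf]
          exact hx
        · exact hΦ x y hx hy hxy φ hφ
      · refine ⟨Φ, fun x y hx hy hxy φ hφ => ?_⟩
        rcases Finset.mem_insert.1 hφ with rfl | hφ
        · rw [Formula.realize_not, realize_pf]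
          exact hy
        · exact hΦ x y hx hy hxy φ hφ
      · refine ⟨insert φ₀ Φ, fun x y hx hy hxy φ hφ => ?_⟩
        rcases Finset.mem_insert.1 hφ with rfl | hφ
        · simp only [ef]
          rw [Formula.realize_iff, Formula.realize_relabel, Formula.realize_relabel,
            LHom.realize_onFormula, LHom.realize_onFormula]
          have e1 : (Sum.elim id (fun b => if b = true then x else y) : M ⊕ Bool → M) ∘ β true =
              Sum.elim (fun _ => x) a := by
            funext z; rcases z with z | z <;> rfl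
          have e2 : (Sum.elim id (fun b => if b = true then x else y) : M ⊕ Bool → M) ∘ β false =
              Sum.elim (fun _ => y) a := by
            funext z; rcases z with z | z <;> rfl
          rw [e1, e2]
          exact hxy φ₀ (Finset.mem_insert_self _ _)
        · exact hΦ x y hx hy (fun φ hφ => hxy φ (Finset.mem_insert_of_mem hφ)) φ hφ
  obtain ⟨M', S, hM', v, hv⟩ := Cpt.cpt (L.sum (UL m)) (M ⊕ Bool) Γ (by
    intro Γ₀ hΓ₀
    obtain ⟨Φ, hΦ⟩ := hfin Γ₀ hΓ₀
    obtain ⟨x, y, hx, hy, hxy⟩ := fin_agree (Q i₀) hdef a Φ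
    exact ⟨M, inferInstance, inferInstance, _, hΦ x y hx hy hxy⟩)
  have hS := Cpt.sum_reduct L (UL m) M' S
  letI SL : L.Structure M' := (LHom.sumInl : L →ᴸ L.sum (UL m)).reduct M'
  let Q' : Fin m → Set M' := fun i =>
    {x | @Structure.RelMap (L.sum (UL m)) M' S 1 (ps L i) ![x]}
  have hR : ul Q' = (LHom.sumInr : UL m →ᴸ L.sum (UL m)).reduct M' := by
    apply Structure.ext
    · funext n f x
      exact Empty.elim f
    · funext n f x
      cases f with
      | P i =>
        show (x 0 ∈ Q' i) = @Structure.RelMap (L.sum (UL m)) M' S 1 (ps L i) x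
        have hx : x = ![x 0] := by
          funext z
          rw [Subsingleton.elim z 0]; rfl
        conv_rhs => rw [hx]
        rfl
  rw [← hR] at hS
  refine ⟨M', SL, Q', fun x => v (Sum.inl x), v (Sum.inr true), v (Sum.inr false), ?_, ?_, ?_, ?_⟩
  · have h1 : ∀ (n : ℕ) (φ : (L.sum (UL m)).Formula (Fin n)) (x : Fin n → M), φ.Realize x →
        @Formula.Realize _ _ S _ φ ((fun b => v (Sum.inl b)) ∘ x) := by
      intro n φ x hx
      have h2 := hv ((φ.relabel x).relabel Sum.inl) (Or.inl ⟨_, by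
        rw [Formula.realize_relabel]; exact hx, rfl⟩)
      rw [Formula.realize_relabel, Formula.realize_relabel] at h2
      exact h2
    intro n φ x
    show @Formula.Realize _ _ (@Language.sumStructure L (UL m) M' SL (ul Q')) _ φ _ ↔ φ.Realize x
    rw [show @Language.sumStructure L (UL m) M' SL (ul Q') = S from hS]
    constructor
    · intro h2
      by_contra h3
      exact h1 n φ.not x h3 h2
    · exact h1 n φ x
  · have h2 := hv _ (Or.inr (Or.inl rfl))
    rw [realize_pf] at h2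
    exact h2
  · have h2 := hv _ (Or.inr (Or.inr (Or.inl rfl)))
    rw [Formula.realize_not, realize_pf] at h2
    exact h2
  · intro φ
    have h2 := hv _ (Or.inr (Or.inr (Or.inr ⟨φ, rfl⟩)))
    haveI : (LHom.sumInl : L →ᴸ L.sum (UL m)).IsExpansionOn M' := LHom.isExpansionOn_reduct _ _
    simp only [ef] at h2
    rw [Formula.realize_iff, Formula.realize_relabel, Formula.realize_relabel,
      LHom.realize_onFormula, LHom.realize_onFormula] at h2
    have e1 : v ∘ β true = Sum.elim (fun _ => v (Sum.inr true)) ((fun x => v (Sum.inl x)) ∘ a) := by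
      funext z; rcases z with z | z <;> rfl
    have e2 : v ∘ β false = Sum.elim (fun _ => v (Sum.inr false))
        ((fun x => v (Sum.inl x)) ∘ a) := by
      funext z; rcases z with z | z <;> rfl
    rw [e1, e2] at h2
    exact h2

end Pool.Agent.R492.DV
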