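import Pool.Agent.R492.DV.Stm

set_option autoImplicit false

namespace Pool.Agent.R492.DV

open FirstOrder FirstOrder.Language

namespace K2

/-- the set given by the predicate `i` -/
def pset {m : ℕ} {M : Type} (r : (UL m).Structure M) (i : Fin m) : Set M :=
  {x | @FirstOrder.Language.Structure.RelMap (UL m) M r 1 (URel.P i) (fun _ => x)}

theorem pset_ul {m : ℕ} {M : Type} (Q : Fin m → Set M) (i : Fin m) : pset (ul Q) i = Q i := rfl

/-- the language map sending the only predicate to `P i` -/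
def sg {m : ℕ} (i : Fin m) : (UL 1) →ᴸ (UL m) where
  onFunction := fun _ f => Empty.elim f
  onRelation := fun n (r : URel 1 n) => (match n, r with
    | _, URel.P _ => (URel.P i : URel m 1))

theorem sg_exp {m : ℕ} (i : Fin m) {M : Type} (r : (UL m).Structure M) :
    @LHom.IsExpansionOn (UL 1) (UL m) (sg i) M (ul (fun _ : Fin 1 => pset r i)) r := by
  let _ := ul (fun _ : Fin 1 => pset r i)
  let _ := r
  refine ⟨fun f _ => Empty.elim f, ?_⟩
  intro n R x
  match n, R, x with
  | _, URel.P j, x =>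
    show _ = (x 0 ∈ pset r i)
    have hx : x = fun _ => x 0 := by
      funext k
      rw [Subsingleton.elim k 0]
    conv_lhs => rw [hx]
    rfl

theorem tr {L : FirstOrder.Language.{0, 0}} {m : ℕ} (i : Fin m) {M : Type} [L.Structure M]
    (r : (UL m).Structure M) (φ : (L.sum (UL 1)).Sentence) :
    (letI := r; M ⊨ ((LHom.id L).sumMap (sg i)).onSentence φ) ↔
      (letI := ul (fun _ : Fin 1 => pset r i); M ⊨ φ) := by
  let _ := r
  let _ := ul (fun _ : Fin 1 => pset r i)
  have := sg_exp i r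
  exact LHom.realize_onSentence M ((LHom.id L).sumMap (sg i)) φ

theorem elem_sentence {L R : FirstOrder.Language.{0, 0}} {M N : Type} [L.Structure M]
    [L.Structure N] {r : R.Structure M} {r' : R.Structure N} {f : M → N}
    (h : ElemMap2 L R r r' f) (φ : (L.sum R).Sentence) :
    (letI := r'; N ⊨ φ) ↔ (letI := r; M ⊨ φ) := by
  have h1 := h 0 (Formula.relabel (Empty.elim : Empty → Fin 0) φ) Fin.elim0
  simp only [Formula.realize_relabel] at h1
  have h2 : ((f ∘ (Fin.elim0 : Fin 0 → M)) ∘ (Empty.elim : Empty → Fin 0)) = default :=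
    Subsingleton.elim _ _
  have h3 : ((Fin.elim0 : Fin 0 → M) ∘ (Empty.elim : Empty → Fin 0)) = default :=
    Subsingleton.elim _ _
  rw [h2, h3] at h1
  exact h1

theorem same_of_elem {L : FirstOrder.Language.{0, 0}} {m : ℕ} {M N : Type} [L.Structure M]
    [L.Structure N] {r : (UL m).Structure M} {r' : (UL m).Structure N} {f : M → N}
    (h : ElemMap2 L (UL m) r r' f) (i : Fin m) :
    Same L (fun _ : Fin 1 => pset r i) (fun _ : Fin 1 => pset r' i) := by
  let u1 := ul (fun _ : Fin 1 => pset r i)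
  let u2 := ul (fun _ : Fin 1 => pset r' i)
  show M ≅[L.sum (UL 1)] N
  rw [elementarilyEquivalent_iff]
  intro φ
  have h1 := tr i r φ
  have h2 := tr i r' φ
  have h3 := elem_sentence h (((LHom.id L).sumMap (sg i)).onSentence φ)
  exact h1.symm.trans (h3.symm.trans h2)

theorem same_trans {L : FirstOrder.Language.{0, 0}} {m : ℕ} {M N O : Type} [L.Structure M]
    [L.Structure N] [L.Structure O] {P : Fin m → Set M} {Q : Fin m → Set N} {R : Fin m → Set O}
    (h1 : Same L P Q) (h2 : Same L Q R) : Same L P R := by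
  unfold Same at h1 h2 ⊢
  unfold ElementarilyEquivalent at h1 h2 ⊢
  exact Eq.trans h1 h2

theorem same_refl {L : FirstOrder.Language.{0, 0}} {m : ℕ} {M : Type} [L.Structure M]
    (P : Fin m → Set M) : Same L P P := rfl

/-- membership in the predicate -/
theorem mem_pset {L : FirstOrder.Language.{0, 0}} {m : ℕ} {M N : Type} [L.Structure M]
    [L.Structure N] {r : (UL m).Structure M} {r' : (UL m).Structure N} {f : M → N}
    (h : ElemMap2 L (UL m) r r' f) (i : Fin m) (x : M) :
    f x ∈ pset r' i ↔ x ∈ pset r i := by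
  exact h 1 (Relations.formula (L := L.sum (UL m)) (n := 1)
    (Sum.inr (URel.P i) : (L.sum (UL m)).Relations 1) (fun _ => Term.var 0)) (fun _ => x)

/-- the sentence saying that the predicate is definable by `ψ` -/
noncomputable def dsent {L : FirstOrder.Language.{0, 0}} {p : ℕ} (ψ : L.Formula (Fin 1 ⊕ Fin p)) :
    (L.sum (UL 1)).Sentence :=
  Formula.iExs (Fin p) (α := Empty) (Formula.iAlls (Fin 1) (α := Empty ⊕ Fin p)
    ((Relations.formula (L := L.sum (UL 1)) (n := 1)
      (Sum.inr (URel.P 0) : (L.sum (UL 1)).Relations 1)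
      (fun _ => Term.var (Sum.inr 0 : (Empty ⊕ Fin p) ⊕ Fin 1))).iff
      (((LHom.sumInl : L →ᴸ L.sum (UL 1)).onFormula ψ).relabel
        (Sum.elim (fun j => Sum.inr j) (fun j => Sum.inl (Sum.inr j))))))

theorem realize_dsent {L : FirstOrder.Language.{0, 0}} {p : ℕ} (ψ : L.Formula (Fin 1 ⊕ Fin p))
    {M : Type} [L.Structure M] (P : Set M) :
    (letI := ul (fun _ : Fin 1 => P); M ⊨ dsent ψ) ↔
      ∃ c : Fin p → M, ∀ x : Fin 1 → M, (x 0 ∈ P ↔ ψ.Realize (Sum.elim x c)) := by
  let _ := ul (fun _ : Fin 1 => P)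
  show M ⊨ dsent ψ ↔ _
  unfold dsent Sentence.Realize
  rw [Formula.realize_iExs]
  refine exists_congr fun c => ?_
  rw [Formula.realize_iAlls]
  refine forall_congr' fun x => ?_
  rw [Formula.realize_iff, Formula.realize_relabel, LHom.realize_onFormula]
  refine iff_congr ?_ ?_
  · rfl
  · have : ((fun a => Sum.elim (Sum.elim (default : Empty → M) c) x a) ∘
        (Sum.elim (fun j => Sum.inr j) (fun j => Sum.inl (Sum.inr j)) :
          Fin 1 ⊕ Fin p → (Empty ⊕ Fin p) ⊕ Fin 1)) = Sum.elim x c := by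
      funext a
      rcases a with a | a <;> rfl
    rw [this]

theorem def_transfer {L : FirstOrder.Language.{0, 0}} {M M' : Type} [L.Structure M]
    [L.Structure M'] {P : Set M} {Q : Set M'}
    (h : Same L (fun _ : Fin 1 => P) (fun _ : Fin 1 => Q))
    (hd : ∃ (p : ℕ) (ψ : L.Formula (Fin 1 ⊕ Fin p)) (c : Fin p → M'),
      ∀ x, x ∈ Q ↔ ψ.Realize (Sum.elim (fun _ => x) c)) :
    ∃ (p : ℕ) (ψ : L.Formula (Fin 1 ⊕ Fin p)) (c : Fin p → M),
      ∀ x, x ∈ P ↔ ψ.Realize (Sum.elim (fun _ => x) c) := by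
  obtain ⟨p, ψ, c, hc⟩ := hd
  have h1 := (realize_dsent ψ Q).2 ⟨c, fun x => by
    have hx : x = fun _ => x 0 := by
      funext k
      rw [Subsingleton.elim k 0]
    have := hc (x 0)
    rwa [← hx] at this⟩
  have h2 : (letI := ul (fun _ : Fin 1 => P); M ⊨ dsent ψ) := by
    let u1 := ul (fun _ : Fin 1 => P)
    let u2 := ul (fun _ : Fin 1 => Q)
    have h' : M ≅[L.sum (UL 1)] M' := h
    have h3 := (elementarilyEquivalent_iff.1 h') (dsent ψ)
    exact h3.2 h1
  obtain ⟨c', hc'⟩ := (realize_dsent ψ P).1 h2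
  exact ⟨p, ψ, c', fun x => hc' (fun _ => x)⟩

instance ul_rel (m : ℕ) : (UL m).IsRelational := fun _ => inferInstanceAs (IsEmpty Empty)

theorem step (hJ : JStm) (hK1 : K1Stm) {L : FirstOrder.Language.{0, 0}} {M : Type}
    [L.Structure M] [Nonempty M] {P : Set M}
    (hnd : ¬ ∃ (p : ℕ) (ψ : L.Formula (Fin 1 ⊕ Fin p)) (c : Fin p → M),
      ∀ x, x ∈ P ↔ ψ.Realize (Sum.elim (fun _ => x) c)) (n : ℕ) :
    ∃ (M' : Type) (_ : L.Structure M') (_ : Nonempty M') (Q : Fin (n + 1) → Set M'),
      Function.Injective Q ∧ ∀ i, Same L (fun _ : Fin 1 => P) (fun _ : Fin 1 => Q i) := by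
  induction n with
  | zero =>
    refine ⟨M, inferInstance, inferInstance, fun _ => P, ?_, fun _ => same_refl _⟩
    intro i j _
    exact Fin.ext (by omega)
  | succ n ih =>
    obtain ⟨M1, _, _, Q, hQ, hS⟩ := ih
    have hnd1 : ¬ ∃ (p : ℕ) (ψ : L.Formula (Fin 1 ⊕ Fin p)) (c : Fin p → M1),
        ∀ x, x ∈ Q 0 ↔ ψ.Realize (Sum.elim (fun _ => x) c) :=
      fun hd => hnd (def_transfer (hS 0) hd)
    have hsep : ∀ q : Fin (n + 1) × Fin (n + 1), ∃ a : M1, q.1 ≠ q.2 →
        ¬ (a ∈ Q q.1 ↔ a ∈ Q q.2) := by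
      intro q
      by_cases hq : q.1 = q.2
      · obtain ⟨a⟩ : Nonempty M1 := inferInstance
        exact ⟨a, fun h => absurd hq h⟩
      · by_contra hno
        push Not at hno
        apply hq
        apply hQ
        ext a
        exact (hno a).2
    choose a ha using hsep
    obtain ⟨M2, _, Q2, e, b, c, he, hb, hc, hbc⟩ := hK1 L (n + 1) M1 Q 0 hnd1
      ((n + 1) * (n + 1)) (a ∘ finProdFinEquiv.symm)
    have : Nonempty M2 := ⟨b⟩
    obtain ⟨M3, _, r1, r2, f, g, hf, hg, hfg⟩ := hJ L (UL (n + 1)) M2 (ul Q2)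
      (1 + (n + 1) * (n + 1))
      (Sum.elim (fun _ => b) (e ∘ (a ∘ finProdFinEquiv.symm)) ∘ finSumFinEquiv.symm)
      (Sum.elim (fun _ => c) (e ∘ (a ∘ finProdFinEquiv.symm)) ∘ finSumFinEquiv.symm)
      (fun φ => by
        have := hbc (φ.relabel finSumFinEquiv.symm)
        rwa [Formula.realize_relabel, Formula.realize_relabel] at this)
    have hfg1 : f b = g c := by
      have := congrFun hfg (finSumFinEquiv (Sum.inl 0))
      simpa using this
    have hfg2 : ∀ q, f (e (a q)) = g (e (a q)) := by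
      intro q
      have := congrFun hfg (finSumFinEquiv (Sum.inr (finProdFinEquiv q)))
      simpa using this
    have : Nonempty M3 := ⟨f b⟩
    have hm1 : ∀ i x, f (e x) ∈ pset r1 i ↔ x ∈ Q i := fun i x =>
      (mem_pset hf i (e x)).trans (mem_pset he i x)
    have hm2 : ∀ i x, g (e x) ∈ pset r2 i ↔ x ∈ Q i := fun i x =>
      (mem_pset hg i (e x)).trans (mem_pset he i x)
    have hlast : ∀ i : Fin (n + 1), pset r1 i ≠ pset r2 0 := by
      intro i hi
      by_cases h0 : i = 0
      · subst h0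
        have h1 : f b ∈ pset r1 0 := (mem_pset hf 0 b).2 hb
        rw [hi, hfg1] at h1
        exact hc ((mem_pset hg 0 c).1 h1)
      · apply ha (i, 0) h0
        rw [← hm1 i, hi, hfg2, hm2 0]
    refine ⟨M3, inferInstance, inferInstance,
      Fin.snoc (α := fun _ => Set M3) (fun i => pset r1 i) (pset r2 0), ?_, ?_⟩
    · intro i
      refine Fin.lastCases ?_ (fun i => ?_) i
      · intro j
        refine Fin.lastCases ?_ (fun j => ?_) j
        · intro _
          rfl
        · intro h
          rw [Fin.snoc_last, Fin.snoc_castSucc] at h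
          exact absurd h.symm (hlast j)
      · intro j
        refine Fin.lastCases ?_ (fun j => ?_) j
        · intro h
          rw [Fin.snoc_last, Fin.snoc_castSucc] at h
          exact absurd h (hlast i)
        · intro h
          rw [Fin.snoc_castSucc, Fin.snoc_castSucc] at h
          by_contra hne
          have hne' : i ≠ j := fun h' => hne (by rw [h'])
          apply ha (i, j) hne'
          rw [← hm1 i, h, hm1 j]
    · intro i
      refine Fin.lastCases ?_ (fun i => ?_) i
      · rw [Fin.snoc_last]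
        exact same_trans (hS 0) (same_trans (same_of_elem he 0) (same_of_elem hg 0))
      · rw [Fin.snoc_castSucc]
        exact same_trans (hS i) (same_trans (same_of_elem he i) (same_of_elem hf i))

end K2

theorem k2 (hJ : JStm) (hK1 : K1Stm) : KStm := by
  intro L M _ _ P N hN
  by_contra hnd
  rcases N with _ | n
  · exact hN M (fun i => i.elim0) (fun i => i.elim0) (fun i => i.elim0)
  · obtain ⟨M', _, _, Q, hQ, hS⟩ := K2.step hJ hK1 hnd n
    exact hN M' Q hS hQ

end Pool.Agent.R492.DV
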