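import Pool.Agent.R492.DV.G
import Pool.Agent.R492.DV.J
import Pool.Agent.R492.DV.K1
import Pool.Agent.R492.DV.K2

set_option autoImplicit false

namespace Pool.Agent.R492.DV

/-- Kueker's theorem (for one unary predicate). -/
theorem kueker : KStm := k2 (j g) k1

end Pool.Agent.R492.DV
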