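import Pool.Agent.R492.DV.F1

set_option autoImplicit false

/-! Orderings of fields as sets: first-order transfer, and two orderings with the same real place. -/

namespace Pool.Agent.R492.DV

open FirstOrder FirstOrder.Language FirstOrder.Ring

/-- `Q` is the set of the nonnegative elements of a field ordering such that for every `x ≥ 0` there
is a `y` with `x ≤ y² ≤ 2x`. -/
structure OrdSet {K : Type} [Field K] (Q : Set K) : Prop where
  add : ∀ x ∈ Q, ∀ y ∈ Q, x + y ∈ Q
  mul : ∀ x ∈ Q, ∀ y ∈ Q, x * y ∈ Q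
  total : ∀ x, x ∈ Q ∨ -x ∈ Q
  anti : ∀ x, x ∈ Q → -x ∈ Q → x = 0
  sq : ∀ x ∈ Q, ∃ y, y * y + -x ∈ Q ∧ x + x + -(y * y) ∈ Q

namespace F1

def oTotal : BF 0 := ∀' (inP (var 0) ⊔ inP (n := 1) (-(var 0)))
def oAnti : BF 0 := ∀' ((inP (var 0)).imp ((inP (n := 1) (-(var 0))).imp (eqF (n := 1) (var 0) 0)))
def oSq : BF 0 := ∀' ((inP (var 0)).imp
  (∃' (inP (n := 2) (var 1 * var 1 + -(var 0)) ⊓ inP (n := 2) (var 0 + var 0 + -(var 1 * var 1)))))

/-- The sentence expressing `OrdSet`. -/
def osent : BF 0 := sAdd ⊓ (sMul ⊓ (oTotal ⊓ (oAnti ⊓ oSq)))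

variable {K : Type} [Field K] [CompatibleRing K]

theorem realize_osent (Q : Fin 1 → Set K) (v : Empty → K) (xs : Fin 0 → K) :
    (letI := ul Q; osent.Realize v xs) ↔ OrdSet (Q 0) := by
  let _ := ul Q
  show osent.Realize v xs ↔ _
  have hE : ∀ {n : ℕ} (t₁ t₂ : RT n) (v : Empty → K) (xs : Fin n → K),
      (eqF t₁ t₂).Realize v xs ↔
      t₁.realize (Sum.elim v xs) = t₂.realize (Sum.elim v xs) := realize_eqF Q
  have hP : ∀ {n : ℕ} (t : RT n) (v : Empty → K) (xs : Fin n → K),
      (inP t).Realize v xs ↔ t.realize (Sum.elim v xs) ∈ Q 0 := realize_inP Q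
  have h2 : (sAdd).Realize v xs ↔ ∀ x ∈ Q 0, ∀ y ∈ Q 0, x + y ∈ Q 0 := by
    simp only [sAdd, BoundedFormula.realize_all, BoundedFormula.realize_imp, hP, realize_add,
      realize_var']
    exact ⟨fun h x hx y hy => h x y hx hy, fun h x y hx hy => h x hx y hy⟩
  have h4 : (sMul).Realize v xs ↔ ∀ x ∈ Q 0, ∀ y ∈ Q 0, x * y ∈ Q 0 := by
    simp only [sMul, BoundedFormula.realize_all, BoundedFormula.realize_imp, hP, realize_mul,
      realize_var']
    exact ⟨fun h x hx y hy => h x y hx hy, fun h x y hx hy => h x hx y hy⟩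
  have h5 : (oTotal).Realize v xs ↔ ∀ x : K, x ∈ Q 0 ∨ -x ∈ Q 0 := by
    simp only [oTotal, BoundedFormula.realize_all,
      BoundedFormula.realize_sup, hP, realize_neg, realize_var']
    exact Iff.rfl
  have h6 : (oAnti).Realize v xs ↔ ∀ x : K, x ∈ Q 0 → -x ∈ Q 0 → x = 0 := by
    simp only [oAnti, BoundedFormula.realize_all, BoundedFormula.realize_imp, hP, hE, realize_neg,
      realize_var', realize_zero]
    exact Iff.rfl
  have h7 : (oSq).Realize v xs ↔
      ∀ x ∈ Q 0, ∃ y, y * y + -x ∈ Q 0 ∧ x + x + -(y * y) ∈ Q 0 := by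
    simp only [oSq, BoundedFormula.realize_all, BoundedFormula.realize_imp,
      BoundedFormula.realize_ex, BoundedFormula.realize_inf, realize_add,
      hP, realize_mul, realize_var', realize_neg]
    exact Iff.rfl
  simp only [osent, BoundedFormula.realize_inf, h2, h4, h5, h6, h7]
  exact ⟨fun h => ⟨h.1, h.2.1, h.2.2.1, h.2.2.2.1, h.2.2.2.2⟩,
    fun h => ⟨h.add, h.mul, h.total, h.anti, h.sq⟩⟩

end F1

theorem ord_transfer {K : Type} [Field K] [CompatibleRing K] {P : Set K} (hP : OrdSet P)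
    {K' : Type} [Field K'] [CompatibleRing K'] {Q : Set K'}
    (hS : Same FirstOrder.Language.ring (fun _ : Fin 1 => P) (fun _ : Fin 1 => Q)) : OrdSet Q := by
  have h := (@elementarilyEquivalent_iff _ K K' (@sumStructure _ _ K _ (ul fun _ : Fin 1 => P))
    (@sumStructure _ _ K' _ (ul fun _ : Fin 1 => Q))).1 hS F1.osent
  have h1 := F1.realize_osent (fun _ : Fin 1 => P) default default
  have h2 := F1.realize_osent (fun _ : Fin 1 => Q) default default
  exact h2.1 (h.1 (h1.2 hP))

/-- Two ordered fields which are isomorphic as fields, with the same real places: nonnegative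
elements correspond to each other if the values of the natural valuation are divisible by two. -/
theorem nonneg_of_place {A B : Type} [Field A] [LinearOrder A] [IsStrictOrderedRing A] [Field B]
    [LinearOrder B] [IsStrictOrderedRing B] (e : A ≃+* B)
    (h1 : ∀ x : A, -1 < x → x < 1 → -2 < e x ∧ e x < 2)
    (h2 : ∀ x : A, -1 < e x → e x < 1 → -2 < x ∧ x < 2)
    (hsq : ∀ x : A, 0 ≤ x → ∃ y, x ≤ y * y ∧ y * y ≤ x + x) (x : A) (hx : 0 ≤ x) : 0 ≤ e x := by
  by_contra hneg
  push Not at hneg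
  have hx0 : x ≠ 0 := by
    rintro rfl
    rw [map_zero] at hneg
    exact lt_irrefl _ hneg
  have hxpos : 0 < x := lt_of_le_of_ne hx hx0.symm
  obtain ⟨y, hy1, hy2⟩ := hsq x hx
  have hyy : 0 < y * y := lt_of_lt_of_le hxpos hy1
  set r := x / (y * y) with hr
  have hr1 : r ≤ 1 := (div_le_one hyy).2 hy1
  have hr2 : 1 / 2 ≤ r := by
    rw [hr, le_div_iff₀ hyy]
    linarith
  have her : e r < 0 := by
    rw [hr, map_div₀, map_mul]
    have : 0 < e y * e y := by
      have h3 : e y ≠ 0 := by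
        rw [Ne, map_eq_zero_iff e e.injective]
        rintro rfl
        rw [mul_zero] at hyy
        exact lt_irrefl _ hyy
      exact mul_self_pos.2 h3
    exact div_neg_of_neg_of_pos hneg this
  -- powers: |x| < 1 implies |e x| ≤ 1 + 1/n
  have key : ∀ t : A, -1 < t → t < 1 → ∀ n : ℕ, 0 < n → -(e t) ≤ 1 + 1 / (n : B) := by
    intro t ht1 ht2 n hn
    by_contra hcon
    push Not at hcon
    have hn' : (0 : B) < n := by exact_mod_cast hn
    have hinv : (0 : B) < 1 / (n : B) := by positivity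
    have h3 : (1 + 1 / (n : B)) ^ (2 * n) ≤ (-(e t)) ^ (2 * n) :=
      pow_le_pow_left₀ (by positivity) hcon.le _
    have h4 : 1 + ((2 * n : ℕ) : B) * (1 / (n : B)) ≤ (1 + 1 / (n : B)) ^ (2 * n) :=
      one_add_mul_le_pow (by linarith) _
    have h5 : ((2 * n : ℕ) : B) * (1 / (n : B)) = 2 := by
      push_cast
      field_simp
    have h6 : (-(e t)) ^ (2 * n) = e (t ^ (2 * n)) := by
      rw [map_pow, Even.neg_pow (even_two_mul n)]
    have habs : |t| < 1 := abs_lt.2 ⟨ht1, ht2⟩
    have h7 : |t ^ (2 * n)| < 1 := by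
      rw [abs_pow]
      exact pow_lt_one₀ (abs_nonneg _) habs (by omega)
    have h8 := (h1 _ (abs_lt.1 h7).1 (abs_lt.1 h7).2).2
    rw [h5] at h4
    rw [h6] at h3
    linarith
  have h3 := key (r - 1) (by linarith) (by linarith) 8 (by norm_num)
  rw [map_sub, map_one] at h3
  have h4 := h2 (4 * r) (by
    rw [map_mul, map_ofNat]
    norm_num at h3
    linarith) (by
    rw [map_mul, map_ofNat]
    linarith)
  linarith [h4.2]

end Pool.Agent.R492.DV
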