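import Pool.Agent.R492.DV.Ord
import Pool.Agent.Results.MP_3554b5_lc.LocalPlaces

set_option autoImplicit false

namespace Pool.Agent.R492.DV

open FirstOrder FirstOrder.Language
open Pool.Agent.W882.Nip3 Pool.Agent.R614.NF

/-- For every `x ≥ 0` there is a `y` with `x ≤ y² ≤ 2x`: the values of the natural valuation of the
ordering are divisible by two. -/
def Tight {K : Type} [Field K] (o : FieldOrder K) : Prop :=
  ∀ x : K, o.le 0 x → ∃ y, o.le x (y * y) ∧ o.le (y * y) (x + x)

theorem ordSet_of {K : Type} [Field K] (o : FieldOrder K) (h : Tight o) :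
    OrdSet {x : K | o.le 0 x} := by
  letI := o.toLinearOrder
  haveI := o.ord
  refine ⟨fun x hx y hy => add_nonneg (a := x) hx hy, fun x hx y hy => mul_nonneg (a := x) hx hy,
    fun x => ?_, fun x hx hx' => ?_, fun x hx => ?_⟩
  · rcases le_total 0 x with h1 | h1
    · exact Or.inl h1
    · exact Or.inr (show (0 : K) ≤ -x from neg_nonneg.2 h1)
  · have h1 : (0 : K) ≤ -x := hx'
    exact le_antisymm (neg_nonneg.1 h1) hx
  · obtain ⟨y, h1, h2⟩ := h x hx
    have h1' : x ≤ y * y := h1
    have h2' : y * y ≤ x + x := h2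
    refine ⟨y, ?_, ?_⟩
    · show (0 : K) ≤ y * y + -x
      linarith
    · show (0 : K) ≤ x + x + -(y * y)
      linarith

/-- the field ordering of a set with `OrdSet` -/
noncomputable def ofSet {K : Type} [Field K] {Q : Set K} (h : OrdSet Q) : FieldOrder K :=
  letI : LinearOrder K :=
    { le := fun x y => y + -x ∈ Q
      le_refl := fun x => by
        show x + -x ∈ Q
        rw [add_neg_cancel]
        rcases h.total 0 with h1 | h1
        · exact h1
        · rwa [neg_zero] at h1
      le_trans := fun x y z h1 h2 => by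
        show z + -x ∈ Q
        have h3 := h.add _ h1 _ h2
        have h4 : y + -x + (z + -y) = z + -x := by ring
        rwa [h4] at h3
      le_antisymm := fun x y h1 h2 => by
        have h3 := h.anti _ h1 (by
          have h4 : -(y + -x) = x + -y := by ring
          rw [h4]
          exact h2)
        have h5 : y = x := by linear_combination h3
        exact h5.symm
      le_total := fun x y => by
        rcases h.total (y + -x) with h1 | h1
        · exact Or.inl h1
        · right
          have h4 : -(y + -x) = x + -y := by ring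
          rw [h4] at h1
          exact h1
      toDecidableLE := Classical.decRel _ }
  { toLinearOrder := this
    ord := by
      haveI h1 : IsOrderedAddMonoid K :=
        { add_le_add_left := fun x y hxy z => by
            show y + z + -(x + z) ∈ Q
            have h4 : y + z + -(x + z) = y + -x := by ring
            rw [h4]
            exact hxy }
      haveI h2 : ZeroLEOneClass K := ⟨by
        show (1 : K) + -0 ∈ Q
        rw [neg_zero, add_zero]
        rcases h.total 1 with h1 | h1
        · exact h1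
        · have h2 := h.mul _ h1 _ h1
          rwa [neg_mul_neg, mul_one] at h2⟩
      refine IsStrictOrderedRing.of_mul_pos fun x y hx hy => ?_
      have hx1 : x ∈ Q := by
        have : x + -0 ∈ Q := hx.le
        rwa [neg_zero, add_zero] at this
      have hy1 : y ∈ Q := by
        have : y + -0 ∈ Q := hy.le
        rwa [neg_zero, add_zero] at this
      refine lt_of_le_of_ne ?_ (mul_ne_zero hx.ne' hy.ne').symm
      show x * y + -0 ∈ Q
      rw [neg_zero, add_zero]
      exact h.mul _ hx1 _ hy1 }

theorem ofSet_le {K : Type} [Field K] {Q : Set K} (h : OrdSet Q) (x y : K) :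
    (ofSet h).le x y ↔ y + -x ∈ Q := Iff.rfl

theorem ofSet_nonneg {K : Type} [Field K] {Q : Set K} (h : OrdSet Q) (x : K) :
    (ofSet h).le 0 x ↔ x ∈ Q := by
  rw [ofSet_le, neg_zero, add_zero]

theorem tight_ofSet {K : Type} [Field K] {Q : Set K} (h : OrdSet Q) : Tight (ofSet h) := by
  intro x hx
  obtain ⟨y, h1, h2⟩ := h.sq x ((ofSet_nonneg h x).1 hx)
  exact ⟨y, h1, h2⟩

/-- Orderings with the same real place, one of them tight, are comparable. -/
theorem le_of_place {K : Type} [Field K] (o o' : FieldOrder K) (ho : Tight o)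
    (h1 : ∀ x : K, o.lt (-1) x → o.lt x 1 → o'.lt (-2) x ∧ o'.lt x 2)
    (h2 : ∀ x : K, o'.lt (-1) x → o'.lt x 1 → o.lt (-2) x ∧ o.lt x 2) (x : K) (hx : o.le 0 x) :
    o'.le 0 x :=
  @nonneg_of_place K K _ o.toLinearOrder o.ord _ o'.toLinearOrder o'.ord (RingEquiv.refl K)
    h1 h2 ho x hx

theorem ord_bound {K' : Type} [Field K'] {N : ℕ}
    (hN : ∀ o : Fin N → FieldOrder K', ∃ i j, i ≠ j ∧
        (∀ x : K', (o i).lt (-1) x → (o i).lt x 1 → (o j).lt (-2) x ∧ (o j).lt x 2) ∧
        (∀ x : K', (o j).lt (-1) x → (o j).lt x 1 → (o i).lt (-2) x ∧ (o i).lt x 2))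
    (Q : Fin N → Set K') (hQ : ∀ i, OrdSet (Q i)) : ¬ Function.Injective Q := by
  intro hinj
  obtain ⟨i, j, hij, h1, h2⟩ := hN fun i => ofSet (hQ i)
  refine hij (hinj ?_)
  ext x
  have h3 := le_of_place _ _ (tight_ofSet (hQ i)) h1 h2 x
  have h4 := le_of_place _ _ (tight_ofSet (hQ j)) h2 h1 x
  rw [ofSet_nonneg, ofSet_nonneg] at h3 h4
  exact ⟨h3, h4⟩

theorem ord_ext {K : Type} [Field K] {o o' : FieldOrder K}
    (h : {x : K | o.le 0 x} = {x : K | o'.le 0 x}) : o = o' := by
  have hle : ∀ x y, o.le x y ↔ o'.le x y := by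
    intro x y
    have h1 : o.le x y ↔ o.le 0 (y - x) := by
      letI := o.toLinearOrder
      haveI := o.ord
      exact (sub_nonneg (a := y) (b := x)).symm
    have h2 : o'.le x y ↔ o'.le 0 (y - x) := by
      letI := o'.toLinearOrder
      haveI := o'.ord
      exact (sub_nonneg (a := y) (b := x)).symm
    rw [h1, h2]
    exact Set.ext_iff.1 h (y - x)
  cases o with
  | mk l ho =>
    cases o' with
    | mk l' ho' =>
      have : l = l' := LinearOrder.ext fun x y => hle x y
      subst this
      rfl

/-- The tight orderings include the orderings induced by embeddings in the real numbers. -/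
theorem tight_of_real {K : Type} [Field K] (f : K →+* ℝ) :
    OrdSet {x : K | 0 ≤ f x} := by
  refine ⟨fun x hx y hy => ?_, fun x hx y hy => ?_, fun x => ?_, fun x hx hx' => ?_,
    fun x hx => ?_⟩
  · show 0 ≤ f (x + y)
    rw [map_add]
    exact add_nonneg hx hy
  · show 0 ≤ f (x * y)
    rw [map_mul]
    exact mul_nonneg hx hy
  · rcases le_total 0 (f x) with h1 | h1
    · exact Or.inl h1
    · refine Or.inr ?_
      show 0 ≤ f (-x)
      rw [map_neg]
      linarith
  · have h1 : 0 ≤ f (-x) := hx'
    have h2 : 0 ≤ f x := hx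
    rw [map_neg] at h1
    have h3 : f x = 0 := by linarith
    exact (map_eq_zero f).1 h3
  · have h2 : 0 ≤ f x := hx
    rcases h2.eq_or_lt with h3 | h3
    · have h4 : x = 0 := (map_eq_zero f).1 h3.symm
      refine ⟨0, ?_, ?_⟩ <;> · show 0 ≤ f _; simp [h4]
    · obtain ⟨q, hq1, hq2⟩ := exists_rat_btwn (show √(f x) < √(2 * f x) from
        Real.sqrt_lt_sqrt h2 (by linarith))
      have hq0 : (0 : ℝ) ≤ q := (Real.sqrt_nonneg _).trans hq1.le
      have h5 : f x ≤ (q : ℝ) * q := by
        calc f x = √(f x) * √(f x) := (Real.mul_self_sqrt h2).symm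
          _ ≤ q * q := mul_self_le_mul_self (Real.sqrt_nonneg _) hq1.le
      have h6 : (q : ℝ) * q ≤ 2 * f x := by
        calc (q : ℝ) * q ≤ √(2 * f x) * √(2 * f x) := mul_self_le_mul_self hq0 hq2.le
          _ = 2 * f x := Real.mul_self_sqrt (by linarith)
      refine ⟨(q : K), ?_, ?_⟩
      · show 0 ≤ f _
        rw [map_add, map_mul, map_neg, map_ratCast]
        linarith
      · show 0 ≤ f _
        rw [map_add, map_add, map_neg, map_mul, map_ratCast]
        linarith

theorem same_self {L : FirstOrder.Language.{0, 0}} {M : Type} [L.Structure M] :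
    L.ElementarilyEquivalent M M := by
  rw [elementarilyEquivalent_iff]
  intro φ
  rfl

theorem ord_def (hKu : KStm) (K : Type) [Field K] [FirstOrder.Ring.CompatibleRing K]
    (hK : NIPField K ∨ (∃ n, NIPnField n K) ∨ NTP2Field K) (P : Set K) (hP : OrdSet P) :
    ∃ (p : ℕ) (ψ : FirstOrder.Language.ring.Formula (Fin 1 ⊕ Fin p)) (c : Fin p → K),
      ∀ x : K, x ∈ P ↔ ψ.Realize (Sum.elim (fun _ => x) c) := by
  obtain ⟨N, hN⟩ := Pool.Agent.Results.MP_3554b5_lc.LocalPlaces.result K hK
  refine hKu FirstOrder.Language.ring K P N ?_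
  intro M' _ _ Q hQ hinj
  rcases Nat.eq_zero_or_pos N with rfl | hNpos
  · obtain ⟨i, -⟩ := (hN K same_self).2.2.2 (fun i => i.elim0)
    exact i.elim0
  · have he : FirstOrder.Language.ring.ElementarilyEquivalent K M' := by
      let _ := ul fun _ : Fin 1 => P
      let _ := ul fun _ : Fin 1 => Q ⟨0, hNpos⟩
      have h' : (FirstOrder.Language.ring.sum (UL 1)).ElementarilyEquivalent K M' :=
        hQ ⟨0, hNpos⟩
      rw [elementarilyEquivalent_iff] at h' ⊢
      intro φ
      have h1 := h' (LHom.sumInl.onSentence φ)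
      rwa [LHom.realize_onSentence, LHom.realize_onSentence] at h1
    have : FirstOrder.Language.Theory.field.Model M' := by
      have h1 : FirstOrder.Language.Theory.field.Model K := inferInstance
      exact he.theory_model_iff.1 h1
    let _ := FirstOrder.Field.fieldOfModelField M'
    let _ := FirstOrder.Field.compatibleRingOfModelField M'
    exact ord_bound (hN M' he).2.2.2 Q (fun i => ord_transfer hP (hQ i)) hinj

theorem ord_main (hKu : KStm) (K : Type) [Field K] [FirstOrder.Ring.CompatibleRing K]
    (hK : NIPField K ∨ (∃ n, NIPnField n K) ∨ NTP2Field K) :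
    (∀ o : FieldOrder K, Tight o →
      ∃ (p : ℕ) (ψ : FirstOrder.Language.ring.Formula (Fin 1 ⊕ Fin p)) (c : Fin p → K),
        ∀ x : K, o.le 0 x ↔ ψ.Realize (Sum.elim (fun _ => x) c)) ∧
    (∀ f : K →+* ℝ,
      ∃ (p : ℕ) (ψ : FirstOrder.Language.ring.Formula (Fin 1 ⊕ Fin p)) (c : Fin p → K),
        ∀ x : K, 0 ≤ f x ↔ ψ.Realize (Sum.elim (fun _ => x) c)) ∧
    ∃ N : ℕ, ∀ (K' : Type) [Field K'] [FirstOrder.Ring.CompatibleRing K'],
      FirstOrder.Language.ring.ElementarilyEquivalent K K' →
      {o : FieldOrder K' | Tight o}.encard < N := by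
  refine ⟨fun o ho => ord_def hKu K hK _ (ordSet_of o ho),
    fun f => ord_def hKu K hK _ (tight_of_real f), ?_⟩
  obtain ⟨N, hN⟩ := Pool.Agent.Results.MP_3554b5_lc.LocalPlaces.result K hK
  refine ⟨N, fun K' _ _ hKK' => ?_⟩
  by_contra hcon
  rw [not_lt] at hcon
  obtain ⟨t, ht, htN⟩ := Set.exists_subset_encard_eq hcon
  have htf : t.Finite := Set.finite_of_encard_eq_coe htN
  have hcard : htf.toFinset.card = N := by
    have h1 := htf.encard_eq_coe_toFinset_card
    rw [htN] at h1
    exact_mod_cast h1.symm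
  let e : Fin N → FieldOrder K' := fun i => (htf.toFinset.equivFinOfCardEq hcard).symm i
  have heinj : Function.Injective e := fun i j hij =>
    (htf.toFinset.equivFinOfCardEq hcard).symm.injective (Subtype.ext hij)
  have hemem : ∀ i, Tight (e i) := fun i =>
    ht (htf.mem_toFinset.1 ((htf.toFinset.equivFinOfCardEq hcard).symm i).2)
  refine ord_bound (hN K' hKK').2.2.2 (fun i => {x : K' | (e i).le 0 x})
    (fun i => ordSet_of (e i) (hemem i)) fun i j hij => heinj (ord_ext hij)

end Pool.Agent.R492.DV
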