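import Mathlib

set_option autoImplicit false

/-! Statements of the pieces of the project DV: on a field which is NIP, `NIP_n` or NTP2 every
discrete valuation ring whose residue field is not closed under `ℓ`-th roots is definable. -/

namespace Pool.Agent.R492.DV

open FirstOrder FirstOrder.Language NNReal

/-- The relation symbols of the language with `m` unary predicates. -/
inductive URel (m : ℕ) : ℕ → Type
  | P (i : Fin m) : URel m 1

/-- The language with `m` unary predicates. -/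
def UL (m : ℕ) : FirstOrder.Language.{0, 0} := ⟨fun _ => Empty, URel m⟩

/-- The structure on `M` in which the predicates are the sets `Q i`. -/
@[reducible] def ul {m : ℕ} {M : Type} (Q : Fin m → Set M) : (UL m).Structure M where
  funMap := fun f => Empty.elim f
  RelMap := fun r x => match r, x with
    | URel.P i, x => x 0 ∈ Q i

/-- `M` with the subsets `Q i` and `M'` with the subsets `Q' i` satisfy the same sentences of the
language `L` with `m` additional unary predicates. -/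
def Same (L : FirstOrder.Language.{0, 0}) {m : ℕ} {M M' : Type} [L.Structure M] [L.Structure M']
    (Q : Fin m → Set M) (Q' : Fin m → Set M') : Prop :=
  letI := ul Q
  letI := ul Q'
  (L.sum (UL m)).ElementarilyEquivalent M M'

/-- `f` preserves the truth values of all formulas. -/
def ElemMap (L : FirstOrder.Language.{0, 0}) {M N : Type} [L.Structure M] [L.Structure N] (f : M → N) : Prop :=
  ∀ (n : ℕ) (φ : L.Formula (Fin n)) (x : Fin n → M), φ.Realize (f ∘ x) ↔ φ.Realize x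

/-- The same for the language `L.sum R`, where the structures for `R` are given explicitly. -/
def ElemMap2 (L R : FirstOrder.Language.{0, 0}) {M N : Type} [L.Structure M] [L.Structure N]
    (r : R.Structure M) (r' : R.Structure N) (f : M → N) : Prop :=
  ∀ (n : ℕ) (φ : (L.sum R).Formula (Fin n)) (x : Fin n → M),
    (letI := r'; φ.Realize (f ∘ x)) ↔ (letI := r; φ.Realize x)

/-- Piece G (amalgamation over one side, by compactness). -/
def GStm : Prop :=
  ∀ (L R : FirstOrder.Language.{0, 0}) (B : Type) [L.Structure B] (r : R.Structure B) [Nonempty B]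
    (A : Type) [L.Structure A] (ι : Type) (s : ι → B) (t : ι → A),
    (∀ (n : ℕ) (φ : L.Formula (Fin n)) (i : Fin n → ι),
      φ.Realize (s ∘ i) ↔ φ.Realize (t ∘ i)) →
    ∃ (B' : Type) (_ : L.Structure B') (r' : R.Structure B') (j : B → B') (h : A → B'),
      ElemMap2 L R r r' j ∧ ElemMap L h ∧ ∀ i, h (t i) = j (s i)

/-- Piece J (Robinson's joint consistency, for two copies of one structure). -/
def JStm : Prop :=
  ∀ (L R : FirstOrder.Language.{0, 0}) [R.IsRelational] (N : Type) [L.Structure N] (r : R.Structure N)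
    [Nonempty N] (k : ℕ) (s t : Fin k → N),
    (∀ φ : L.Formula (Fin k), φ.Realize s ↔ φ.Realize t) →
    ∃ (M : Type) (_ : L.Structure M) (r₁ r₂ : R.Structure M) (f g : N → M),
      ElemMap2 L R r r₁ f ∧ ElemMap2 L R r r₂ g ∧ f ∘ s = g ∘ t

/-- Piece K1 (compactness): if `P` is not definable with parameters, then some elementary extension
has two elements of the same type over given parameters, one in `P` and the other one not. -/
def K1Stm : Prop :=
  ∀ (L : FirstOrder.Language.{0, 0}) (m : ℕ) (M : Type) [L.Structure M] [Nonempty M] (Q : Fin m → Set M)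
    (i₀ : Fin m),
    (¬ ∃ (p : ℕ) (ψ : L.Formula (Fin 1 ⊕ Fin p)) (c : Fin p → M),
      ∀ x, x ∈ Q i₀ ↔ ψ.Realize (Sum.elim (fun _ => x) c)) →
    ∀ (k : ℕ) (a : Fin k → M),
      ∃ (M' : Type) (_ : L.Structure M') (Q' : Fin m → Set M') (e : M → M') (b c : M'),
        ElemMap2 L (UL m) (ul Q) (ul Q') e ∧ b ∈ Q' i₀ ∧ c ∉ Q' i₀ ∧
        ∀ φ : L.Formula (Fin 1 ⊕ Fin k), φ.Realize (Sum.elim (fun _ => b) (e ∘ a)) ↔
          φ.Realize (Sum.elim (fun _ => c) (e ∘ a))

/-- Piece K2 (Kueker's theorem): from J and K1. -/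
def KStm : Prop :=
  ∀ (L : FirstOrder.Language.{0, 0}) (M : Type) [L.Structure M] [Nonempty M] (P : Set M) (N : ℕ),
    (∀ (M' : Type) [L.Structure M'] [Nonempty M'] (Q : Fin N → Set M'),
      (∀ i, Same L (fun _ : Fin 1 => P) (fun _ : Fin 1 => Q i)) → ¬ Function.Injective Q) →
    ∃ (p : ℕ) (ψ : L.Formula (Fin 1 ⊕ Fin p)) (c : Fin p → M),
      ∀ x, x ∈ P ↔ ψ.Realize (Sum.elim (fun _ => x) c)

/-- `Q` is a valuation ring of the field `K` with principal maximal ideal `(π)`, `K^*` is generated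
by `π`, the units of `Q` and the `q`-th powers, and the residue field has characteristic different
from `ℓ` and is not closed under `ℓ`-th roots. -/
structure DiscSet {K : Type} [Field K] (ℓ q : ℕ) (Q : Set K) : Prop where
  one : (1 : K) ∈ Q
  add : ∀ x ∈ Q, ∀ y ∈ Q, x + y ∈ Q
  neg : ∀ x ∈ Q, -x ∈ Q
  mul : ∀ x ∈ Q, ∀ y ∈ Q, x * y ∈ Q
  total : ∀ x y : K, x * y = 1 → x ∈ Q ∨ y ∈ Q
  unif : ∃ π ∈ Q, π ≠ 0 ∧ (∀ y ∈ Q, π * y ≠ 1) ∧
    (∀ x ∈ Q, (∃ y ∈ Q, x * y = 1) ∨ ∃ y ∈ Q, x = π * y) ∧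
    ∀ x : K, x ≠ 0 → ∃ (i : Fin q) (y : K), ∃ u ∈ Q, ∃ w ∈ Q,
      u * w = 1 ∧ x = π ^ (i : ℕ) * u * y ^ q
  root : ∃ u ∈ Q, ∀ y ∈ Q, ∃ z ∈ Q, (y ^ ℓ - u) * z = 1
  inv : ∃ z ∈ Q, (ℓ : K) * z = 1

/-- Piece F1: the property `DiscSet` is first order. -/
def F1Stm : Prop :=
  ∀ (K : Type) [Field K] [FirstOrder.Ring.CompatibleRing K] (ℓ q : ℕ) (P : Set K),
    DiscSet ℓ q P →
    ∀ (K' : Type) [Field K'] [FirstOrder.Ring.CompatibleRing K'] (Q : Set K'),
      Same FirstOrder.Language.ring (fun _ : Fin 1 => P) (fun _ : Fin 1 => Q) → DiscSet ℓ q Q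

/-- Piece F2: the place given by the coarsening with real (discrete) valuation. -/
def F2Stm : Prop :=
  ∀ (K : Type) [Field K] (ℓ q : ℕ), ℓ.Prime → ∀ Q : Set K, DiscSet ℓ q Q →
    ∃ (O : ValuationSubring K) (κ : Type) (_ : Field κ) (π : O →+* κ) (v : Valuation κ ℝ≥0),
      Function.Surjective π ∧
      (∀ x : K, (∃ h : x ∈ O, v (π ⟨x, h⟩) < 1) ↔ x ∈ Q ∧ ∀ y ∈ Q, x * y ≠ 1) ∧
      (∃ a : κ, ∀ c : κ, v a ≠ v c ^ ℓ) ∧
      ∃ (L : Type) (_ : Field L) (_ : Algebra (IsLocalRing.ResidueField v.valuationSubring) L),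
        Algebra.IsSeparable (IsLocalRing.ResidueField v.valuationSubring) L ∧
        Module.finrank (IsLocalRing.ResidueField v.valuationSubring) L = ℓ

/-- Piece F3: different such rings are incomparable. -/
def F3Stm : Prop :=
  ∀ (K : Type) [Field K] (ℓ q : ℕ), 2 ≤ q → ∀ Q₁ Q₂ : Set K, DiscSet ℓ q Q₁ → DiscSet ℓ q Q₂ →
    Q₁ ≠ Q₂ → ∃ x : K, x ≠ 0 ∧ (x ∈ Q₁ ∧ ∀ y ∈ Q₁, x * y ≠ 1) ∧
      (x⁻¹ ∈ Q₂ ∧ ∀ y ∈ Q₂, x⁻¹ * y ≠ 1)

end Pool.Agent.R492.DV
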